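import Pool.Agent.W2helper83.GZ.Cov

/-! The final statement, in elementary terms. -/

open Filter Topology MeasureTheory
open Pool.Agent.H383
open Pool.Agent.H383.AP
open Pool.Agent.H383.Gen (Bd U Ap)
open Pool.Agent.H383.Gauss Pool.Agent.H383.Circ
open Pool.Agent.H425R3.JL
open Pool.Agent.H469R2.NK
open Pool.Agent.W24.CP
open Pool.Agent.W24.CP.SU (SI SI_ne SI_Av SI_card)
open Finset

namespace Pool.Agent.W2helper83.GZ

variable {k : ℕ}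

lemma disc_eq (N : ℕ) : disc N =
    (Finset.Icc (-(N : ℤ)) N ×ˢ Finset.Icc (-(N : ℤ)) N).filter (fun z => 0 < z.1 ^ 2 + z.2 ^ 2 ∧ z.1 ^ 2 + z.2 ^ 2 ≤ (N : ℤ)) := by
  ext z
  rw [mem_disc, mem_filter, mem_product, mem_Icc, mem_Icc, ← nm_castZ]
  constructor
  · rintro ⟨h1, h2⟩
    have h3 : ((nm z : ℕ) : ℤ) ≤ N := by exact_mod_cast h2
    have h4 := nm_castZ z
    have hz : ∀ x : ℤ, x ≤ x^2 ∧ -x ≤ x^2 := by
      intro x
      constructor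
      · rcases le_or_gt x 0 with h | h
        · nlinarith [sq_nonneg x]
        · nlinarith
      · rcases le_or_gt 0 x with h | h
        · nlinarith [sq_nonneg x]
        · nlinarith
    have a1 := hz z.1
    have a2 := hz z.2
    have b1 := sq_nonneg z.1
    have b2 := sq_nonneg z.2
    refine ⟨⟨⟨by linarith, by linarith⟩, ⟨by linarith, by linarith⟩⟩, by exact_mod_cast h1, h3⟩
  · rintro ⟨-, h1, h2⟩
    exact ⟨by exact_mod_cast h1, by exact_mod_cast h2⟩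

lemma dir_eq (z : ℤ × ℤ) : dir z = ((z.1 : ℂ) + (z.2 : ℂ) * Complex.I) / ((√((z.1 : ℝ) ^ 2 + (z.2 : ℝ) ^ 2) : ℝ) : ℂ) := by
  unfold dir; rw [nm_cast]

lemma En_eq (z a : ℤ × ℤ) : En √(nm (z - a) : ℝ) = Ec (((z.1 : ℝ) - a.1) ^ 2 + ((z.2 : ℝ) - a.2) ^ 2) := by
  have h : ((nm (z - a) : ℕ) : ℝ) = ((z.1 : ℝ) - a.1) ^ 2 + ((z.2 : ℝ) - a.2) ^ 2 := by
    rw [nm_cast]; push_cast [Prod.fst_sub, Prod.snd_sub]; rfl
  rw [h, Ec_eq (by positivity)]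

lemma TC_eq (g : ℂ → ℝ) (c : ℤ × ℤ) (r : ℕ → ℕ) (hr : ∀ m : ℕ, r m = Nat.card {p : ℤ × ℤ // p.1 ^ 2 + p.2 ^ 2 = (m : ℤ)}) (m : ℕ) :
    TC g c m = (r m : ℝ) ^ 2 / (m : ℝ) ^ (3 / 2 : ℝ) * (∫ t in (-Real.pi)..Real.pi,
      g (Complex.exp (t * Complex.I)) * Real.cos (2 * Real.pi * √(m : ℝ) * (c.1 * Real.cos t + c.2 * Real.sin t))) / (4 * Real.pi ^ 3) := by
  unfold TC angR
  have h1 : (ag m)^2 = (r m : ℝ) ^ 2 / (m : ℝ) ^ (3 / 2 : ℝ) / Real.pi ^ 2 := by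
    rw [SR.ag_all, hr]
    have h2 : ((m : ℝ) ^ (-(3 / 4) : ℝ))^2 = 1 / (m : ℝ) ^ (3 / 2 : ℝ) := by
      rw [← Real.rpow_natCast, ← Real.rpow_mul (Nat.cast_nonneg _), one_div, ← Real.rpow_neg (Nat.cast_nonneg _)]
      norm_num
    rw [mul_pow, h2]
    ring
  have h3 : ∀ t : ℝ, rho c (Complex.exp (t * Complex.I)) = c.1 * Real.cos t + c.2 * Real.sin t := by
    intro t
    unfold rho
    rw [Complex.exp_ofReal_mul_I_re, Complex.exp_ofReal_mul_I_im]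
  have h4 : (∫ t in (-Real.pi)..Real.pi, g (Complex.exp (t * Complex.I)) * Real.cos (2 * Real.pi * (√(m:ℝ) * rho c (Complex.exp (t * Complex.I))))) =
      ∫ t in (-Real.pi)..Real.pi, g (Complex.exp (t * Complex.I)) * Real.cos (2 * Real.pi * √(m : ℝ) * (c.1 * Real.cos t + c.2 * Real.sin t)) := by
    congr 1
    funext t
    rw [h3]
    congr 2
    ring
  rw [h1, h4]
  have hpi := Real.pi_ne_zero
  generalize (∫ t in (-Real.pi)..Real.pi, g (Complex.exp (t * Complex.I)) * Real.cos (2 * Real.pi * √(m : ℝ) * (c.1 * Real.cos t + c.2 * Real.sin t))) = I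
  generalize (r m : ℝ) ^ 2 / (m : ℝ) ^ (3 / 2 : ℝ) = A
  field_simp
  ring

/-- averages over the discs from averages along the index sets -/
lemma to_disc {F : ℤ × ℤ → ℝ} {L : ℝ} (h : Tendsto (fun j => fav (SD j) (fun n => F (zz n))) atTop (𝓝 L)) :
    Tendsto (fun N : ℕ => (∑ z ∈ disc N, F z) / ((disc N).card : ℝ)) atTop (𝓝 L) := by
  rw [← tendsto_add_atTop_iff_nat 1]
  refine h.congr (fun j => ?_)
  exact fav_SD F j

/-- the universal law -/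
theorem nu_exists : ∃ (ν : ProbabilityMeasure ℝ) (G : ℂ → ℂ),
      Differentiable ℂ G ∧ (∀ x : ℝ, 0 ≤ (G x).re ∧ (G x).im = 0) ∧
      (ν : Measure ℝ) = volume.withDensity (fun x : ℝ => ENNReal.ofReal (G x).re) ∧
      (∀ u v : ℝ, u < v → 0 < (ν : Measure ℝ) (Set.Ioo u v)) ∧
      ∀ f : ℝ → ℝ, Continuous f → (∃ C : ℝ, ∀ x : ℝ, |f x| ≤ C * (1 + x ^ 2)) →
        Tendsto (fun N : ℕ => (∑ n ∈ Finset.Icc 1 N, f (Ec n)) / (N : ℝ)) atTop (𝓝 (∫ x, f x ∂(ν : Measure ℝ))) := by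
  obtain ⟨ν, G, g1, g2, g3, g4, g5⟩ := SR.circ_lin (fun m => Nat.card {p : ℤ × ℤ // p.1 ^ 2 + p.2 ^ 2 = (m : ℤ)}) (fun _ => rfl)
  refine ⟨ν, G, g1, g2, g3, g4, ?_⟩
  obtain ⟨μ, -, m2, -, -, m5, -⟩ := g5 1 (fun _ => 1) (fun _ => 0) (fun _ => one_pos)
  intro f hf hC
  obtain ⟨C, hC⟩ := hC
  have hint : ∫ x, f (x 0) ∂(μ : Measure (Fin 1 → ℝ)) = ∫ x, f x ∂(ν : Measure ℝ) := by
    rw [← m2 0, integral_map (measurable_pi_apply 0).aemeasurable hf.aestronglyMeasurable]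
  rw [Metric.tendsto_atTop]
  intro ε hε
  obtain ⟨N0, h⟩ := m5 (fun x => f (x 0)) (by fun_prop) ⟨C, fun x => by
    refine (hC (x 0)).trans (le_of_eq ?_)
    simp⟩ (ε/2) (by positivity)
  refine ⟨max N0 1, fun N hN => ?_⟩
  have h1 := (h N ((le_max_left _ _).trans hN) 0).1 (fun _ => 1) (fun _ => by simp) (fun _ _ _ => by simp)
  have hN0 : (0:ℝ) < N := by exact_mod_cast (le_max_right N0 1).trans hN
  have e1 : ∑ n ∈ Finset.Icc 1 N, (1:ℂ) * Complex.exp (2 * Real.pi * Complex.I * (((0:ℝ) : ℂ) * n)) *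
      ((f (Ec (((1:ℕ) : ℝ) * n + ((0:ℕ) : ℝ))) - ∫ x, f (x 0) ∂(μ : Measure (Fin 1 → ℝ)) : ℝ) : ℂ) =
      ((∑ n ∈ Finset.Icc 1 N, f (Ec n) - N * ∫ x, f x ∂(ν : Measure ℝ) : ℝ) : ℂ) := by
    rw [hint]
    have : ∀ n : ℕ, (1:ℂ) * Complex.exp (2 * Real.pi * Complex.I * (((0:ℝ) : ℂ) * n)) *
      ((f (Ec (((1:ℕ) : ℝ) * n + ((0:ℕ) : ℝ))) - ∫ x, f x ∂(ν : Measure ℝ) : ℝ) : ℂ) = ((f (Ec n) - ∫ x, f x ∂(ν : Measure ℝ) : ℝ) : ℂ) := by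
      intro n
      have e2 : ((1:ℕ) : ℝ) * n + ((0:ℕ) : ℝ) = n := by push_cast; ring
      rw [e2]
      simp
    rw [sum_congr rfl (fun n _ => this n), ← Complex.ofReal_sum, sum_sub_distrib, sum_const, Nat.card_Icc, Nat.add_sub_cancel, nsmul_eq_mul]
  rw [e1, Complex.norm_real, Real.norm_eq_abs] at h1
  rw [Real.dist_eq]
  have e3 : (∑ n ∈ Finset.Icc 1 N, f (Ec n)) / (N:ℝ) - ∫ x, f x ∂(ν : Measure ℝ) =
      (∑ n ∈ Finset.Icc 1 N, f (Ec n) - N * ∫ x, f x ∂(ν : Measure ℝ)) / N := by field_simp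
  rw [e3, abs_div, abs_of_pos hN0, div_lt_iff₀ hN0]
  have : 0 < ε * N := by positivity
  linarith

theorem nu_SI {ν : ProbabilityMeasure ℝ} (h : ∀ f : ℝ → ℝ, Continuous f → (∃ C : ℝ, ∀ x : ℝ, |f x| ≤ C * (1 + x ^ 2)) →
        Tendsto (fun N : ℕ => (∑ n ∈ Finset.Icc 1 N, f (Ec n)) / (N : ℝ)) atTop (𝓝 (∫ x, f x ∂(ν : Measure ℝ))))
    (F : ℝ → ℝ) (hF : Continuous F) (hB : ∃ B, ∀ x, |F x| ≤ B) :
      Tendsto (fun j => fav (SI j) (fun n => F (En √(n:ℝ)))) atTop (𝓝 (∫ x, F x ∂(ν : Measure ℝ))) := by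
  obtain ⟨B, hB⟩ := hB
  have h1 := h F hF ⟨B, fun x => by
    have h2 := hB x
    have h3 : 0 ≤ B := (abs_nonneg _).trans h2
    nlinarith [sq_nonneg x]⟩
  rw [← tendsto_add_atTop_iff_nat 1] at h1
  refine h1.congr (fun j => ?_)
  unfold fav
  rw [SI_card]
  unfold SI
  congr 1
  apply sum_congr rfl
  intro n _
  beta_reduce
  rw [Ec_eq (Nat.cast_nonneg _)]

end Pool.Agent.W2helper83.GZ
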