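import Pool.Agent.W2helper83.GZ.Osc
import Pool.Agent.W24.CP.SR

/-! Sums over the Gaussian integers, arranged by the norm. -/

open Filter Topology MeasureTheory
open Pool.Agent.H383
open Pool.Agent.H383.AP
open Pool.Agent.H383.Gen (Bd U Ap)
open Pool.Agent.H425R3.JL
open Pool.Agent.H469R2.NK
open Pool.Agent.H452R2.Win
open Pool.Agent.W24.CP

namespace Pool.Agent.W2helper83.GZ

/-- the Gaussian integers of norm `n` -/
noncomputable def fib (n : ℕ) : Finset (ℤ × ℤ) := (disc n).filter (fun z => nm z = n)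

lemma mem_fib {n : ℕ} (hn : 1 ≤ n) {z : ℤ × ℤ} : z ∈ fib n ↔ nm z = n := by
  unfold fib
  rw [Finset.mem_filter, mem_disc]
  constructor
  · rintro ⟨_, h⟩; exact h
  · intro h; exact ⟨⟨by omega, by omega⟩, h⟩

lemma disc_zero : disc 0 = ∅ := by
  ext z
  rw [mem_disc]
  simp only [Finset.notMem_empty, iff_false]
  omega

lemma disc_succ (N : ℕ) : disc (N + 1) = (disc N).disjUnion (fib (N + 1)) (by
    rw [Finset.disjoint_left]
    intro z h1 h2
    rw [mem_disc] at h1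
    rw [mem_fib (by omega)] at h2
    omega) := by
  ext z
  rw [Finset.mem_disjUnion, mem_disc, mem_disc, mem_fib (by omega)]
  omega

lemma sum_disc {M : Type*} [AddCommMonoid M] (N : ℕ) (F : ℤ × ℤ → M) :
    ∑ z ∈ disc N, F z = ∑ n ∈ Finset.range N, ∑ z ∈ fib (n + 1), F z := by
  induction N with
  | zero => rw [disc_zero]; simp
  | succ N ih => rw [disc_succ, Finset.sum_disjUnion, ih, Finset.sum_range_succ]

lemma sum_disc_nm {M : Type*} [AddCommMonoid M] (N : ℕ) (F : ℕ → M) :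
    ∑ z ∈ disc N, F (nm z) = ∑ n ∈ Finset.range N, (fib (n + 1)).card • F (n + 1) := by
  rw [sum_disc]
  apply Finset.sum_congr rfl
  intro n _
  rw [← Finset.sum_const]
  apply Finset.sum_congr rfl
  intro z hz
  rw [(mem_fib (by omega)).mp hz]

lemma card_disc_succ (N : ℕ) : (disc (N + 1)).card = (disc N).card + (fib (N + 1)).card := by
  rw [disc_succ, Finset.card_disjUnion]

lemma fib_card {n : ℕ} (hn : 1 ≤ n) : ((fib n).card : ℝ) = Gauss.rA n := by
  rw [Circ.rA_card]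
  congr 1
  have : Nat.card {p : ℤ × ℤ // p.1 ^ 2 + p.2 ^ 2 = (n : ℤ)} = Nat.card (fib n : Set (ℤ × ℤ)) := by
    apply Nat.card_congr
    apply Equiv.subtypeEquivRight
    intro z
    rw [Finset.mem_coe, mem_fib hn]
    constructor
    · intro h
      have : ((nm z : ℕ) : ℤ) = n := by rw [nm_castZ]; exact h
      exact_mod_cast this
    · intro h
      rw [← nm_castZ, h]
  rw [this, Nat.card_coe_set_eq, Set.ncard_coe_finset]

lemma fib_bound {κ : ℝ} (hκ : 0 < κ) : ∃ C : ℝ, 0 < C ∧ ∀ n : ℕ, 1 ≤ n → ((fib n).card : ℝ) ≤ C * (n:ℝ) ^ κ := by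
  obtain ⟨C, hC, h⟩ := Pool.Agent.Helper112.divisor_bound κ hκ
  refine ⟨4 * C, by positivity, fun n hn => ?_⟩
  rw [fib_card hn]
  have h1 : Gauss.rA n ≤ 4 * (n.divisors.card : ℝ) := by
    unfold Gauss.rA
    have := Gauss.card_A_le n hn
    exact_mod_cast this
  have := h n hn
  linarith

/-- the number of lattice points in terms of the error term -/
lemma card_disc_eq {n : ℕ} (hn : 1 ≤ n) : ((disc n).card : ℝ) = Real.pi * n + (n:ℝ) ^ (1/4:ℝ) * Gauss.En √(n:ℝ) - 1 := by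
  have hfin : {p : ℤ × ℤ | (p.1 : ℝ) ^ 2 + (p.2 : ℝ) ^ 2 ≤ (n:ℝ)} = ((insert 0 (disc n) : Finset (ℤ × ℤ)) : Set (ℤ × ℤ)) := by
    ext z
    rw [Set.mem_ofPred_eq, ← nm_cast, Finset.mem_coe, Finset.mem_insert, mem_disc]
    constructor
    · intro h
      have h1 : nm z ≤ n := by exact_mod_cast h
      rcases Nat.eq_zero_or_pos (nm z) with h2 | h2
      · left
        have h3 : z.1 ^ 2 + z.2 ^ 2 = 0 := by rw [← nm_castZ, h2]; rfl
        have h4 : z.1 = 0 := by
          have : z.1 ^ 2 = 0 := by nlinarith [sq_nonneg z.1, sq_nonneg z.2]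
          exact pow_eq_zero_iff (n := 2) (by norm_num) |>.1 this
        have h5 : z.2 = 0 := by
          have : z.2 ^ 2 = 0 := by nlinarith [sq_nonneg z.1, sq_nonneg z.2]
          exact pow_eq_zero_iff (n := 2) (by norm_num) |>.1 this
        exact Prod.ext h4 h5
      · right; exact ⟨h2, h1⟩
    · rintro (rfl | h)
      · have : nm 0 = 0 := by simp [nm]
        rw [this]; simp
      · exact_mod_cast h.2
  have hcard : (Nat.card {p : ℤ × ℤ // (p.1 : ℝ) ^ 2 + (p.2 : ℝ) ^ 2 ≤ (n:ℝ)} : ℝ) = (disc n).card + 1 := by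
    have h1 : Nat.card {p : ℤ × ℤ // (p.1 : ℝ) ^ 2 + (p.2 : ℝ) ^ 2 ≤ (n:ℝ)} =
        Nat.card ({p : ℤ × ℤ | (p.1 : ℝ) ^ 2 + (p.2 : ℝ) ^ 2 ≤ (n:ℝ)} : Set (ℤ × ℤ)) := rfl
    have h0 : (0 : ℤ × ℤ) ∉ disc n := by
      rw [mem_disc]
      have : nm 0 = 0 := by simp [nm]
      omega
    rw [h1, hfin, Nat.card_coe_set_eq, Set.ncard_coe_finset, Finset.card_insert_of_notMem h0]
    push_cast; rfl
  have h2 := Circ.En_quad (x := (n:ℝ)) (Nat.cast_nonneg n)
  rw [h2]
  unfold Circ.Cx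
  rw [hcard]
  have hn0 : (0:ℝ) < n := by exact_mod_cast hn
  have h3 : (n:ℝ) ^ (1/4:ℝ) ≠ 0 := (Real.rpow_pos_of_pos hn0 _).ne'
  field_simp
  ring

end Pool.Agent.W2helper83.GZ
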