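import Pool.Agent.W2helper83.GZ.Law

/-! Covariances of the joint law, weighted by a function of the direction. -/

open Filter Topology MeasureTheory
open Pool.Agent.H383
open Pool.Agent.H383.AP
open Pool.Agent.H383.Gen (Bd U Ap)
open Pool.Agent.H383.Gauss Pool.Agent.H383.Circ
open Pool.Agent.H425R3.JL
open Pool.Agent.H469R2.NK
open Pool.Agent.W24.CP
open Pool.Agent.W24.CP.SU (SI SI_ne SI_Av SI_card)
open Finset

namespace Pool.Agent.W2helper83.GZ

variable {k : ℕ}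

/-- the mean over the unit circle -/
noncomputable def angR (g : ℂ → ℝ) : ℝ := (∫ t in (-Real.pi)..Real.pi, g (Complex.exp (t * Complex.I))) / (2 * Real.pi)

lemma ang_ofReal (g : ℂ → ℝ) : ang (fun w => ((g w : ℝ) : ℂ)) = ((angR g : ℝ) : ℂ) := by
  unfold ang angR
  rw [intervalIntegral.integral_ofReal]
  push_cast; rfl

lemma angR_le {g : ℂ → ℝ} {B : ℝ} (hB : ∀ w, |g w| ≤ B) : |angR g| ≤ B := by
  have hpi := Real.pi_pos
  unfold angR
  rw [abs_div, abs_of_pos (by positivity : 0 < 2 * Real.pi), div_le_iff₀ (by positivity)]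
  have h := intervalIntegral.norm_integral_le_of_norm_le_const (a := -Real.pi) (b := Real.pi)
    (f := fun t : ℝ => g (Complex.exp (t * Complex.I))) (C := B) (fun x _ => by rw [Real.norm_eq_abs]; exact hB _)
  rw [Real.norm_eq_abs, abs_of_pos (by linarith : 0 < Real.pi - -Real.pi)] at h
  linarith

lemma cos_meanR (θ : ℝ) (g κ : C(ℂ, ℝ)) :
    Tendsto (fun j => fav (SD j) (fun n => g (dir (zz n)) * Real.cos (2 * Real.pi * (θ * √(nm (zz n) : ℝ)) + κ (dir (zz n))))) atTop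
      (𝓝 (if θ = 0 then angR (fun w => g w * Real.cos (κ w)) else 0)) := by
  have h := cos_mean θ ⟨fun w => ((g w : ℝ) : ℂ), by fun_prop⟩ κ
  have h2 := (Complex.continuous_re.tendsto _).comp h
  have e1 : (if θ = 0 then ang (fun w => (⟨fun w => ((g w : ℝ) : ℂ), by fun_prop⟩ : C(ℂ, ℂ)) w * ((Real.cos (κ w) : ℝ) : ℂ)) else 0).re =
      if θ = 0 then angR (fun w => g w * Real.cos (κ w)) else 0 := by
    split_ifs
    · have e2 : (fun w => (⟨fun w => ((g w : ℝ) : ℂ), by fun_prop⟩ : C(ℂ, ℂ)) w * ((Real.cos (κ w) : ℝ) : ℂ)) =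
          fun w => ((g w * Real.cos (κ w) : ℝ) : ℂ) := by
        funext w; push_cast; rfl
      rw [e2, ang_ofReal, Complex.ofReal_re]
    · rfl
  rw [e1] at h2
  refine h2.congr (fun j => ?_)
  simp only [Function.comp]
  rw [SX.re_cav]
  congr 1; funext n
  simp only [ContinuousMap.coe_mk]
  rw [← Complex.ofReal_mul, Complex.ofReal_re]

/-- the coefficients of the covariance -/
noncomputable def TC (g : ℂ → ℝ) (c : ℤ × ℤ) (m : ℕ) : ℝ :=
  (ag m)^2 / 2 * angR (fun w => g w * Real.cos (2 * Real.pi * (√(m:ℝ) * rho c w)))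

lemma rho_sub (a b : ℤ × ℤ) (w : ℂ) : rho (a - b) w = rho a w - rho b w := by
  unfold rho
  have e1 : ((a - b).1 : ℝ) = a.1 - b.1 := by push_cast [Prod.fst_sub]; ring
  have e2 : ((a - b).2 : ℝ) = a.2 - b.2 := by push_cast [Prod.snd_sub]; ring
  rw [e1, e2]; ring

lemma UC_prod (g : C(ℂ, ℝ)) (a b : ℤ × ℤ) (M : ℕ) :
    Tendsto (fun j => fav (SD j) (fun n => (g (dir (zz n)) * UC M a (zz n)) * UC M b (zz n))) atTop
      (𝓝 (∑ m ∈ Icc 1 (M^2), TC g (a - b) m)) := by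
  have h1 : ∀ j, fav (SD j) (fun n => (g (dir (zz n)) * UC M a (zz n)) * UC M b (zz n)) =
      ∑ m ∈ Icc 1 (M^2), ∑ m' ∈ Icc 1 (M^2), (ag m * ag m' / 2) *
        (fav (SD j) (fun n => g (dir (zz n)) * Real.cos (2 * Real.pi * ((√(m:ℝ) - √(m':ℝ)) * √(nm (zz n) : ℝ)) + (kap m a - kap m' b) (dir (zz n)))) +
         fav (SD j) (fun n => g (dir (zz n)) * Real.cos (2 * Real.pi * ((√(m:ℝ) + √(m':ℝ)) * √(nm (zz n) : ℝ)) + (kap m a + kap m' b) (dir (zz n))))) := by
    intro j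
    have e1 : (fun n => (g (dir (zz n)) * UC M a (zz n)) * UC M b (zz n)) = fun n => ∑ m ∈ Icc 1 (M^2), ∑ m' ∈ Icc 1 (M^2),
        g (dir (zz n)) * ((ag m * Real.cos (2 * Real.pi * (√(m:ℝ) * √(nm (zz n) : ℝ)) + kap m a (dir (zz n)))) *
        (ag m' * Real.cos (2 * Real.pi * (√(m':ℝ) * √(nm (zz n) : ℝ)) + kap m' b (dir (zz n))))) := by
      funext n
      rw [UC_eq, UC_eq, mul_assoc, sum_mul_sum, mul_sum]
      apply sum_congr rfl; intro m _
      rw [mul_sum]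
      apply sum_congr rfl; intro m' _
      simp only [kap, ContinuousMap.coe_mk]
    rw [e1, SX.fav_sum]
    apply sum_congr rfl; intro m _
    rw [SX.fav_sum]
    apply sum_congr rfl; intro m' _
    rw [← fav_add, ← fav_mul]
    congr 1; funext n
    have e2 : 2 * Real.pi * ((√(m:ℝ) - √(m':ℝ)) * √(nm (zz n) : ℝ)) + (kap m a - kap m' b) (dir (zz n)) =
        (2 * Real.pi * (√(m:ℝ) * √(nm (zz n) : ℝ)) + kap m a (dir (zz n))) - (2 * Real.pi * (√(m':ℝ) * √(nm (zz n) : ℝ)) + kap m' b (dir (zz n))) := by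
      rw [ContinuousMap.sub_apply]; ring
    have e3 : 2 * Real.pi * ((√(m:ℝ) + √(m':ℝ)) * √(nm (zz n) : ℝ)) + (kap m a + kap m' b) (dir (zz n)) =
        (2 * Real.pi * (√(m:ℝ) * √(nm (zz n) : ℝ)) + kap m a (dir (zz n))) + (2 * Real.pi * (√(m':ℝ) * √(nm (zz n) : ℝ)) + kap m' b (dir (zz n))) := by
      rw [ContinuousMap.add_apply]; ring
    have e6 : ∀ p r G : ℝ, G * ((ag m * Real.cos p) * (ag m' * Real.cos r)) = (ag m * ag m'/2) * (G * Real.cos (p - r) + G * Real.cos (p + r)) := by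
      intro p r G; rw [Real.cos_sub, Real.cos_add]; ring
    rw [e2, e3]; exact e6 _ _ _
  simp only [h1]
  have hT : ∑ m ∈ Icc 1 (M^2), TC g (a - b) m = ∑ m ∈ Icc 1 (M^2), ∑ m' ∈ Icc 1 (M^2), if m = m' then TC g (a - b) m else 0 := by
    apply sum_congr rfl
    intro m hm
    rw [sum_ite_eq, if_pos hm]
  rw [hT]
  apply tendsto_finsetSum
  intro m hm
  apply tendsto_finsetSum
  intro m' hm'
  rw [mem_Icc] at hm hm'
  have hm0 : (0:ℝ) < m := by exact_mod_cast hm.1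
  have hm0' : (0:ℝ) < m' := by exact_mod_cast hm'.1
  have p1 := Real.sqrt_pos.mpr hm0
  have p2 := Real.sqrt_pos.mpr hm0'
  have h2 := cos_meanR (√(m:ℝ) - √(m':ℝ)) g (kap m a - kap m' b)
  have h3 := cos_meanR (√(m:ℝ) + √(m':ℝ)) g (kap m a + kap m' b)
  rw [if_neg (by positivity)] at h3
  have h4 := (h2.add h3).const_mul (ag m * ag m' / 2)
  have hiff : (√(m:ℝ) - √(m':ℝ) = 0) ↔ m = m' := by
    rw [sub_eq_zero, Real.sqrt_inj hm0.le hm0'.le]
    exact_mod_cast Iff.rfl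
  have e5 : (ag m * ag m' / 2) * ((if √(m:ℝ) - √(m':ℝ) = 0 then angR (fun w => g w * Real.cos ((kap m a - kap m' b) w)) else 0) + 0) =
      if m = m' then TC g (a - b) m else 0 := by
    rw [if_congr hiff rfl rfl]
    by_cases h : m = m'
    · subst h
      rw [if_pos rfl, if_pos rfl, add_zero]
      unfold TC
      have e7 : (fun w => g w * Real.cos ((kap m a - kap m b) w)) = fun w => g w * Real.cos (2 * Real.pi * (√(m:ℝ) * rho (a - b) w)) := by
        funext w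
        rw [ContinuousMap.sub_apply]
        simp only [kap, ContinuousMap.coe_mk]
        rw [rho_sub, ← Real.cos_neg]
        congr 2
        ring
      rw [e7]
      ring
    · rw [if_neg h, if_neg h]; ring
  rw [e5] at h4
  exact h4

lemma TC_summable {g : ℂ → ℝ} {B : ℝ} (hB : ∀ w, |g w| ≤ B) (c : ℤ × ℤ) : Summable (TC g c) := by
  have hB0 : 0 ≤ B := (abs_nonneg _).trans (hB 0)
  apply Summable.of_norm_bounded (ag_sq_summable.mul_right (B / 2))
  intro m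
  unfold TC
  rw [Real.norm_eq_abs, abs_mul, abs_of_nonneg (by positivity)]
  have h1 : |angR (fun w => g w * Real.cos (2 * Real.pi * (√(m:ℝ) * rho c w)))| ≤ B := by
    apply angR_le
    intro w
    rw [abs_mul]
    calc |g w| * |Real.cos (2 * Real.pi * (√(m:ℝ) * rho c w))| ≤ B * 1 :=
          mul_le_mul (hB w) (Real.abs_cos_le_one _) (abs_nonneg _) hB0
      _ = B := mul_one _
  calc (ag m)^2 / 2 * |angR (fun w => g w * Real.cos (2 * Real.pi * (√(m:ℝ) * rho c w)))| ≤ (ag m)^2 / 2 * B := by gcongr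
    _ = _ := by ring

lemma TC_lim {g : ℂ → ℝ} {B : ℝ} (hB : ∀ w, |g w| ≤ B) (c : ℤ × ℤ) :
    Tendsto (fun M : ℕ => ∑ m ∈ Icc 1 (M^2), TC g c m) atTop (𝓝 (∑' m, TC g c m)) := by
  have h1 := (TC_summable hB c).hasSum.tendsto_sum_nat
  have h2 : Tendsto (fun M : ℕ => M^2 + 1) atTop atTop :=
    tendsto_atTop_mono (fun M => by simp only [id]; nlinarith) tendsto_id
  refine (h1.comp h2).congr (fun M => ?_)
  simp only [Function.comp]
  have h3 : TC g c 0 = 0 := by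
    unfold TC; rw [ag_zero]; ring
  rw [range_eq_Ico, sum_eq_sum_Ico_succ_bot (by omega), h3, zero_add]
  apply sum_congr _ (fun _ _ => rfl)
  ext n; simp only [mem_Icc, mem_Ico]; omega

/-- clamping to the unit disc -/
noncomputable def clampC (w : ℂ) : ℂ := w / ((max 1 ‖w‖ : ℝ) : ℂ)

lemma clampC_cont : Continuous clampC := by
  unfold clampC
  apply Continuous.div continuous_id (by fun_prop)
  intro w
  have : (0:ℝ) < max 1 ‖w‖ := lt_of_lt_of_le one_pos (le_max_left _ _)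
  exact_mod_cast this.ne'

lemma clampC_le (w : ℂ) : ‖clampC w‖ ≤ 1 := by
  unfold clampC
  have h1 : (0:ℝ) < max 1 ‖w‖ := lt_of_lt_of_le one_pos (le_max_left _ _)
  rw [norm_div, Complex.norm_real, Real.norm_eq_abs, abs_of_pos h1, div_le_one h1]
  exact le_max_right _ _

lemma clampC_eq {w : ℂ} (hw : ‖w‖ ≤ 1) : clampC w = w := by
  unfold clampC
  rw [max_eq_left hw]; simp

/-- the covariances for a bounded weight -/
theorem cov_bdd (a : Fin k → ℤ × ℤ) {μ : Measure (ℂ × (Fin k → ℝ))}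
    (hlaw : ∀ f : ℂ × (Fin k → ℝ) → ℝ, Continuous f → (∃ C, ∀ x, |f x| ≤ C * (1 + ∑ i, (x.2 i)^2)) →
        Tendsto (fun j => fav (SD j) (fun n => f (dir (zz n), fun i => En √(nm (zz n - a i) : ℝ)))) atTop
          (𝓝 (∫ x, f x ∂μ)))
    (g : C(ℂ, ℝ)) {B : ℝ} (hB : ∀ w, |g w| ≤ B) (i j : Fin k) :
    ∫ x, g x.1 * x.2 i * x.2 j ∂μ = ∑' m, TC g (a i - a j) m := by
  have hB0 : 0 ≤ B := (abs_nonneg _).trans (hB 0)
  have hs : ∀ x : ℂ × (Fin k → ℝ), ∀ i, (x.2 i)^2 ≤ ∑ i, (x.2 i)^2 := fun x i =>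
    single_le_sum (f := fun i => (x.2 i)^2) (fun _ _ => sq_nonneg _) (mem_univ i)
  have hX := hlaw (fun x => (g x.1 * x.2 i)^2) (by fun_prop) ⟨B^2, fun x => by
    rw [abs_of_nonneg (sq_nonneg _), mul_pow]
    have h1 : (g x.1)^2 ≤ B^2 := by rw [← sq_abs]; exact pow_le_pow_left₀ (abs_nonneg _) (hB _) 2
    have h2 := hs x i
    have h3 := sq_nonneg (x.2 i)
    calc (g x.1)^2 * (x.2 i)^2 ≤ B^2 * (x.2 i)^2 := mul_le_mul_of_nonneg_right h1 h3
      _ ≤ B^2 * (1 + ∑ i, (x.2 i)^2) := mul_le_mul_of_nonneg_left (by linarith) (sq_nonneg _)⟩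
  have hY := hlaw (fun x => (x.2 j)^2) (by fun_prop) ⟨1, fun x => by
    rw [abs_of_nonneg (sq_nonneg _)]
    linarith [hs x j]⟩
  have hL := hlaw (fun x => g x.1 * x.2 i * x.2 j) (by fun_prop) ⟨B, fun x => by
    rw [abs_mul, abs_mul]
    have h1 := hs x i
    have h2 := hs x j
    have h3 : |x.2 i| * |x.2 j| ≤ 1 + ∑ i, (x.2 i)^2 := by
      nlinarith [sq_nonneg (|x.2 i| - |x.2 j|), sq_abs (x.2 i), sq_abs (x.2 j)]
    calc |g x.1| * |x.2 i| * |x.2 j| = |g x.1| * (|x.2 i| * |x.2 j|) := by ring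
      _ ≤ B * (1 + ∑ i, (x.2 i)^2) := mul_le_mul (hB _) h3 (by positivity) hB0⟩
  simp only at hX hY hL
  have hxa : ∀ η : ℝ, 0 < η → ∃ M0 : ℕ, ∀ M, M0 ≤ M → ∃ j0 : ℕ, ∀ j, j0 ≤ j →
      fav (SD j) (fun n => (g (dir (zz n)) * En √(nm (zz n - a i) : ℝ) - g (dir (zz n)) * UC M (a i) (zz n))^2) ≤ η := by
    intro η hη
    obtain ⟨M0, h⟩ := ctr_fav (a i) (η := η / (B^2 + 1)) (by positivity)
    refine ⟨M0, fun M hM => ?_⟩
    obtain ⟨j0, h2⟩ := h M hM
    refine ⟨j0, fun j hj => ?_⟩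
    have h3 := h2 j hj
    have h4 : ∀ n, (g (dir (zz n)) * En √(nm (zz n - a i) : ℝ) - g (dir (zz n)) * UC M (a i) (zz n))^2 ≤
        B^2 * (En √(nm (zz n - a i) : ℝ) - UC M (a i) (zz n))^2 := by
      intro n
      rw [← mul_sub, mul_pow]
      apply mul_le_mul_of_nonneg_right _ (sq_nonneg _)
      rw [← sq_abs]; exact pow_le_pow_left₀ (abs_nonneg _) (hB _) 2
    refine (fav_mono h4).trans ?_
    rw [fav_mul]
    calc B^2 * fav (SD j) (fun n => (En √(nm (zz n - a i) : ℝ) - UC M (a i) (zz n))^2) ≤ B^2 * (η / (B^2 + 1)) :=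
          mul_le_mul_of_nonneg_left h3 (sq_nonneg _)
      _ ≤ η := by
          rw [mul_div_assoc', div_le_iff₀ (by positivity)]
          nlinarith [sq_nonneg B]
  have key := SX.prod_lim (S := SD) (x := fun n => g (dir (zz n)) * En √(nm (zz n - a i) : ℝ)) (y := fun n => En √(nm (zz n - a j) : ℝ))
    (u := fun M n => g (dir (zz n)) * UC M (a i) (zz n)) (v := fun M n => UC M (a j) (zz n)) hxa
    (fun η hη => ctr_fav (a j) hη) hX hY hL (fun M => UC_prod g (a i) (a j) M)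
  exact tendsto_nhds_unique key (TC_lim hB (a i - a j))

/-- the covariances -/
theorem cov (a : Fin k → ℤ × ℤ) {μ : Measure (ℂ × (Fin k → ℝ))} {ν : Measure ℝ} [IsProbabilityMeasure ν]
    (hlaw : ∀ f : ℂ × (Fin k → ℝ) → ℝ, Continuous f → (∃ C, ∀ x, |f x| ≤ C * (1 + ∑ i, (x.2 i)^2)) →
        Tendsto (fun j => fav (SD j) (fun n => f (dir (zz n), fun i => En √(nm (zz n - a i) : ℝ)))) atTop
          (𝓝 (∫ x, f x ∂μ)))
    (hmar : ∀ i, μ.map (fun x => (x.1, x.2 i)) = circ.prod ν)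
    {g : ℂ → ℝ} (hg : Continuous g) (i j : Fin k) :
    Summable (TC g (a i - a j)) ∧ ∫ x, g x.1 * x.2 i * x.2 j ∂μ = ∑' m, TC g (a i - a j) m := by
  set G : C(ℂ, ℝ) := ⟨fun w => g (clampC w), hg.comp clampC_cont⟩ with hG
  obtain ⟨B, hB⟩ := (isCompact_closedBall (0:ℂ) 1).exists_bound_of_continuousOn hg.continuousOn
  have hGB : ∀ w, |G w| ≤ B := by
    intro w
    rw [← Real.norm_eq_abs]
    exact hB _ (by rw [mem_closedBall_zero_iff]; exact clampC_le w)
  have hTC : TC g (a i - a j) = TC G (a i - a j) := by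
    funext m
    unfold TC angR
    congr 2
    apply intervalIntegral.integral_congr
    intro t _
    simp only [hG, ContinuousMap.coe_mk]
    rw [clampC_eq (Complex.norm_exp_ofReal_mul_I t).le]
  have hae : ∀ᵐ x ∂μ, ‖x.1‖ = 1 := by
    have hm : Measurable (fun x : ℂ × (Fin k → ℝ) => (x.1, x.2 i)) := by fun_prop
    have h1 : ∀ᵐ y ∂(μ.map (fun x : ℂ × (Fin k → ℝ) => (x.1, x.2 i))), ‖y.1‖ = 1 := by
      rw [hmar i]
      exact Measure.quasiMeasurePreserving_fst.ae circ_norm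
    exact ae_of_ae_map hm.aemeasurable h1
  have e1 : ∫ x, g x.1 * x.2 i * x.2 j ∂μ = ∫ x, G x.1 * x.2 i * x.2 j ∂μ := by
    apply integral_congr_ae
    filter_upwards [hae] with x hx
    simp only [hG, ContinuousMap.coe_mk]
    rw [clampC_eq hx.le]
  rw [hTC, e1]
  exact ⟨TC_summable hGB _, cov_bdd a hlaw G hGB i j⟩

end Pool.Agent.W2helper83.GZ
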