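import Pool.Agent.W2helper83.GZ.MS

/-! Lattice centres: the mean-square approximation of the error term of a circle about a lattice point which
passes through a second lattice point. -/

open Filter Topology MeasureTheory
open Pool.Agent.H383
open Pool.Agent.H383.AP
open Pool.Agent.H383.Gen (Bd U Ap)
open Pool.Agent.H383.Gauss Pool.Agent.H383.Circ
open Pool.Agent.H425R3.JL
open Pool.Agent.H469R2.NK
open Pool.Agent.H452R2.Win Pool.Agent.H452R2.Om
open Pool.Agent.W24.CP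
open Finset

namespace Pool.Agent.W2helper83.GZ

/-- the sets of indices -/
noncomputable def SD (j : ℕ) : Finset ℕ := (disc (j + 1)).map (Denumerable.eqv (ℤ × ℤ)).toEmbedding

lemma zz_eqv (z : ℤ × ℤ) : zz ((Denumerable.eqv (ℤ × ℤ)) z) = z := by
  unfold zz; rw [Equiv.symm_apply_apply]

lemma fav_SD (F : ℤ × ℤ → ℝ) (j : ℕ) :
    fav (SD j) (fun n => F (zz n)) = (∑ z ∈ disc (j + 1), F z) / (disc (j + 1)).card := by
  unfold fav SD
  rw [Finset.sum_map, Finset.card_map]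
  congr 1
  apply Finset.sum_congr rfl
  intro z _
  rw [Equiv.coe_toEmbedding, zz_eqv]

lemma cav_SD (F : ℤ × ℤ → ℂ) (j : ℕ) :
    cav (SD j) (fun n => F (zz n)) = (∑ z ∈ disc (j + 1), F z) / (disc (j + 1)).card := by
  unfold cav SD
  rw [Finset.sum_map, Finset.card_map]
  congr 1
  apply Finset.sum_congr rfl
  intro z _
  rw [Equiv.coe_toEmbedding, zz_eqv]

lemma disc_ne (j : ℕ) : (disc (j + 1)).Nonempty := by
  refine ⟨(1, 0), ?_⟩
  rw [mem_disc]
  have : nm (1, 0) = 1 := by simp [nm]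
  omega

lemma SD_ne (j : ℕ) : (SD j).Nonempty := by
  unfold SD
  rw [Finset.map_nonempty]
  exact disc_ne j

lemma card_pos (j : ℕ) : (0:ℝ) < (disc (j + 1)).card := by
  exact_mod_cast Finset.card_pos.mpr (disc_ne j)

lemma succ_lim {F : ℕ → ℂ} {L : ℂ} (h : Tendsto F atTop (𝓝 L)) : Tendsto (fun j => F (j + 1)) atTop (𝓝 L) :=
  (tendsto_add_atTop_iff_nat 1).mpr h

lemma ratio_lim {F : ℕ → ℂ} {L : ℂ} (h : Tendsto (fun N : ℕ => F N / N) atTop (𝓝 (Real.pi * L))) :
    Tendsto (fun j : ℕ => F (j + 1) / ((disc (j + 1)).card : ℂ)) atTop (𝓝 L) := by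
  have hpi : (Real.pi : ℂ) ≠ 0 := by exact_mod_cast Real.pi_ne_zero
  have h2 : Tendsto (fun N : ℕ => (((disc N).card : ℂ)) / N) atTop (𝓝 (Real.pi : ℂ)) := by
    have := (Complex.continuous_ofReal.tendsto _).comp card_disc
    refine this.congr (fun N => ?_)
    simp only [Function.comp]
    push_cast; rfl
  have h3 := h.div h2 hpi
  rw [mul_div_cancel_left₀ _ hpi] at h3
  refine (succ_lim h3).congr (fun j => ?_)
  simp only [Pi.div_apply]
  have h4 : ((j + 1 : ℕ) : ℂ) ≠ 0 := by exact_mod_cast (Nat.succ_ne_zero j)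
  have h5 : ((disc (j + 1)).card : ℂ) ≠ 0 := by exact_mod_cast (Finset.card_pos.mpr (disc_ne j)).ne'
  field_simp

theorem SD_Av : AvS SD := by
  intro p
  have e1 : ∀ j, cav (SD j) (chG p) = (∑ z ∈ disc (j + 1), e (p.1 * √(nm z : ℝ)) * p.2 (dir z)) / ((disc (j + 1)).card : ℂ) :=
    fun j => cav_SD (fun z => e (p.1 * √(nm z : ℝ)) * p.2 (dir z)) j
  simp only [e1]
  unfold mcG
  split_ifs with h
  · have h1 := dir_equi p.2
    have h2 := ratio_lim (F := fun N => ∑ z ∈ disc N, p.2 (dir z)) h1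
    refine h2.congr (fun j => ?_)
    congr 1
    apply Finset.sum_congr rfl
    intro z _
    rw [h, zero_mul]
    unfold e; simp
  · have h1 := osc h p.2
    have h2 := ratio_lim (F := fun N => ∑ z ∈ disc N, e (p.1 * √(nm z : ℝ)) * p.2 (dir z)) (L := 0) (by rw [mul_zero]; exact h1)
    exact h2

/-- the inner product of a lattice point with a complex number -/
def rho (a : ℤ × ℤ) (w : ℂ) : ℝ := a.1 * w.re + a.2 * w.im

lemma rho_cont (a : ℤ × ℤ) : Continuous (rho a) := by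
  unfold rho; fun_prop

/-- the truncated series at the circle about `a` through `z` -/
noncomputable def UC (M : ℕ) (a z : ℤ × ℤ) : ℝ := UG (√(nm z : ℝ) - rho a (dir z)) M

/-- the exponential of a real function -/
noncomputable def EX (κ : C(ℂ, ℝ)) : C(ℂ, ℂ) := ⟨fun w => Complex.exp ((κ w : ℝ) * Complex.I), by fun_prop⟩

lemma cos_chG (θ : ℝ) (G : C(ℂ, ℂ)) (κ : C(ℂ, ℝ)) :
    (fun n => G (dir (zz n)) * ((Real.cos (2 * Real.pi * (θ * √(nm (zz n) : ℝ)) + κ (dir (zz n))) : ℝ) : ℂ)) =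
      (1/2 : ℂ) • chG (θ, G * EX κ) + (1/2 : ℂ) • chG (-θ, G * EX (-κ)) := by
  funext n
  simp only [Pi.add_apply, Pi.smul_apply, smul_eq_mul, chG, ContinuousMap.mul_apply, EX, ContinuousMap.coe_mk,
    ContinuousMap.neg_apply]
  rw [Complex.ofReal_cos, Complex.cos]
  unfold e
  have e1 : Complex.exp (((2 * Real.pi * (θ * √(nm (zz n) : ℝ)) + κ (dir (zz n)) : ℝ) : ℂ) * Complex.I) =
      Complex.exp (((2 * Real.pi * (θ * √(nm (zz n) : ℝ)) : ℝ) : ℂ) * Complex.I) * Complex.exp ((κ (dir (zz n)) : ℝ) * Complex.I) := by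
    rw [← Complex.exp_add]; congr 1; push_cast; ring
  have e2 : Complex.exp (-((2 * Real.pi * (θ * √(nm (zz n) : ℝ)) + κ (dir (zz n)) : ℝ) : ℂ) * Complex.I) =
      Complex.exp (((2 * Real.pi * (-θ * √(nm (zz n) : ℝ)) : ℝ) : ℂ) * Complex.I) * Complex.exp (((-κ (dir (zz n)) : ℝ) : ℂ) * Complex.I) := by
    rw [← Complex.exp_add]; congr 1; push_cast; ring
  rw [e1, e2]
  ring

lemma cos_TS (θ : ℝ) (G : C(ℂ, ℂ)) (κ : C(ℂ, ℝ)) :
    (fun n => G (dir (zz n)) * ((Real.cos (2 * Real.pi * (θ * √(nm (zz n) : ℝ)) + κ (dir (zz n))) : ℝ) : ℂ)) ∈ TS := by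
  rw [cos_chG]
  exact TS.add_mem (TS.smul_mem _ (TS_chr _)) (TS.smul_mem _ (TS_chr _))

lemma ang_add {g h : ℂ → ℂ} (hg : Continuous g) (hh : Continuous h) : ang (fun w => g w + h w) = ang g + ang h := by
  unfold ang
  rw [intervalIntegral.integral_add, add_div]
  · apply Continuous.intervalIntegrable; fun_prop
  · apply Continuous.intervalIntegrable; fun_prop

lemma ang_mul (c : ℂ) (g : ℂ → ℂ) : ang (fun w => c * g w) = c * ang g := by
  unfold ang
  rw [intervalIntegral.integral_const_mul, mul_div_assoc]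

lemma cos_mean (θ : ℝ) (G : C(ℂ, ℂ)) (κ : C(ℂ, ℝ)) :
    Tendsto (fun j => cav (SD j) (fun n => G (dir (zz n)) * ((Real.cos (2 * Real.pi * (θ * √(nm (zz n) : ℝ)) + κ (dir (zz n))) : ℝ) : ℂ))) atTop
      (𝓝 (if θ = 0 then ang (fun w => G w * ((Real.cos (κ w) : ℝ) : ℂ)) else 0)) := by
  have h1 := ((SD_Av (θ, G * EX κ)).const_mul (1/2 : ℂ)).add ((SD_Av (-θ, G * EX (-κ))).const_mul (1/2 : ℂ))
  have e1 : (1/2 : ℂ) * mcG (θ, G * EX κ) + (1/2 : ℂ) * mcG (-θ, G * EX (-κ)) =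
      (if θ = 0 then ang (fun w => G w * ((Real.cos (κ w) : ℝ) : ℂ)) else 0) := by
    unfold mcG
    by_cases h : θ = 0
    · rw [if_pos h, if_pos h, if_pos (by rw [h, neg_zero])]
      have e2 : (fun w => G w * ((Real.cos (κ w) : ℝ) : ℂ)) = fun w => (1/2 : ℂ) * (G * EX κ) w + (1/2 : ℂ) * (G * EX (-κ)) w := by
        funext w
        simp only [ContinuousMap.mul_apply, EX, ContinuousMap.coe_mk, ContinuousMap.neg_apply]
        rw [Complex.ofReal_cos, Complex.cos]
        push_cast; ring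
      rw [e2, ang_add (by fun_prop) (by fun_prop), ang_mul, ang_mul]
      rfl
    · rw [if_neg h, if_neg h, if_neg (by simpa using h)]
      ring
  rw [e1] at h1
  refine h1.congr (fun j => ?_)
  rw [cos_chG, cav_add, cav_smul, cav_smul, smul_eq_mul, smul_eq_mul]

lemma UC_eq (M : ℕ) (a z : ℤ × ℤ) : UC M a z = ∑ m ∈ Icc 1 (M^2), ag m *
    Real.cos (2 * Real.pi * (√(m:ℝ) * √(nm z : ℝ)) + (-(2 * Real.pi * √(m:ℝ) * rho a (dir z)) - 3 * Real.pi/4)) := by
  unfold UC UG U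
  apply sum_congr rfl
  intro m _
  congr 2
  ring

/-- the phase -/
noncomputable def kap (m : ℕ) (a : ℤ × ℤ) : C(ℂ, ℝ) :=
  ⟨fun w => -(2 * Real.pi * √(m:ℝ) * rho a w) - 3 * Real.pi/4, by
    have := rho_cont a
    fun_prop⟩

lemma UC_TS (M : ℕ) (a : ℤ × ℤ) : (fun n => ((UC M a (zz n) : ℝ) : ℂ)) ∈ TS := by
  have e1 : (fun n => ((UC M a (zz n) : ℝ) : ℂ)) = ∑ m ∈ Icc 1 (M^2), ((ag m : ℝ) : ℂ) •
      (fun n => (1 : C(ℂ, ℂ)) (dir (zz n)) * ((Real.cos (2 * Real.pi * (√(m:ℝ) * √(nm (zz n) : ℝ)) + (kap m a) (dir (zz n))) : ℝ) : ℂ)) := by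
    funext n
    rw [UC_eq, Finset.sum_apply]
    push_cast
    apply sum_congr rfl
    intro m _
    simp only [Pi.smul_apply, smul_eq_mul, kap, ContinuousMap.coe_mk]
    push_cast
    rw [Pi.one_apply, one_mul]
  rw [e1]
  exact TS.sum_mem fun m _ => TS.smul_mem _ (cos_TS _ _ _)

lemma rie0 {Φ : ℤ × ℤ → ℝ} {B : ℝ} (hB : ∀ z, |Φ z| ≤ B)
    (h : ∀ y : ℝ × ℝ, y ≠ 0 → Tendsto (fun N : ℕ => Φ (pt N y 0)) atTop (𝓝 0)) :
    Tendsto (fun N : ℕ => (∑ z ∈ disc N, Φ z) / N) atTop (𝓝 0) := by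
  have h1 := riemann' (Φ := fun _ z => ((Φ z : ℝ) : ℂ)) (B := B) (fun _ z => by
    rw [Complex.norm_real, Real.norm_eq_abs]; exact hB z) (Ψ := fun _ => 0) (by
    filter_upwards [ae_good] with y hy
    have := (Complex.continuous_ofReal.tendsto _).comp (h y hy.1)
    rw [Complex.ofReal_zero] at this
    exact this)
  simp only [ite_self, integral_zero] at h1
  have h2 := (Complex.continuous_re.tendsto _).comp h1
  rw [Complex.zero_re] at h2
  refine h2.congr (fun N => ?_)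
  simp only [Function.comp]
  rw [← Complex.ofReal_natCast, ← Complex.ofReal_sum, ← Complex.ofReal_div, Complex.ofReal_re]

lemma nm_shift {N : ℕ} {a z : ℤ × ℤ} (ha : nm a ≤ N) (hz : nm z ≤ N) : nm (z - a) ≤ 4 * N := by
  have h1 : ((nm (z - a) : ℕ) : ℤ) ≤ ((4 * N : ℕ) : ℤ) := by
    have e1 := nm_castZ (z - a)
    have e2 := nm_castZ a
    have e3 := nm_castZ z
    have h2 : ((nm a : ℕ) : ℤ) ≤ N := by exact_mod_cast ha
    have h3 : ((nm z : ℕ) : ℤ) ≤ N := by exact_mod_cast hz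
    rw [e2] at h2
    rw [e3] at h3
    rw [e1]
    push_cast
    have : (z - a).1 = z.1 - a.1 := rfl
    have h5 : (z - a).2 = z.2 - a.2 := rfl
    rw [this, h5]
    nlinarith [sq_nonneg (z.1 + a.1), sq_nonneg (z.2 + a.2)]
  exact_mod_cast h1

lemma pt_sub (N : ℕ) (y : ℝ × ℝ) (a : ℤ × ℤ) : pt N y 0 - a = pt N y (-a) := by
  unfold pt
  rw [add_zero, sub_eq_add_neg]

lemma UG_bound : ∃ C : ℝ, 0 < C ∧ ∀ R M, |UG R M| ≤ C * (M:ℝ)^2 := by
  obtain ⟨C, hC, h⟩ := SM.U_bound ag_Bdw.Bd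
  exact ⟨C, hC, fun R M => h _ R M⟩

/-- the mean square about a lattice centre -/
theorem ctr_ms (a : ℤ × ℤ) {η : ℝ} (hη : 0 < η) : ∃ M0 : ℕ, ∀ M : ℕ, M0 ≤ M → ∃ N0 : ℕ, ∀ N : ℕ, N0 ≤ N →
      ∑ z ∈ disc N, (En √(nm (z - a) : ℝ) - UC M a z)^2 ≤ η * (disc N).card := by
  obtain ⟨M0, hM0⟩ := disc_ms (η := η/64) (by positivity)
  refine ⟨M0, fun M hM => ?_⟩
  obtain ⟨N0, hN0⟩ := hM0 M hM
  obtain ⟨K, hK, hlip⟩ := U_lip ag_Bdw.Bd (3 * Real.pi/4)
  obtain ⟨CU, hCU, hUb⟩ := UG_bound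
  set c0 : ℝ := (En √((nm 0 : ℕ) : ℝ) - UG √((nm 0 : ℕ) : ℝ) M)^2 with hc0
  -- the shift
  have hsh : Tendsto (fun N : ℕ => (∑ z ∈ disc N, (UG √(nm (z - a) : ℝ) M - UC M a z)^2) / N) atTop (𝓝 0) := by
    apply rie0 (B := (2 * (CU * (M:ℝ)^2))^2)
    · intro z
      rw [abs_of_nonneg (sq_nonneg _), ← sq_abs]
      apply pow_le_pow_left₀ (abs_nonneg _)
      refine (abs_sub _ _).trans ?_
      have h1 := hUb √(nm (z - a) : ℝ) M
      have h2 := hUb (√(nm z : ℝ) - rho a (dir z)) M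
      unfold UC
      linarith
    · intro y hy
      have h1 := rad_lim hy (-a)
      have h2 : Tendsto (fun N : ℕ => rho a (dir (pt N y 0))) atTop (𝓝 (rho a (dr y))) :=
        ((rho_cont a).tendsto _).comp (dir_lim hy 0)
      have h3 := h1.add h2
      have e1 : ((-a).1 : ℝ) * (dr y).re + ((-a).2 : ℝ) * (dr y).im + rho a (dr y) = 0 := by
        unfold rho
        have e2 : ((-a).1 : ℝ) = -(a.1 : ℝ) := by simp
        have e3 : ((-a).2 : ℝ) = -(a.2 : ℝ) := by simp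
        rw [e2, e3]; ring
      rw [e1] at h3
      have h4 := (h3.abs.const_mul (K * (M:ℝ)^2)).pow 2
      rw [abs_zero, mul_zero, zero_pow (by norm_num)] at h4
      apply squeeze_zero (fun N => sq_nonneg _) _ h4
      intro N
      rw [← sq_abs, pt_sub]
      apply pow_le_pow_left₀ (abs_nonneg _)
      unfold UC UG
      refine (hlip M _ _).trans (le_of_eq ?_)
      congr 2
      ring
  have ev1 := hsh.eventually (gt_mem_nhds (show (0:ℝ) < η/4 by positivity))
  have hpi3 := Real.pi_gt_three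
  have hpi4 := Real.pi_lt_four
  have ev2 : ∀ᶠ N : ℕ in Filter.atTop, (2:ℝ) < ((disc N).card : ℝ) / N := card_disc.eventually_const_lt (by linarith)
  have ev3 : ∀ᶠ N : ℕ in Filter.atTop, ((disc N).card : ℝ) / N < 4 := card_disc.eventually_lt_const (by linarith)
  have ev4 : ∀ᶠ N : ℕ in Filter.atTop, c0 / (η/4) ≤ (N:ℝ) := tendsto_natCast_atTop_atTop.eventually_ge_atTop _
  obtain ⟨N1, hN1⟩ := Filter.eventually_atTop.mp (ev1.and (ev2.and (ev3.and ev4)))
  refine ⟨max (max N1 N0) (max (nm a) 1), fun N hN => ?_⟩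
  have hNN1 : N1 ≤ N := le_trans (le_trans (le_max_left _ _) (le_max_left _ _)) hN
  have hNN0 : N0 ≤ N := le_trans (le_trans (le_max_right _ _) (le_max_left _ _)) hN
  have hNa : nm a ≤ N := le_trans (le_trans (le_max_left _ _) (le_max_right _ _)) hN
  have hNone : 1 ≤ N := le_trans (le_trans (le_max_right _ _) (le_max_right _ _)) hN
  obtain ⟨g1, g2, -, g4⟩ := hN1 N hNN1
  obtain ⟨-, -, g3, -⟩ := hN1 (4 * N) (by omega)
  have hNpos : (0:ℝ) < N := by exact_mod_cast hNone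
  rw [div_lt_iff₀ hNpos] at g1
  rw [lt_div_iff₀ hNpos] at g2
  rw [div_lt_iff₀ (by exact_mod_cast (by omega : 0 < 4 * N))] at g3
  rw [div_le_iff₀ (by positivity)] at g4
  push_cast at g3
  have k1 := hN0 (4 * N) (by omega)
  -- the translated sum
  have h1 : ∑ z ∈ disc N, (En √(nm (z - a) : ℝ) - UG √(nm (z - a) : ℝ) M)^2 ≤ η/64 * (16 * N) + c0 := by
    set f : ℤ × ℤ → ℝ := fun z => (En √(nm z : ℝ) - UG √(nm z : ℝ) M)^2 with hf
    have e1 : ∑ z ∈ disc N, (En √(nm (z - a) : ℝ) - UG √(nm (z - a) : ℝ) M)^2 = ∑ z ∈ (disc N).image (fun z => z - a), f z := by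
      rw [sum_image]
      intro x _ y _ hxy
      exact sub_left_injective hxy
    rw [e1]
    calc ∑ z ∈ (disc N).image (fun z => z - a), f z ≤ ∑ z ∈ insert 0 (disc (4 * N)), f z := by
          apply sum_le_sum_of_subset_of_nonneg
          · intro w hw
            rw [mem_image] at hw
            obtain ⟨z, hz, rfl⟩ := hw
            rw [mem_disc] at hz
            rw [mem_insert, mem_disc]
            by_cases h : z - a = 0
            · left; exact h
            · right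
              refine ⟨?_, nm_shift hNa hz.2⟩
              by_contra hcon
              have h3 : nm (z - a) = 0 := by omega
              apply h
              have h4 : (z - a).1 ^ 2 + (z - a).2 ^ 2 = 0 := by rw [← nm_castZ, h3]; rfl
              have h5 : (z - a).1 = 0 := by
                have : (z - a).1 ^ 2 = 0 := by nlinarith [sq_nonneg (z - a).1, sq_nonneg (z - a).2]
                exact pow_eq_zero_iff (n := 2) (by norm_num) |>.1 this
              have h6 : (z - a).2 = 0 := by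
                have : (z - a).2 ^ 2 = 0 := by nlinarith [sq_nonneg (z - a).1, sq_nonneg (z - a).2]
                exact pow_eq_zero_iff (n := 2) (by norm_num) |>.1 this
              exact Prod.ext h5 h6
          · intro _ _ _; exact sq_nonneg _
      _ ≤ ∑ z ∈ disc (4 * N), f z + c0 := by
          have h0 : (0 : ℤ × ℤ) ∉ disc (4 * N) := by
            rw [mem_disc]
            have : nm 0 = 0 := by simp [nm]
            omega
          rw [sum_insert h0, hc0]
          linarith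
      _ ≤ η/64 * (16 * N) + c0 := by
          have h2 : η/64 * ((disc (4 * N)).card : ℝ) ≤ η/64 * (16 * N) := by
            apply mul_le_mul_of_nonneg_left _ (by positivity)
            linarith
          linarith
  calc ∑ z ∈ disc N, (En √(nm (z - a) : ℝ) - UC M a z)^2 ≤
        ∑ z ∈ disc N, (2 * (En √(nm (z - a) : ℝ) - UG √(nm (z - a) : ℝ) M)^2 + 2 * (UG √(nm (z - a) : ℝ) M - UC M a z)^2) := by
        apply sum_le_sum; intro z _
        set x := En √(nm (z - a) : ℝ) - UG √(nm (z - a) : ℝ) M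
        set y := UG √(nm (z - a) : ℝ) M - UC M a z
        have e1 : En √(nm (z - a) : ℝ) - UC M a z = x + y := by ring
        rw [e1]
        nlinarith [sq_nonneg (x - y)]
    _ = 2 * ∑ z ∈ disc N, (En √(nm (z - a) : ℝ) - UG √(nm (z - a) : ℝ) M)^2 +
          2 * ∑ z ∈ disc N, (UG √(nm (z - a) : ℝ) M - UC M a z)^2 := by
        rw [sum_add_distrib, mul_sum, mul_sum]
    _ ≤ 2 * (η/64 * (16 * N) + c0) + 2 * (η/4 * N) := by linarith
    _ ≤ η * (2 * N) := by nlinarith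
    _ ≤ η * (disc N).card := by
        apply mul_le_mul_of_nonneg_left _ hη.le
        exact g2.le

end Pool.Agent.W2helper83.GZ
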