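import Pool.Agent.W2helper83.GZ.Disc

/-! Equidistribution of the directions of the Gaussian integers, with oscillating radial factors. -/

open Filter Topology MeasureTheory
open Pool.Agent.H383.AP
open Pool.Agent.H425R3.JL
open Pool.Agent.H469R2.NK

namespace Pool.Agent.W2helper83.GZ

/-- the direction of a point of the plane -/
noncomputable def dr (y : ℝ × ℝ) : ℂ := ((y.1 : ℂ) + (y.2 : ℂ) * Complex.I) / ((√(y.1 ^ 2 + y.2 ^ 2) : ℝ) : ℂ)

/-- the lattice point near `√N y`, translated by `c` -/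
noncomputable def pt (N : ℕ) (y : ℝ × ℝ) (c : ℤ × ℤ) : ℤ × ℤ := fl (√(N:ℝ) • y) + c

lemma tendsto_sqrtN : Tendsto (fun N : ℕ => √(N:ℝ)) atTop atTop :=
  Real.tendsto_sqrt_atTop.comp tendsto_natCast_atTop_atTop

lemma floor_lim (t : ℝ) (c : ℤ) : Tendsto (fun N : ℕ => (((⌊√(N:ℝ) * t⌋ + c : ℤ) : ℝ)) / √(N:ℝ)) atTop (𝓝 t) := by
  have h1 : Tendsto (fun N : ℕ => t + (|(c:ℝ)| + 1) / √(N:ℝ)) atTop (𝓝 t) := by
    have := (tendsto_const_nhds (x := |(c:ℝ)| + 1)).div_atTop tendsto_sqrtN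
    simpa using this.const_add t
  have h2 : Tendsto (fun N : ℕ => t - (|(c:ℝ)| + 1) / √(N:ℝ)) atTop (𝓝 t) := by
    have := (tendsto_const_nhds (x := |(c:ℝ)| + 1)).div_atTop tendsto_sqrtN
    simpa using this.const_sub t
  have hs : ∀ᶠ N : ℕ in atTop, 0 < √(N:ℝ) := by
    rw [eventually_atTop]
    exact ⟨1, fun N hN => Real.sqrt_pos.mpr (by exact_mod_cast hN)⟩
  refine tendsto_of_tendsto_of_tendsto_of_le_of_le' h2 h1 ?_ ?_
  · filter_upwards [hs] with N hN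
    rw [le_div_iff₀ hN, sub_mul, div_mul_cancel₀ _ hN.ne']
    push_cast
    have := Int.lt_floor_add_one (√(N:ℝ) * t)
    have := neg_abs_le (c:ℝ)
    linarith
  · filter_upwards [hs] with N hN
    rw [div_le_iff₀ hN, add_mul, div_mul_cancel₀ _ hN.ne']
    push_cast
    have := Int.floor_le (√(N:ℝ) * t)
    have := le_abs_self (c:ℝ)
    linarith

lemma pt1_lim (y : ℝ × ℝ) (c : ℤ × ℤ) : Tendsto (fun N : ℕ => ((pt N y c).1 : ℝ) / √(N:ℝ)) atTop (𝓝 y.1) :=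
  floor_lim y.1 c.1

lemma pt2_lim (y : ℝ × ℝ) (c : ℤ × ℤ) : Tendsto (fun N : ℕ => ((pt N y c).2 : ℝ) / √(N:ℝ)) atTop (𝓝 y.2) :=
  floor_lim y.2 c.2

lemma nm_lim (y : ℝ × ℝ) (c : ℤ × ℤ) : Tendsto (fun N : ℕ => ((nm (pt N y c) : ℕ) : ℝ) / N) atTop (𝓝 (y.1 ^ 2 + y.2 ^ 2)) := by
  have h := ((pt1_lim y c).pow 2).add ((pt2_lim y c).pow 2)
  refine h.congr (fun N => ?_)
  rw [nm_cast, div_pow, div_pow, ← add_div, Real.sq_sqrt (Nat.cast_nonneg _)]

lemma rt_lim (y : ℝ × ℝ) (c : ℤ × ℤ) :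
    Tendsto (fun N : ℕ => √((nm (pt N y c) : ℕ) : ℝ) / √(N:ℝ)) atTop (𝓝 √(y.1 ^ 2 + y.2 ^ 2)) := by
  have h := (Real.continuous_sqrt.tendsto _).comp (nm_lim y c)
  refine h.congr (fun N => ?_)
  simp only [Function.comp]
  rw [Real.sqrt_div (Nat.cast_nonneg _)]

lemma sq_pos_of {y : ℝ × ℝ} (hy : y ≠ 0) : 0 < y.1 ^ 2 + y.2 ^ 2 := by
  by_contra hcon
  have h1 : y.1 = 0 := by
    have : y.1 ^ 2 = 0 := by nlinarith [sq_nonneg y.1, sq_nonneg y.2]
    exact pow_eq_zero_iff (n := 2) (by norm_num) |>.1 this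
  have h2 : y.2 = 0 := by
    have : y.2 ^ 2 = 0 := by nlinarith [sq_nonneg y.1, sq_nonneg y.2]
    exact pow_eq_zero_iff (n := 2) (by norm_num) |>.1 this
  exact hy (Prod.ext h1 h2)

lemma dir_lim {y : ℝ × ℝ} (hy : y ≠ 0) (c : ℤ × ℤ) : Tendsto (fun N : ℕ => dir (pt N y c)) atTop (𝓝 (dr y)) := by
  have h1 : Tendsto (fun N : ℕ => ((((pt N y c).1 : ℝ) / √(N:ℝ) : ℝ) : ℂ)) atTop (𝓝 (y.1 : ℂ)) :=
    (Complex.continuous_ofReal.tendsto _).comp (pt1_lim y c)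
  have h2 : Tendsto (fun N : ℕ => ((((pt N y c).2 : ℝ) / √(N:ℝ) : ℝ) : ℂ)) atTop (𝓝 (y.2 : ℂ)) :=
    (Complex.continuous_ofReal.tendsto _).comp (pt2_lim y c)
  have h3 : Tendsto (fun N : ℕ => ((√((nm (pt N y c) : ℕ) : ℝ) / √(N:ℝ) : ℝ) : ℂ)) atTop (𝓝 ((√(y.1 ^ 2 + y.2 ^ 2) : ℝ) : ℂ)) :=
    (Complex.continuous_ofReal.tendsto _).comp (rt_lim y c)
  have h4 := (h1.add (h2.mul_const Complex.I)).div h3 (by
    rw [Complex.ofReal_ne_zero]
    exact (Real.sqrt_pos.mpr (sq_pos_of hy)).ne')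
  refine h4.congr' ?_
  rw [EventuallyEq, eventually_atTop]
  refine ⟨1, fun N hN => ?_⟩
  have hs : (0:ℝ) < √(N:ℝ) := Real.sqrt_pos.mpr (by exact_mod_cast hN)
  have hs' : ((√(N:ℝ) : ℝ) : ℂ) ≠ 0 := by rw [Complex.ofReal_ne_zero]; exact hs.ne'
  unfold dir
  simp only [Pi.div_apply]
  push_cast
  rw [div_mul_eq_mul_div, ← add_div, div_div_div_cancel_right₀ hs']

lemma rad_lim {y : ℝ × ℝ} (hy : y ≠ 0) (c : ℤ × ℤ) :
    Tendsto (fun N : ℕ => √((nm (pt N y c) : ℕ) : ℝ) - √((nm (pt N y 0) : ℕ) : ℝ)) atTop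
      (𝓝 (c.1 * (dr y).re + c.2 * (dr y).im)) := by
  have hp := Real.sqrt_pos.mpr (sq_pos_of hy)
  have hd := (rt_lim y c).add (rt_lim y 0)
  have h0 : Tendsto (fun N : ℕ => ((c.1:ℝ)^2 + (c.2:ℝ)^2) / √(N:ℝ)) atTop (𝓝 0) :=
    tendsto_const_nhds.div_atTop tendsto_sqrtN
  have hn := (((pt1_lim y 0).const_mul (2 * (c.1:ℝ))).add ((pt2_lim y 0).const_mul (2 * (c.2:ℝ)))).add h0
  have h := hn.div hd (by positivity)
  have e : (2 * (c.1:ℝ) * y.1 + 2 * (c.2:ℝ) * y.2 + 0) / (√(y.1 ^ 2 + y.2 ^ 2) + √(y.1 ^ 2 + y.2 ^ 2)) =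
      c.1 * (dr y).re + c.2 * (dr y).im := by
    have h1 : (dr y).re = y.1 / √(y.1 ^ 2 + y.2 ^ 2) := by
      unfold dr
      rw [Complex.div_ofReal_re]; simp
    have h2 : (dr y).im = y.2 / √(y.1 ^ 2 + y.2 ^ 2) := by
      unfold dr
      rw [Complex.div_ofReal_im]; simp
    rw [h1, h2]
    field_simp
    ring
  rw [e] at h
  refine h.congr' ?_
  have hpos : ∀ᶠ N : ℕ in atTop, 0 < √((nm (pt N y c) : ℕ) : ℝ) / √(N:ℝ) + √((nm (pt N y 0) : ℕ) : ℝ) / √(N:ℝ) :=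
    hd.eventually (lt_mem_nhds (by positivity))
  have hs : ∀ᶠ N : ℕ in atTop, 0 < √(N:ℝ) := by
    rw [eventually_atTop]
    exact ⟨1, fun N hN => Real.sqrt_pos.mpr (by exact_mod_cast hN)⟩
  filter_upwards [hpos, hs] with N h1 h2
  rw [← add_div] at h1
  have h3 : 0 < √((nm (pt N y c) : ℕ) : ℝ) + √((nm (pt N y 0) : ℕ) : ℝ) := by
    have := mul_pos h1 h2
    rwa [div_mul_cancel₀ _ h2.ne'] at this
  simp only [Pi.div_apply]
  rw [← add_div, ← mul_div_assoc, ← mul_div_assoc, ← add_div, ← add_div, div_div_div_cancel_right₀ h2.ne', div_eq_iff h3.ne']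
  have e1 : (√((nm (pt N y c) : ℕ) : ℝ) - √((nm (pt N y 0) : ℕ) : ℝ)) * (√((nm (pt N y c) : ℕ) : ℝ) + √((nm (pt N y 0) : ℕ) : ℝ)) =
      ((nm (pt N y c) : ℕ) : ℝ) - ((nm (pt N y 0) : ℕ) : ℝ) := by
    have a1 := Real.mul_self_sqrt (Nat.cast_nonneg (α := ℝ) (nm (pt N y c)))
    have a2 := Real.mul_self_sqrt (Nat.cast_nonneg (α := ℝ) (nm (pt N y 0)))
    linear_combination a1 - a2
  rw [e1, nm_cast, nm_cast]
  have e2 : pt N y c = pt N y 0 + c := by unfold pt; simp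
  rw [e2]
  simp only [Prod.fst_add, Prod.snd_add]
  push_cast
  ring

/-- membership in the discs in the limit -/
lemma mem_lim {y : ℝ × ℝ} (hy : y ≠ 0) (hy1 : y.1 ^ 2 + y.2 ^ 2 ≠ 1) (c : ℤ × ℤ) :
    ∀ᶠ N : ℕ in atTop, (pt N y c ∈ disc N ↔ y.1 ^ 2 + y.2 ^ 2 < 1) := by
  have hp := sq_pos_of hy
  have hN : ∀ᶠ N : ℕ in atTop, 1 ≤ N := eventually_ge_atTop 1
  rcases lt_or_gt_of_ne hy1 with h | h
  · have h1 := (nm_lim y c).eventually (lt_mem_nhds hp)
    have h2 := (nm_lim y c).eventually (gt_mem_nhds h)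
    filter_upwards [h1, h2, hN] with N a1 a2 a3
    have hN0 : (0:ℝ) < N := by exact_mod_cast a3
    rw [div_lt_one hN0] at a2
    have a4 : (0:ℝ) < (nm (pt N y c) : ℕ) := by
      have := mul_pos a1 hN0
      rwa [div_mul_cancel₀ _ hN0.ne'] at this
    refine ⟨fun _ => h, fun _ => mem_disc.mpr ⟨by exact_mod_cast a4, ?_⟩⟩
    have : nm (pt N y c) < N := by exact_mod_cast a2
    omega
  · have h2 := (nm_lim y c).eventually (lt_mem_nhds h)
    filter_upwards [h2, hN] with N a2 a3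
    have hN0 : (0:ℝ) < N := by exact_mod_cast a3
    rw [lt_div_iff₀ hN0, one_mul] at a2
    refine ⟨fun hm => ?_, fun hh => absurd hh (by linarith)⟩
    have := (mem_disc.mp hm).2
    have h3 : N < nm (pt N y c) := by exact_mod_cast a2
    omega

/-- the exceptional sets are null -/
lemma ae_good : ∀ᵐ y : ℝ × ℝ, y ≠ 0 ∧ y.1 ^ 2 + y.2 ^ 2 ≠ 1 := by
  have h1 : ∀ᵐ y : ℝ × ℝ, y ≠ 0 := by
    rw [ae_iff]
    simp only [not_not, Set.ofPred_eq_eq_singleton]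
    exact measure_singleton _
  have h2 : ∀ᵐ y : ℝ × ℝ, y.1 ^ 2 + y.2 ^ 2 ≠ 1 := by
    rw [ae_iff]
    simp only [not_not]
    have hm : MeasurableSet {a : ℝ × ℝ | a.1 ^ 2 + a.2 ^ 2 = 1} := by
      apply measurableSet_eq_fun <;> fun_prop
    rw [Measure.volume_eq_prod, Measure.measure_prod_null hm]
    refine Eventually.of_forall (fun x => ?_)
    apply Set.Finite.measure_zero
    apply Set.Finite.subset (Set.toFinite {√(1 - x^2), -√(1 - x^2)})
    intro t ht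
    simp only [Set.mem_preimage, Set.mem_ofPred_eq] at ht
    have h3 : t^2 = 1 - x^2 := by linarith
    rw [Set.mem_insert_iff, Set.mem_singleton_iff, ← h3, Real.sqrt_sq_eq_abs]
    rcases abs_choice t with h | h
    · left; exact h.symm
    · right; rw [h]; ring
  filter_upwards [h1, h2] with y a b
  exact ⟨a, b⟩

/-- the general form of the limit theorem -/
lemma riemann' {Φ : ℕ → ℤ × ℤ → ℂ} {B : ℝ} (hB : ∀ N z, ‖Φ N z‖ ≤ B) {Ψ : ℝ × ℝ → ℂ}
    (h : ∀ᵐ y : ℝ × ℝ, Tendsto (fun N : ℕ => Φ N (pt N y 0)) atTop (𝓝 (Ψ y))) :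
    Tendsto (fun N : ℕ => (∑ z ∈ disc N, Φ N z) / N) atTop (𝓝 (∫ y, if y.1 ^ 2 + y.2 ^ 2 < 1 then Ψ y else 0)) := by
  apply riemann hB
  filter_upwards [h, ae_good] with y h1 h2
  have h3 := mem_lim h2.1 h2.2 0
  have e : ∀ N : ℕ, pt N y 0 = fl (√(N:ℝ) • y) := fun N => by unfold pt; simp
  split_ifs with h4
  · refine h1.congr' ?_
    filter_upwards [h3] with N h5
    rw [← e, if_pos (h5.mpr h4)]
  · refine tendsto_const_nhds.congr' ?_
    filter_upwards [h3] with N h5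
    rw [← e, if_neg (fun h6 => h4 (h5.mp h6))]


/-- the mean over the unit circle -/
noncomputable def ang (g : ℂ → ℂ) : ℂ := (∫ t in (-Real.pi)..Real.pi, g (Complex.exp (t * Complex.I))) / (2 * Real.pi)

lemma polar_int (g : ℂ → ℂ) :
    ∫ y : ℝ × ℝ, (if y.1 ^ 2 + y.2 ^ 2 < 1 then g (dr y) else 0) = Real.pi * ang g := by
  rw [← integral_comp_polarCoord_symm]
  have h1 : ∫ p in polarCoord.target, p.1 • (if (polarCoord.symm p).1 ^ 2 + (polarCoord.symm p).2 ^ 2 < 1 then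
      g (dr (polarCoord.symm p)) else 0) =
      ∫ p in (Set.Ioi (0:ℝ)) ×ˢ (Set.Ioo (-Real.pi) Real.pi),
        (((Set.Iio (1:ℝ)).indicator (fun r : ℝ => r) p.1 : ℝ) : ℂ) * g (Complex.exp (p.2 * Complex.I)) := by
    rw [polarCoord_target]
    apply setIntegral_congr_fun (measurableSet_Ioi.prod measurableSet_Ioo)
    rintro ⟨r, t⟩ hp
    have hr : 0 < r := hp.1
    simp only [polarCoord_symm_apply]
    have e1 : (r * Real.cos t) ^ 2 + (r * Real.sin t) ^ 2 = r ^ 2 := by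
      have := Real.sin_sq_add_cos_sq t
      linear_combination r ^ 2 * this
    have e2 : dr (r * Real.cos t, r * Real.sin t) = Complex.exp (t * Complex.I) := by
      unfold dr
      simp only
      rw [e1, Real.sqrt_sq hr.le, Complex.exp_mul_I]
      have : (r:ℂ) ≠ 0 := by exact_mod_cast hr.ne'
      push_cast
      field_simp
    rw [e1, e2]
    have e3 : r ^ 2 < 1 ↔ r < 1 := by
      rw [sq_lt_one_iff_abs_lt_one, abs_of_pos hr]
    simp only [e3, Set.indicator_apply, Set.mem_Iio]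
    split_ifs
    · rw [Complex.real_smul]
    · simp
  rw [h1, Measure.volume_eq_prod, setIntegral_prod_mul (μ := (volume : Measure ℝ)) (ν := (volume : Measure ℝ))
    (fun r : ℝ => (((Set.Iio (1:ℝ)).indicator (fun r : ℝ => r) r : ℝ) : ℂ)) (fun t : ℝ => g (Complex.exp (t * Complex.I)))]
  have h2 : ∫ r in Set.Ioi (0:ℝ), (((Set.Iio (1:ℝ)).indicator (fun r : ℝ => r) r : ℝ) : ℂ) = 1 / 2 := by
    rw [integral_complex_ofReal, setIntegral_indicator measurableSet_Iio]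
    have : Set.Ioi (0:ℝ) ∩ Set.Iio 1 = Set.Ioo 0 1 := rfl
    rw [this, ← integral_Ioc_eq_integral_Ioo, ← intervalIntegral.integral_of_le zero_le_one, integral_id]
    norm_num
  have h3 : ∫ t in Set.Ioo (-Real.pi) Real.pi, g (Complex.exp (t * Complex.I)) =
      ∫ t in (-Real.pi)..Real.pi, g (Complex.exp (t * Complex.I)) := by
    rw [intervalIntegral.integral_of_le (by linarith [Real.pi_pos]), integral_Ioc_eq_integral_Ioo]
  rw [h2, h3]
  unfold ang
  have : (Real.pi : ℂ) ≠ 0 := by exact_mod_cast Real.pi_ne_zero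
  generalize (∫ t in (-Real.pi)..Real.pi, g (Complex.exp (t * Complex.I))) = J
  field_simp

lemma dr_norm_le (y : ℝ × ℝ) : ‖dr y‖ ≤ 1 := by
  unfold dr
  rw [norm_div, Complex.norm_real, Real.norm_eq_abs, abs_of_nonneg (Real.sqrt_nonneg _)]
  have : ‖(y.1 : ℂ) + (y.2 : ℂ) * Complex.I‖ = √(y.1 ^ 2 + y.2 ^ 2) := Complex.norm_add_mul_I _ _
  rw [this]
  exact div_self_le_one _

lemma cmap_bdd (g : C(ℂ, ℂ)) : ∃ B : ℝ, 0 ≤ B ∧ ∀ u : ℂ, ‖u‖ ≤ 1 → ‖g u‖ ≤ B := by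
  obtain ⟨B, hB⟩ := (isCompact_closedBall (0:ℂ) 1).exists_bound_of_continuousOn g.continuous.continuousOn
  refine ⟨|B|, abs_nonneg _, fun u hu => ?_⟩
  refine (hB _ ?_).trans (le_abs_self _)
  rwa [mem_closedBall_zero_iff]

/-- the directions are equidistributed -/
lemma dir_equi (g : C(ℂ, ℂ)) :
    Tendsto (fun N : ℕ => (∑ z ∈ disc N, g (dir z)) / N) atTop (𝓝 (Real.pi * ang g)) := by
  obtain ⟨B, _, hB⟩ := cmap_bdd g
  rw [← polar_int]
  apply riemann' (Φ := fun _ z => g (dir z)) (B := B) (fun _ z => hB _ (norm_dir_le z))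
  filter_upwards [ae_good] with y hy
  exact (g.continuous.tendsto _).comp (dir_lim hy.1 0)

lemma ang_one : ang (fun _ => 1) = 1 := by
  unfold ang
  have : (Real.pi : ℂ) ≠ 0 := by exact_mod_cast Real.pi_ne_zero
  simp only [intervalIntegral.integral_const, sub_neg_eq_add, Complex.real_smul, mul_one]
  push_cast
  field_simp
  norm_num

/-- the number of points of the discs -/
lemma card_disc : Tendsto (fun N : ℕ => ((disc N).card : ℝ) / N) atTop (𝓝 Real.pi) := by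
  have h := dir_equi (1 : C(ℂ, ℂ))
  have e : ang (1 : C(ℂ, ℂ)) = 1 := ang_one
  rw [e, mul_one] at h
  simp only [ContinuousMap.one_apply, Finset.sum_const, nsmul_eq_mul, mul_one] at h
  have h2 := (Complex.continuous_re.tendsto _).comp h
  simp only [Complex.ofReal_re] at h2
  refine h2.congr (fun N => ?_)
  simp only [Function.comp]
  rw [← Complex.ofReal_natCast, ← Complex.ofReal_natCast, ← Complex.ofReal_div, Complex.ofReal_re]

/-- translations change few points -/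
lemma shift_small (c : ℤ × ℤ) :
    Tendsto (fun N : ℕ => (((disc N).filter (fun z => z + c ∉ disc N)).card : ℝ) / N) atTop (𝓝 0) := by
  have h := riemann' (Φ := fun N z => if z + c ∉ disc N then 1 else 0) (B := 1) (fun N z => by
    split_ifs <;> simp) (Ψ := fun y => if y.1 ^ 2 + y.2 ^ 2 < 1 then 0 else 1) (by
    filter_upwards [ae_good] with y hy
    have h1 := mem_lim hy.1 hy.2 c
    refine tendsto_const_nhds.congr' ?_
    filter_upwards [h1] with N h2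
    have e : pt N y 0 + c = pt N y c := by unfold pt; simp
    rw [e]
    by_cases a : y.1 ^ 2 + y.2 ^ 2 < 1
    · rw [if_pos a, if_neg (not_not.mpr (h2.mpr a))]
    · rw [if_neg a, if_pos (fun b => a (h2.mp b))])
  have e : (∫ y : ℝ × ℝ, if y.1 ^ 2 + y.2 ^ 2 < 1 then (if y.1 ^ 2 + y.2 ^ 2 < 1 then (0:ℂ) else 1) else 0) = 0 := by
    have : (fun y : ℝ × ℝ => if y.1 ^ 2 + y.2 ^ 2 < 1 then (if y.1 ^ 2 + y.2 ^ 2 < 1 then (0:ℂ) else 1) else 0) =
        fun _ => 0 := by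
      funext y; split_ifs <;> rfl
    rw [this, integral_zero]
  rw [e] at h
  have h2 := (Complex.continuous_re.tendsto _).comp h
  simp only [Complex.zero_re] at h2
  refine h2.congr (fun N => ?_)
  simp only [Function.comp]
  rw [← Finset.sum_filter, Finset.sum_const, nsmul_eq_mul, mul_one, ← Complex.ofReal_natCast, ← Complex.ofReal_natCast,
    ← Complex.ofReal_div, Complex.ofReal_re]

end Pool.Agent.W2helper83.GZ
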