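import Pool.Agent.W2helper83.GZ.L

/-! Equidistribution of the directions of the Gaussian integers. -/

open Filter Topology MeasureTheory
open Pool.Agent.H383.AP
open Pool.Agent.H425R3.JL
open Pool.Agent.H469R2.NK

namespace Pool.Agent.W2helper83.GZ

/-- the nonzero Gaussian integers of norm at most `N` -/
noncomputable def disc (N : ℕ) : Finset (ℤ × ℤ) :=
  ((Finset.Icc (-(N:ℤ)) N) ×ˢ (Finset.Icc (-(N:ℤ)) N)).filter (fun z => 0 < nm z ∧ nm z ≤ N)

lemma nm_castZ (z : ℤ × ℤ) : ((nm z : ℕ) : ℤ) = z.1 ^ 2 + z.2 ^ 2 := Int.toNat_of_nonneg (by positivity)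

lemma mem_disc {N : ℕ} {z : ℤ × ℤ} : z ∈ disc N ↔ 0 < nm z ∧ nm z ≤ N := by
  unfold disc
  rw [Finset.mem_filter]
  constructor
  · rintro ⟨_, h⟩; exact h
  · intro h
    refine ⟨?_, h⟩
    have h1 : z.1 ^ 2 + z.2 ^ 2 ≤ (N:ℤ) := by rw [← nm_castZ]; exact_mod_cast h.2
    rw [Finset.mem_product, Finset.mem_Icc, Finset.mem_Icc]
    refine ⟨⟨?_, ?_⟩, ?_, ?_⟩ <;> nlinarith [sq_nonneg z.1, sq_nonneg z.2, sq_nonneg (z.1 - 1), sq_nonneg (z.1 + 1),
      sq_nonneg (z.2 - 1), sq_nonneg (z.2 + 1)]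

/-- the integer part of a point of the plane -/
noncomputable def fl (x : ℝ × ℝ) : ℤ × ℤ := (⌊x.1⌋, ⌊x.2⌋)

/-- constants are integrable on sets of finite measure -/
lemma const_on {α F : Type*} [MeasurableSpace α] [NormedAddCommGroup F] {μ : Measure α} {s : Set α} (hs : μ s ≠ ⊤) (c : F) :
    IntegrableOn (fun _ => c) s μ := by
  have h : IsFiniteMeasure (μ.restrict s) := ⟨by
    rw [Measure.restrict_apply_univ]; exact lt_top_iff_ne_top.mpr hs⟩
  exact integrable_const c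

/-- sums over finitely many lattice points as integrals -/
lemma sum_eq_int (S : Finset (ℤ × ℤ)) (Φ : ℤ × ℤ → ℂ) :
    ∫ x : ℝ × ℝ, (if fl x ∈ S then Φ (fl x) else 0) = ∑ z ∈ S, Φ z := by
  classical
  have h1 : ∀ x : ℝ × ℝ, (if fl x ∈ S then Φ (fl x) else 0) =
      ∑ z ∈ S, (Set.Ico (z.1:ℝ) (z.1 + 1) ×ˢ Set.Ico (z.2:ℝ) (z.2 + 1)).indicator (fun _ => Φ z) x := by
    intro x
    have h2 : ∀ z : ℤ × ℤ, x ∈ (Set.Ico (z.1:ℝ) (z.1 + 1) ×ˢ Set.Ico (z.2:ℝ) (z.2 + 1)) ↔ z = fl x := by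
      intro z
      rw [Set.mem_prod, Set.mem_Ico, Set.mem_Ico, ← Int.floor_eq_iff, ← Int.floor_eq_iff]
      unfold fl
      rw [Prod.ext_iff]
      constructor
      · rintro ⟨a, b⟩; exact ⟨a.symm, b.symm⟩
      · rintro ⟨a, b⟩; exact ⟨a.symm, b.symm⟩
    have h3 : ∀ z ∈ S, (Set.Ico (z.1:ℝ) (z.1 + 1) ×ˢ Set.Ico (z.2:ℝ) (z.2 + 1)).indicator (fun _ => Φ z) x =
        if z = fl x then Φ z else 0 := by
      intro z _
      rw [Set.indicator_apply]
      simp only [h2]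
    rw [Finset.sum_congr rfl h3, Finset.sum_ite_eq']
  simp only [h1]
  rw [integral_finsetSum]
  · apply Finset.sum_congr rfl
    intro z _
    rw [integral_indicator (measurableSet_Ico.prod measurableSet_Ico), setIntegral_const, Measure.real,
      Measure.volume_eq_prod, Measure.prod_prod, Real.volume_Ico, Real.volume_Ico]
    simp
  · intro z _
    rw [integrable_indicator_iff (measurableSet_Ico.prod measurableSet_Ico)]
    apply const_on
    rw [Measure.volume_eq_prod, Measure.prod_prod, Real.volume_Ico, Real.volume_Ico]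
    simp

/-- the limit of weighted counts -/
lemma riemann {Φ : ℕ → ℤ × ℤ → ℂ} {B : ℝ} (hB : ∀ N z, ‖Φ N z‖ ≤ B) {Ψ : ℝ × ℝ → ℂ}
    (h : ∀ᵐ y : ℝ × ℝ, Tendsto (fun N : ℕ => if fl (√(N:ℝ) • y) ∈ disc N then Φ N (fl (√(N:ℝ) • y)) else 0) atTop (𝓝 (Ψ y))) :
    Tendsto (fun N : ℕ => (∑ z ∈ disc N, Φ N z) / N) atTop (𝓝 (∫ y, Ψ y)) := by
  have hB0 : 0 ≤ B := (norm_nonneg _).trans (hB 0 0)
  have h1 : Tendsto (fun N : ℕ => ∫ y : ℝ × ℝ, (if fl (√(N:ℝ) • y) ∈ disc N then Φ N (fl (√(N:ℝ) • y)) else 0)) atTop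
      (𝓝 (∫ y, Ψ y)) := by
    apply tendsto_integral_filter_of_dominated_convergence
      (fun y => (Set.Icc (-2:ℝ) 2 ×ˢ Set.Icc (-2:ℝ) 2).indicator (fun _ => B) y)
    · refine Eventually.of_forall (fun N => ?_)
      have hm : Measurable (fun y : ℝ × ℝ => fl (√(N:ℝ) • y)) := by
        unfold fl
        fun_prop
      have hd : Measurable (fun z : ℤ × ℤ => if z ∈ disc N then Φ N z else 0) := measurable_of_countable _
      exact (hd.comp hm).aestronglyMeasurable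
    · rw [eventually_atTop]
      refine ⟨1, fun N hN => Eventually.of_forall (fun y => ?_)⟩
      rw [Set.indicator_apply]
      have hN1 : (1:ℝ) ≤ N := by exact_mod_cast hN
      have hs1 : 1 ≤ √(N:ℝ) := Real.one_le_sqrt.mpr hN1
      have hss : √(N:ℝ) * √(N:ℝ) = N := Real.mul_self_sqrt (by linarith)
      by_cases hy : fl (√(N:ℝ) • y) ∈ disc N
      · rw [if_pos hy, if_pos]
        · exact hB _ _
        · rw [mem_disc] at hy
          have h2 : ((fl (√(N:ℝ) • y)).1 : ℝ)^2 + ((fl (√(N:ℝ) • y)).2 : ℝ)^2 ≤ N := by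
            rw [← nm_cast]; exact_mod_cast hy.2
          have key : ∀ t : ℝ, ((⌊√(N:ℝ) * t⌋ : ℤ) : ℝ)^2 ≤ N → t ∈ Set.Icc (-2:ℝ) 2 := by
            intro t ht
            have h3 := Int.floor_le (√(N:ℝ) * t)
            have h4 := Int.lt_floor_add_one (√(N:ℝ) * t)
            have h5 : |((⌊√(N:ℝ) * t⌋ : ℤ) : ℝ)| ≤ √(N:ℝ) := Real.abs_le_sqrt ht
            rw [abs_le] at h5
            constructor
            · nlinarith
            · nlinarith
          refine Set.mem_prod.mpr ⟨key y.1 ?_, key y.2 ?_⟩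
          · have e : (fl (√(N:ℝ) • y)).1 = ⌊√(N:ℝ) * y.1⌋ := rfl
            rw [← e]
            nlinarith [sq_nonneg ((fl (√(N:ℝ) • y)).2 : ℝ)]
          · have e : (fl (√(N:ℝ) • y)).2 = ⌊√(N:ℝ) * y.2⌋ := rfl
            rw [← e]
            nlinarith [sq_nonneg ((fl (√(N:ℝ) • y)).1 : ℝ)]
      · rw [if_neg hy, norm_zero]
        split_ifs <;> linarith
    · rw [integrable_indicator_iff (measurableSet_Icc.prod measurableSet_Icc)]
      apply const_on
      rw [Measure.volume_eq_prod, Measure.prod_prod, Real.volume_Icc]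
      exact ENNReal.mul_ne_top ENNReal.ofReal_ne_top ENNReal.ofReal_ne_top
    · exact h
  refine h1.congr' ?_
  rw [EventuallyEq, eventually_atTop]
  refine ⟨1, fun N hN => ?_⟩
  have hN1 : (1:ℝ) ≤ N := by exact_mod_cast hN
  have := Measure.integral_comp_smul (μ := (volume : Measure (ℝ × ℝ)))
    (fun x : ℝ × ℝ => if fl x ∈ disc N then Φ N (fl x) else 0) (√(N:ℝ))
  rw [this, sum_eq_int]
  have hfr : Module.finrank ℝ (ℝ × ℝ) = 2 := by simp
  rw [hfr, Real.sq_sqrt (by linarith), abs_of_pos (by positivity)]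
  rw [Complex.real_smul]
  push_cast
  field_simp

end Pool.Agent.W2helper83.GZ
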