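import Pool.Agent.W2helper83.GZ.Cnt

/-! Exponential sums over the Gaussian integers, uniformly in the frequency. -/

open Filter Topology MeasureTheory
open Pool.Agent.H383
open Pool.Agent.H383.AP
open Pool.Agent.H383.Gen (Bd U Ap)
open Pool.Agent.H383.Gauss Pool.Agent.H383.Circ
open Pool.Agent.H425R3.JL
open Pool.Agent.H469R2.NK
open Pool.Agent.H452R2.Win
open Pool.Agent.W24.CP
open Finset

namespace Pool.Agent.W2helper83.GZ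

lemma sum_En_sq : ∃ C : ℝ, 0 < C ∧ ∀ N : ℕ, 1 ≤ N → ∑ n ∈ Icc 1 N, (En √(n:ℝ))^2 ≤ C * N := by
  obtain ⟨ω, hω, hω2, C, hC, h⟩ := SM.ms_total ag_Bdw ag_zero wg_Wt En_SandW (c := 1) one_pos
  refine ⟨2 * C + 2 * (ag 1)^2, by positivity, fun N hN => ?_⟩
  have h1 := h 1 N le_rfl (by simpa using hN)
  simp only [one_mul, Nat.cast_one, Real.one_rpow, mul_one] at h1
  have hU : ∀ R : ℝ, (U ag (3 * Real.pi/4) R 1)^2 ≤ (ag 1)^2 := by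
    intro R
    unfold U
    simp only [one_pow, Icc_self, sum_singleton]
    rw [mul_pow]
    have : (Real.cos (2 * Real.pi * (R * √((1:ℕ):ℝ)) - 3 * Real.pi/4))^2 ≤ 1 := by
      rw [sq_le_one_iff_abs_le_one]; exact Real.abs_cos_le_one _
    nlinarith [sq_nonneg (ag 1)]
  calc ∑ n ∈ Icc 1 N, (En √(n:ℝ))^2 ≤ ∑ n ∈ Icc 1 N, (2 * (En √(n:ℝ) - U ag (3 * Real.pi/4) √(n:ℝ) 1)^2 + 2 * (ag 1)^2) := by
        apply sum_le_sum
        intro n _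
        have := hU √(n:ℝ)
        nlinarith [sq_nonneg (En √(n:ℝ) - 2 * U ag (3 * Real.pi/4) √(n:ℝ) 1)]
    _ = 2 * ∑ n ∈ Icc 1 N, (En √(n:ℝ) - U ag (3 * Real.pi/4) √(n:ℝ) 1)^2 + N * (2 * (ag 1)^2) := by
        rw [sum_add_distrib, ← mul_sum, sum_const, Nat.card_Icc, nsmul_eq_mul]; simp
    _ ≤ 2 * (C * N) + N * (2 * (ag 1)^2) := by linarith
    _ = _ := by ring

/-- the complete smooth sums, uniformly -/
lemma full_unif {h : ℝ} (hh : h ≠ 0) (M : ℕ) (hM : 1 ≤ M) :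
    ‖∑ n ∈ Icc 1 M, e (h * √(n:ℝ))‖ ≤ (14 * √(2620 * (1/|h| + |h|)) + 1) * (M:ℝ) ^ (7/8:ℝ) := by
  have ha : 0 < |h| := abs_pos.mpr hh
  set D : ℝ := √(524 * 5 * (1/|h| + |h|)) with hD
  have key := total_of_block (fun n => e (h * √(n:ℝ) + 0 * n)) (C := 2 * D) (δ := 1/8) (by positivity) (by norm_num) (by norm_num)
    (by
      intro N N' hN hNN' hN'
      have hN0 : (1:ℝ) ≤ N := by exact_mod_cast hN
      have h1 := kerIabs hh 0 N N' (by omega)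
      set A : ℝ := ((N + 1 : ℕ):ℝ) with hA
      have hA1 : 1 ≤ A := by rw [hA]; push_cast; linarith
      have hA0 : 0 < A := by linarith
      have hs1 : 1 ≤ √A := by rw [Real.one_le_sqrt]; exact hA1
      have hs3 : √A ^ 3 = A ^ (3/2:ℝ) := by
        rw [Real.sqrt_eq_rpow, ← Real.rpow_natCast, ← Real.rpow_mul hA0.le]; norm_num
      have h2 : √A ^ 3 / |h| + |h| * √A ≤ (1/|h| + |h|) * A ^ (3/2:ℝ) := by
        rw [← hs3]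
        have : √A ≤ √A ^ 3 := by
          calc √A = √A ^ 1 := (pow_one _).symm
            _ ≤ √A ^ 3 := pow_le_pow_right₀ hs1 (by norm_num)
        have h3 : |h| * √A ≤ |h| * √A ^ 3 := mul_le_mul_of_nonneg_left this ha.le
        have h4 : √A ^ 3 / |h| = 1/|h| * √A ^ 3 := by ring
        rw [h4, add_mul]; linarith
      have h3 := SC.log_le_quarter hA1
      have hl0 : 0 ≤ Real.log A := Real.log_nonneg hA1
      have h4 : ‖∑ n ∈ Ioc N N', e (h * √(n:ℝ) + 0 * n)‖^2 ≤ (D * A ^ (7/8:ℝ))^2 := by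
        refine h1.trans ?_
        calc 524 * ((√A ^ 3 / |h| + |h| * √A) * (1 + Real.log A)) ≤
              524 * (((1/|h| + |h|) * A ^ (3/2:ℝ)) * (5 * A ^ (1/4:ℝ))) := by gcongr
          _ = (524 * 5 * (1/|h| + |h|)) * (A ^ (3/2:ℝ) * A ^ (1/4:ℝ)) := by ring
          _ = D^2 * (A ^ (7/8:ℝ))^2 := by
              rw [hD, Real.sq_sqrt (by positivity), ← Real.rpow_add hA0, ← Real.rpow_natCast, ← Real.rpow_mul hA0.le]
              norm_num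
          _ = _ := by ring
      have h5 := (le_abs_self _).trans (abs_le_of_sq_le_sq h4 (by positivity))
      refine h5.trans ?_
      have h6 : A ^ (7/8:ℝ) ≤ 2 * (N:ℝ) ^ (7/8:ℝ) := by
        calc A ^ (7/8:ℝ) ≤ (2 * (N:ℝ)) ^ (7/8:ℝ) := by
              apply Real.rpow_le_rpow hA0.le _ (by norm_num)
              rw [hA]; push_cast; linarith
          _ = (2:ℝ) ^ (7/8:ℝ) * (N:ℝ) ^ (7/8:ℝ) := Real.mul_rpow (by norm_num) (by linarith)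
          _ ≤ 2 * (N:ℝ) ^ (7/8:ℝ) := by
              apply mul_le_mul_of_nonneg_right _ (by positivity)
              calc (2:ℝ) ^ (7/8:ℝ) ≤ (2:ℝ) ^ (1:ℝ) := Real.rpow_le_rpow_of_exponent_le (by norm_num) (by norm_num)
                _ = 2 := by norm_num
      have h7 : (1:ℝ) - 1/8 = 7/8 := by norm_num
      rw [h7]
      calc D * A ^ (7/8:ℝ) ≤ D * (2 * (N:ℝ) ^ (7/8:ℝ)) := by gcongr
        _ = _ := by ring) M hM
  have h7 : (1:ℝ) - 1/8 = 7/8 := by norm_num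
  rw [h7, norm_e] at key
  simp only [zero_mul, add_zero] at key
  refine key.trans (le_of_eq ?_)
  rw [hD, show (524 * 5:ℝ) = 2620 by norm_num]
  ring

/-- the error in the number of lattice points -/
noncomputable def Wn (n : ℕ) : ℝ := (disc n).card - Real.pi * n

lemma Wn_zero : Wn 0 = 0 := by unfold Wn; rw [disc_zero]; simp

lemma abel_disc (h : ℕ → ℂ) (N : ℕ) :
    ∑ z ∈ disc N, h (nm z) = Real.pi * ∑ n ∈ range N, h (n + 1) + Wn N * h N -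
      ∑ n ∈ range N, (Wn n : ℂ) * (h (n + 1) - h n) := by
  rw [sum_disc_nm]
  induction N with
  | zero => simp [Wn_zero]
  | succ N ih =>
    rw [sum_range_succ, ih, sum_range_succ, sum_range_succ]
    have h1 : ((fib (N + 1)).card : ℂ) = (Wn (N + 1) : ℂ) - Wn N + Real.pi := by
      have := card_disc_succ N
      unfold Wn
      push_cast
      rw [this]
      push_cast
      ring
    rw [nsmul_eq_mul, h1]
    ring

lemma Wn_le {n : ℕ} (hn : 1 ≤ n) : |Wn n| ≤ (n:ℝ) ^ (1/4:ℝ) * |En √(n:ℝ)| + 1 := by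
  unfold Wn
  rw [card_disc_eq hn]
  have h1 : 0 ≤ (n:ℝ) ^ (1/4:ℝ) := by positivity
  have e1 : Real.pi * (n:ℝ) + (n:ℝ) ^ (1/4:ℝ) * En √(n:ℝ) - 1 - Real.pi * n = (n:ℝ) ^ (1/4:ℝ) * En √(n:ℝ) - 1 := by ring
  rw [e1]
  calc |(n:ℝ) ^ (1/4:ℝ) * En √(n:ℝ) - 1| ≤ |(n:ℝ) ^ (1/4:ℝ) * En √(n:ℝ)| + |(1:ℝ)| := abs_sub _ _
    _ = _ := by rw [abs_mul, abs_of_nonneg h1, abs_one]

lemma e_lip (x y : ℝ) : ‖e x - e y‖ ≤ 2 * Real.pi * |x - y| := by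
  have h1 : e x - e y = e y * (e (x - y) - 1) := by
    rw [mul_sub, ← e_add, mul_one]; congr 2; ring
  rw [h1, norm_mul, norm_e, one_mul]
  unfold e
  have := Real.norm_exp_I_mul_ofReal_sub_one_le (x := 2 * Real.pi * (x - y))
  rw [mul_comm Complex.I] at this
  refine this.trans (le_of_eq ?_)
  rw [Real.norm_eq_abs, abs_mul, abs_of_pos (by positivity)]

lemma sum_inv_sqrt (N : ℕ) : ∑ n ∈ Icc 1 N, 1 / √(n:ℝ) ≤ 2 * √(N:ℝ) := by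
  induction N with
  | zero => simp
  | succ N ih =>
    rw [sum_Icc_succ_top (by omega)]
    have h1 : 0 < √((N + 1 : ℕ):ℝ) := Real.sqrt_pos.mpr (by positivity)
    have h2 : 0 ≤ √(N:ℝ) := Real.sqrt_nonneg _
    have e1 : √((N + 1 : ℕ):ℝ)^2 = N + 1 := by rw [Real.sq_sqrt (by positivity)]; push_cast; ring
    have e2 : √(N:ℝ)^2 = N := Real.sq_sqrt (by positivity)
    have h3 : 1 / √((N + 1 : ℕ):ℝ) ≤ 2 * (√((N + 1 : ℕ):ℝ) - √(N:ℝ)) := by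
      rw [div_le_iff₀ h1]
      nlinarith [sq_nonneg (√((N + 1 : ℕ):ℝ) - √(N:ℝ))]
    linarith

theorem disc_es : ∃ C : ℝ, 0 < C ∧ ∀ N : ℕ, 1 ≤ N → ∀ θ : ℝ, θ ≠ 0 →
    ‖∑ z ∈ disc N, e (θ * √(nm z : ℝ))‖ ≤ C * (|θ| + 1/|θ|) * (N:ℝ) ^ (7/8:ℝ) := by
  obtain ⟨C, hC, hE⟩ := sum_En_sq
  refine ⟨4 * (14 * 52 + 1) + (√C + 1) + 4 * (2 + C + 3), by positivity, ?_⟩
  intro N hN θ hθ
  have hθ0 : 0 < |θ| := abs_pos.mpr hθ
  set Θ : ℝ := |θ| + 1/|θ| with hΘ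
  have hΘ2 : 2 ≤ Θ := by
    have : 0 ≤ (|θ| - 1)^2 / |θ| := by positivity
    have e1 : (|θ| - 1)^2 / |θ| = |θ| + 1/|θ| - 2 := by field_simp; ring
    rw [hΘ]; linarith
  have hθΘ : |θ| ≤ Θ := by rw [hΘ]; have : 0 ≤ 1/|θ| := by positivity
                           linarith
  have hN1 : (1:ℝ) ≤ N := by exact_mod_cast hN
  have hN0 : (0:ℝ) < N := by linarith
  have hpi := Real.pi_pos
  have hpi4 := Real.pi_lt_four
  set h : ℕ → ℂ := fun n => e (θ * √(n:ℝ)) with hh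
  have key := abel_disc h N
  simp only [hh] at key
  have hN34 : (N:ℝ) ^ (3/4:ℝ) ≤ (N:ℝ) ^ (7/8:ℝ) := Real.rpow_le_rpow_of_exponent_le hN1 (by norm_num)
  have hN78 : (1:ℝ) ≤ (N:ℝ) ^ (7/8:ℝ) := Real.one_le_rpow hN1 (by norm_num)
  have hN12 : √(N:ℝ) ≤ (N:ℝ) ^ (7/8:ℝ) := by
    rw [Real.sqrt_eq_rpow]; exact Real.rpow_le_rpow_of_exponent_le hN1 (by norm_num)
  -- first term
  have t1 : ‖(Real.pi : ℂ) * ∑ n ∈ range N, e (θ * √((n + 1 : ℕ):ℝ))‖ ≤ 4 * (14 * 52 + 1) * (Θ * (N:ℝ) ^ (7/8:ℝ)) := by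
    have e1 : ∑ n ∈ range N, e (θ * √((n + 1 : ℕ):ℝ)) = ∑ n ∈ Icc 1 N, e (θ * √(n:ℝ)) := by
      rw [range_eq_Ico, sum_Ico_add' (fun n : ℕ => e (θ * √(n:ℝ))) 0 N 1]
      apply sum_congr _ (fun _ _ => rfl)
      ext n; simp only [mem_Icc, mem_Ico]; omega
    rw [norm_mul, e1, Complex.norm_real, Real.norm_eq_abs, abs_of_pos hpi]
    have h1 := full_unif hθ N hN
    have h2 : √(2620 * (1/|θ| + |θ|)) ≤ 52 * Θ := by
      rw [Real.sqrt_le_left (by positivity), add_comm (1/|θ|), ← hΘ]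
      nlinarith
    calc Real.pi * ‖∑ n ∈ Icc 1 N, e (θ * √(n:ℝ))‖ ≤ 4 * ((14 * √(2620 * (1/|θ| + |θ|)) + 1) * (N:ℝ) ^ (7/8:ℝ)) := by
          apply mul_le_mul hpi4.le h1 (norm_nonneg _) (by norm_num)
      _ ≤ 4 * ((14 * (52 * Θ) + Θ) * (N:ℝ) ^ (7/8:ℝ)) := by
          have : (1:ℝ) ≤ Θ := by linarith
          gcongr
      _ = _ := by ring
  -- second term
  have hEN : |En √(N:ℝ)| ≤ √C * √(N:ℝ) := by
    rw [← Real.sqrt_mul hC.le]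
    apply Real.abs_le_sqrt
    refine le_trans ?_ (hE N hN)
    exact single_le_sum (f := fun n : ℕ => (En √(n:ℝ))^2) (fun n _ => sq_nonneg _) (mem_Icc.mpr ⟨hN, le_rfl⟩)
  have t2 : ‖(Wn N : ℂ) * e (θ * √(N:ℝ))‖ ≤ (√C + 1) * (Θ * (N:ℝ) ^ (7/8:ℝ)) := by
    rw [norm_mul, norm_e, mul_one, Complex.norm_real, Real.norm_eq_abs]
    have h2 : (N:ℝ) ^ (1/4:ℝ) * √(N:ℝ) = (N:ℝ) ^ (3/4:ℝ) := by
      rw [Real.sqrt_eq_rpow, ← Real.rpow_add hN0]; norm_num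
    calc |Wn N| ≤ (N:ℝ) ^ (1/4:ℝ) * |En √(N:ℝ)| + 1 := Wn_le hN
      _ ≤ (N:ℝ) ^ (1/4:ℝ) * (√C * √(N:ℝ)) + 1 := by gcongr
      _ = √C * (N:ℝ) ^ (3/4:ℝ) + 1 := by rw [← h2]; ring
      _ ≤ √C * (N:ℝ) ^ (7/8:ℝ) + (N:ℝ) ^ (7/8:ℝ) := by gcongr
      _ = (√C + 1) * (1 * (N:ℝ) ^ (7/8:ℝ)) := by ring
      _ ≤ (√C + 1) * (Θ * (N:ℝ) ^ (7/8:ℝ)) := by
          have : (1:ℝ) ≤ Θ := by linarith
          gcongr
  -- third term
  have t3 : ‖∑ n ∈ range N, (Wn n : ℂ) * (e (θ * √((n + 1 : ℕ):ℝ)) - e (θ * √(n:ℝ)))‖ ≤ 4 * (2 + C + 3) * (Θ * (N:ℝ) ^ (7/8:ℝ)) := by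
    have h1 : ∀ n ∈ range N, ‖(Wn n : ℂ) * (e (θ * √((n + 1 : ℕ):ℝ)) - e (θ * √(n:ℝ)))‖ ≤
        if 1 ≤ n then (4 * Θ) * ((N:ℝ) ^ (1/4:ℝ) * (1/√(n:ℝ)) + (En √(n:ℝ))^2 * (N:ℝ) ^ (-(1/4):ℝ) + 1/√(n:ℝ)) else 0 := by
      intro n hn
      rw [mem_range] at hn
      split_ifs with hn1
      · have hn0 : (0:ℝ) < n := by exact_mod_cast hn1
        have hsn : 0 < √(n:ℝ) := Real.sqrt_pos.mpr hn0
        have h2 : ‖e (θ * √((n + 1 : ℕ):ℝ)) - e (θ * √(n:ℝ))‖ ≤ (4 * Θ) * (1/√(n:ℝ)) := by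
          refine (e_lip _ _).trans ?_
          rw [← mul_sub, abs_mul]
          have h3 : |√((n + 1 : ℕ):ℝ) - √(n:ℝ)| ≤ (1/2) * (1/√(n:ℝ)) := by
            have h4 : √(n:ℝ) ≤ √((n + 1 : ℕ):ℝ) := Real.sqrt_le_sqrt (by push_cast; linarith)
            rw [abs_of_nonneg (by linarith)]
            have e1 : √((n + 1 : ℕ):ℝ)^2 = n + 1 := by rw [Real.sq_sqrt (by positivity)]; push_cast; ring
            have e2 : √(n:ℝ)^2 = n := Real.sq_sqrt (by positivity)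
            have e3 : (1/2) * (1/√(n:ℝ)) = 1 / (2 * √(n:ℝ)) := by field_simp
            rw [e3, le_div_iff₀ (by positivity)]
            nlinarith [sq_nonneg (√((n + 1 : ℕ):ℝ) - √(n:ℝ))]
          calc 2 * Real.pi * (|θ| * |√((n + 1 : ℕ):ℝ) - √(n:ℝ)|) ≤ 2 * 4 * (Θ * ((1/2) * (1/√(n:ℝ)))) := by gcongr
            _ = _ := by ring
        rw [norm_mul, Complex.norm_real, Real.norm_eq_abs]
        have h4 := Wn_le hn1
        have h5 : (n:ℝ) ^ (1/4:ℝ) * |En √(n:ℝ)| * (1/√(n:ℝ)) ≤ (N:ℝ) ^ (1/4:ℝ) * (1/√(n:ℝ)) + (En √(n:ℝ))^2 * (N:ℝ) ^ (-(1/4):ℝ) := by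
          have h6 : (n:ℝ) ^ (1/4:ℝ) * (1/√(n:ℝ)) = √(1/√(n:ℝ)) := by
            have q1 : 1/√(n:ℝ) = (n:ℝ) ^ (-(1/2):ℝ) := by rw [Real.sqrt_eq_rpow, one_div, ← Real.rpow_neg hn0.le]
            rw [q1, Real.sqrt_eq_rpow, ← Real.rpow_add hn0, ← Real.rpow_mul hn0.le]
            norm_num
          have h7 : √(1/√(n:ℝ))^2 = 1/√(n:ℝ) := Real.sq_sqrt (by positivity)
          set s := √(1/√(n:ℝ)) with hs
          set w := (N:ℝ) ^ (1/8:ℝ) with hw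
          have hw0 : 0 < w := by positivity
          have h8 : (N:ℝ) ^ (1/4:ℝ) = w^2 := by rw [hw, ← Real.rpow_natCast, ← Real.rpow_mul hN0.le]; norm_num
          have h9 : (N:ℝ) ^ (-(1/4):ℝ) = (w⁻¹)^2 := by
            rw [Real.rpow_neg hN0.le, h8]; rw [inv_pow]
          have e1 : (n:ℝ) ^ (1/4:ℝ) * |En √(n:ℝ)| * (1/√(n:ℝ)) = s * |En √(n:ℝ)| := by rw [← h6]; ring
          rw [e1, h8, h9, ← h7, ← sq_abs (En √(n:ℝ))]
          have h10 : w * w⁻¹ = 1 := mul_inv_cancel₀ hw0.ne'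
          have h11 : s * |En √(n:ℝ)| = (w * s) * (|En √(n:ℝ)| * w⁻¹) := by
            calc s * |En √(n:ℝ)| = (w * w⁻¹) * (s * |En √(n:ℝ)|) := by rw [h10, one_mul]
              _ = _ := by ring
          rw [h11]
          nlinarith [sq_nonneg (w * s - |En √(n:ℝ)| * w⁻¹), sq_nonneg (w * s), sq_nonneg (|En √(n:ℝ)| * w⁻¹)]
        calc |Wn n| * ‖e (θ * √((n + 1 : ℕ):ℝ)) - e (θ * √(n:ℝ))‖ ≤ ((n:ℝ) ^ (1/4:ℝ) * |En √(n:ℝ)| + 1) * ((4 * Θ) * (1/√(n:ℝ))) := by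
              apply mul_le_mul h4 h2 (norm_nonneg _) (by positivity)
          _ = (4 * Θ) * ((n:ℝ) ^ (1/4:ℝ) * |En √(n:ℝ)| * (1/√(n:ℝ)) + 1/√(n:ℝ)) := by ring
          _ ≤ _ := by gcongr
      · have : n = 0 := by omega
        subst this
        rw [Wn_zero]; simp
    calc _ ≤ ∑ n ∈ range N, (if 1 ≤ n then (4 * Θ) * ((N:ℝ) ^ (1/4:ℝ) * (1/√(n:ℝ)) + (En √(n:ℝ))^2 * (N:ℝ) ^ (-(1/4):ℝ) + 1/√(n:ℝ)) else 0) :=
          (norm_sum_le _ _).trans (sum_le_sum h1)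
      _ ≤ ∑ n ∈ Icc 1 N, (4 * Θ) * ((N:ℝ) ^ (1/4:ℝ) * (1/√(n:ℝ)) + (En √(n:ℝ))^2 * (N:ℝ) ^ (-(1/4):ℝ) + 1/√(n:ℝ)) := by
          rw [← sum_filter]
          apply sum_le_sum_of_subset_of_nonneg
          · intro n hn
            rw [mem_filter, mem_range] at hn
            rw [mem_Icc]; omega
          · intro n _ _; positivity
      _ = (4 * Θ) * ((N:ℝ) ^ (1/4:ℝ) * ∑ n ∈ Icc 1 N, 1/√(n:ℝ) + (∑ n ∈ Icc 1 N, (En √(n:ℝ))^2) * (N:ℝ) ^ (-(1/4):ℝ) + ∑ n ∈ Icc 1 N, 1/√(n:ℝ)) := by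
          rw [← mul_sum, sum_add_distrib, sum_add_distrib, ← mul_sum, ← sum_mul]
      _ ≤ (4 * Θ) * ((N:ℝ) ^ (1/4:ℝ) * (2 * √(N:ℝ)) + (C * N) * (N:ℝ) ^ (-(1/4):ℝ) + 2 * √(N:ℝ)) := by
          have a1 := sum_inv_sqrt N
          have a2 := hE N hN
          gcongr
      _ = (4 * Θ) * (2 * (N:ℝ) ^ (3/4:ℝ) + C * (N:ℝ) ^ (3/4:ℝ) + 2 * √(N:ℝ)) := by
          have b1 : (N:ℝ) ^ (1/4:ℝ) * (2 * √(N:ℝ)) = 2 * (N:ℝ) ^ (3/4:ℝ) := by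
            rw [Real.sqrt_eq_rpow]
            have : (N:ℝ) ^ (3/4:ℝ) = (N:ℝ) ^ (1/4:ℝ) * (N:ℝ) ^ (1/2:ℝ) := by rw [← Real.rpow_add hN0]; norm_num
            rw [this]; ring
          have b2 : (C * N) * (N:ℝ) ^ (-(1/4):ℝ) = C * (N:ℝ) ^ (3/4:ℝ) := by
            have : (N:ℝ) ^ (3/4:ℝ) = (N:ℝ) ^ (1:ℝ) * (N:ℝ) ^ (-(1/4):ℝ) := by rw [← Real.rpow_add hN0]; norm_num
            rw [this, Real.rpow_one]; ring
          rw [b1, b2]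
      _ ≤ (4 * Θ) * (2 * (N:ℝ) ^ (7/8:ℝ) + C * (N:ℝ) ^ (7/8:ℝ) + 2 * (N:ℝ) ^ (7/8:ℝ)) := by gcongr
      _ = 4 * (2 + C + 2) * (Θ * (N:ℝ) ^ (7/8:ℝ)) := by ring
      _ ≤ _ := by
          have : 0 ≤ Θ * (N:ℝ) ^ (7/8:ℝ) := by positivity
          nlinarith
  rw [key]
  calc _ ≤ ‖(Real.pi : ℂ) * ∑ n ∈ range N, e (θ * √((n + 1 : ℕ):ℝ)) + (Wn N : ℂ) * e (θ * √(N:ℝ))‖ +
        ‖∑ n ∈ range N, (Wn n : ℂ) * (e (θ * √((n + 1 : ℕ):ℝ)) - e (θ * √(n:ℝ)))‖ := norm_sub_le _ _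
    _ ≤ (4 * (14 * 52 + 1) * (Θ * (N:ℝ) ^ (7/8:ℝ)) + (√C + 1) * (Θ * (N:ℝ) ^ (7/8:ℝ))) + 4 * (2 + C + 3) * (Θ * (N:ℝ) ^ (7/8:ℝ)) :=
        add_le_add ((norm_add_le _ _).trans (add_le_add t1 t2)) t3
    _ = _ := by ring

end Pool.Agent.W2helper83.GZ
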