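import Pool.Agent.W2helper83.GZ.Mar

/-! The joint limit law of the direction and of the error terms about several lattice centres. -/

open Filter Topology MeasureTheory
open Pool.Agent.H383
open Pool.Agent.H383.AP
open Pool.Agent.H383.Gen (Bd U Ap)
open Pool.Agent.H383.Gauss Pool.Agent.H383.Circ
open Pool.Agent.H425R3.JL
open Pool.Agent.H469R2.NK
open Pool.Agent.W24.CP
open Pool.Agent.W24.CP.SU (SI SI_ne SI_Av SI_card)
open Finset

namespace Pool.Agent.W2helper83.GZ

variable {k : ℕ}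

/-- the statistics of a lattice point -/
noncomputable def EV (a : Fin k → ℤ × ℤ) (z : ℤ × ℤ) : Fin 2 ⊕ Fin k → ℝ :=
  Sum.elim (fun i => if i = 0 then (dir z).re else (dir z).im) (fun i => En √(nm (z - a i) : ℝ))

/-- their approximations -/
noncomputable def UV (a : Fin k → ℤ × ℤ) (M : ℕ) (z : ℤ × ℤ) : Fin 2 ⊕ Fin k → ℝ :=
  Sum.elim (fun i => if i = 0 then (dir z).re else (dir z).im) (fun i => UC M (a i) z)

lemma dir_TS (g : C(ℂ, ℂ)) : (fun n => g (dir (zz n))) ∈ TS := by
  have : (fun n => g (dir (zz n))) = chG (0, g) := by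
    funext n
    unfold chG e
    simp
  rw [this]
  exact TS_chr _

lemma UV_TS (a : Fin k → ℤ × ℤ) (M : ℕ) (i : Fin 2 ⊕ Fin k) : (fun n => ((UV a M (zz n) i : ℝ) : ℂ)) ∈ TS := by
  rcases i with i | i
  · by_cases h : i = 0
    · have := dir_TS ⟨fun w => ((w.re : ℝ) : ℂ), by fun_prop⟩
      simp only [UV, Sum.elim_inl, if_pos h]
      exact this
    · have := dir_TS ⟨fun w => ((w.im : ℝ) : ℂ), by fun_prop⟩
      simp only [UV, Sum.elim_inl, if_neg h]
      exact this
  · exact UC_TS M (a i)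

lemma UV_Ap (a : Fin k → ℤ × ℤ) : ApU (fun M n => UV a M (zz n)) (fun n => EV a (zz n)) SD := by
  intro η hη
  have h1 : ∀ i : Fin k, ∃ M0 : ℕ, ∀ M : ℕ, M0 ≤ M → ∃ j0 : ℕ, ∀ j : ℕ, j0 ≤ j →
      fav (SD j) (fun n => (En √(nm (zz n - a i) : ℝ) - UC M (a i) (zz n))^2) ≤ η / (k + 1) :=
    fun i => ctr_fav (a i) (by positivity)
  choose M0 hM0 using h1
  refine ⟨∑ i, M0 i, fun M hM => ?_⟩
  have h2 : ∀ i : Fin k, ∃ j0 : ℕ, ∀ j : ℕ, j0 ≤ j →
      fav (SD j) (fun n => (En √(nm (zz n - a i) : ℝ) - UC M (a i) (zz n))^2) ≤ η / (k + 1) :=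
    fun i => hM0 i M ((single_le_sum (f := M0) (fun _ _ => Nat.zero_le _) (mem_univ i)).trans hM)
  choose j0 hj0 using h2
  refine ⟨∑ i, j0 i, fun j hj => ?_⟩
  have e1 : ∀ n, q (EV a (zz n) - UV a M (zz n)) = ∑ i : Fin k, (En √(nm (zz n - a i) : ℝ) - UC M (a i) (zz n))^2 := by
    intro n
    unfold q
    rw [Fintype.sum_sum_type]
    have : ∑ i : Fin 2, ((EV a (zz n) - UV a M (zz n)) (Sum.inl i))^2 = 0 := by
      apply sum_eq_zero
      intro i _
      simp [EV, UV]
    rw [this, zero_add]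
    rfl
  simp only [e1]
  rw [SX.fav_sum]
  calc ∑ i : Fin k, fav (SD j) (fun n => (En √(nm (zz n - a i) : ℝ) - UC M (a i) (zz n))^2) ≤ ∑ _i : Fin k, η / (k + 1) :=
        sum_le_sum fun i _ => hj0 i j ((single_le_sum (f := j0) (fun _ _ => Nat.zero_le _) (mem_univ i)).trans hj)
    _ = k * (η / (k + 1)) := by rw [sum_const, card_univ, Fintype.card_fin, nsmul_eq_mul]
    _ ≤ η := by
        rw [mul_div_assoc', div_le_iff₀ (by positivity)]
        nlinarith

/-- assembling the coordinates -/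
noncomputable def PH (x : Fin 2 ⊕ Fin k → ℝ) : ℂ × (Fin k → ℝ) :=
  ((x (Sum.inl 0) : ℂ) + (x (Sum.inl 1) : ℂ) * Complex.I, fun i => x (Sum.inr i))

lemma PH_cont : Continuous (PH : (Fin 2 ⊕ Fin k → ℝ) → ℂ × (Fin k → ℝ)) := by
  unfold PH; fun_prop

lemma PH_EV (a : Fin k → ℤ × ℤ) (z : ℤ × ℤ) : PH (EV a z) = (dir z, fun i => En √(nm (z - a i) : ℝ)) := by
  unfold PH EV
  simp only [Sum.elim_inl, Sum.elim_inr, if_true, one_ne_zero, if_false]
  rw [Complex.re_add_im]

/-- a set has the right density if its boundary is negligible -/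
theorem law_set (a : Fin k → ℤ × ℤ) {μ : ProbabilityMeasure (Fin 2 ⊕ Fin k → ℝ)}
    (h : ∀ f : (Fin 2 ⊕ Fin k → ℝ) → ℝ, Continuous f → (∃ B, ∀ x, |f x| ≤ B) →
      Tendsto (fun j => fav (SD j) (fun n => f (EV a (zz n)))) atTop (𝓝 (∫ x, f x ∂(μ : Measure (Fin 2 ⊕ Fin k → ℝ)))))
    (D : Set (Fin 2 ⊕ Fin k → ℝ)) [DecidablePred (· ∈ D)] (hD : (μ : Measure (Fin 2 ⊕ Fin k → ℝ)) (frontier D) = 0) :
    Tendsto (fun j => fav (SD j) (fun n => if EV a (zz n) ∈ D then (1:ℝ) else 0)) atTop
      (𝓝 ((μ : Measure (Fin 2 ⊕ Fin k → ℝ)).real D)) := by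
  haveI : ∀ j, IsProbabilityMeasure (emp (SD j) (fun n => EV a (zz n))) := fun j => emp_prob (SD_ne j) _
  set P : ℕ → ProbabilityMeasure (Fin 2 ⊕ Fin k → ℝ) := fun j => ⟨emp (SD j) (fun n => EV a (zz n)), inferInstance⟩ with hP
  have h1 : Tendsto P atTop (𝓝 μ) := by
    rw [ProbabilityMeasure.tendsto_iff_forall_integral_tendsto]
    intro f
    have h2 := h f f.continuous ⟨‖f‖, fun x => by rw [← Real.norm_eq_abs]; exact f.norm_coe_le_norm x⟩
    refine h2.congr (fun j => ?_)
    exact (emp_int (SD j) _ f.continuous).symm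
  have h2 := ProbabilityMeasure.tendsto_measure_of_null_frontier_of_tendsto' h1 hD
  have h3 := (ENNReal.tendsto_toReal (measure_ne_top (μ : Measure (Fin 2 ⊕ Fin k → ℝ)) D)).comp h2
  refine h3.congr (fun j => ?_)
  simp only [Function.comp, hP, ProbabilityMeasure.coe_mk]
  have hms : (emp (SD j) (fun n => EV a (zz n))) D = ((SD j).card : ENNReal)⁻¹ * ∑ n ∈ SD j, (if EV a (zz n) ∈ D then (1:ENNReal) else 0) := by
    unfold Pool.Agent.H425R3.JL.emp
    rw [Measure.smul_apply, Measure.coe_finsetSum, Finset.sum_apply, smul_eq_mul]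
    congr 1
    apply sum_congr rfl
    intro n _
    rw [Measure.dirac_apply, Set.indicator_apply]
    simp only [Pi.one_apply]
  rw [hms, ENNReal.toReal_mul, ENNReal.toReal_inv, ENNReal.toReal_natCast, ENNReal.toReal_sum (by intro n _; split_ifs <;> simp)]
  unfold fav
  rw [div_eq_inv_mul]
  congr 1
  apply sum_congr rfl
  intro n _
  beta_reduce
  by_cases hh : EV a (zz n) ∈ D
  · rw [if_pos hh, if_pos hh, ENNReal.toReal_one]
  · rw [if_neg hh, if_neg hh, ENNReal.toReal_zero]

/-- the uniform distribution on the unit circle -/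
noncomputable def circ : Measure ℂ :=
  ENNReal.ofReal (1 / (2 * Real.pi)) • (volume.restrict (Set.Ioc (-Real.pi) Real.pi)).map (fun t : ℝ => Complex.exp (t * Complex.I))

lemma circ_meas : Measurable (fun t : ℝ => Complex.exp (t * Complex.I)) := by fun_prop

instance circ_prob : IsProbabilityMeasure circ := by
  constructor
  unfold circ
  rw [Measure.smul_apply, Measure.map_apply circ_meas MeasurableSet.univ, Set.preimage_univ, Measure.restrict_apply_univ,
    Real.volume_Ioc, smul_eq_mul, ← ENNReal.ofReal_mul (by positivity)]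
  have hpi := Real.pi_pos
  have : 1 / (2 * Real.pi) * (Real.pi - -Real.pi) = 1 := by field_simp; ring
  rw [this, ENNReal.ofReal_one]

lemma circ_int {g : ℂ → ℂ} (hg : Continuous g) : ∫ w, g w ∂circ = ang g := by
  unfold circ ang
  have hpi := Real.pi_pos
  rw [integral_smul_measure, integral_map circ_meas.aemeasurable hg.aestronglyMeasurable,
    intervalIntegral.integral_of_le (by linarith), ENNReal.toReal_ofReal (by positivity), Complex.real_smul]
  push_cast
  rw [div_mul_eq_mul_div, one_mul]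

lemma circ_norm : ∀ᵐ w ∂circ, ‖w‖ = 1 := by
  unfold circ
  apply Measure.ae_smul_measure
  rw [ae_map_iff circ_meas.aemeasurable (measurableSet_eq_fun (by fun_prop) (by fun_prop))]
  refine Eventually.of_forall (fun t => ?_)
  exact Complex.norm_exp_ofReal_mul_I t

/-- the joint law -/
theorem joint (a : Fin k → ℤ × ℤ) {ν : ProbabilityMeasure ℝ}
    (hν : ∀ F : ℝ → ℝ, Continuous F → (∃ B, ∀ x, |F x| ≤ B) →
      Tendsto (fun j => fav (SI j) (fun n => F (En √(n:ℝ)))) atTop (𝓝 (∫ x, F x ∂(ν : Measure ℝ)))) :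
    ∃ μ : ProbabilityMeasure (ℂ × (Fin k → ℝ)),
      Integrable (fun x : ℂ × (Fin k → ℝ) => ∑ i, (x.2 i)^2) (μ : Measure (ℂ × (Fin k → ℝ))) ∧
      (∀ f : ℂ × (Fin k → ℝ) → ℝ, Continuous f → (∃ C, ∀ x, |f x| ≤ C * (1 + ∑ i, (x.2 i)^2)) →
        Tendsto (fun j => fav (SD j) (fun n => f (dir (zz n), fun i => En √(nm (zz n - a i) : ℝ)))) atTop
          (𝓝 (∫ x, f x ∂(μ : Measure (ℂ × (Fin k → ℝ)))))) ∧
      (∀ (D : Set (ℂ × (Fin k → ℝ))) [DecidablePred (· ∈ D)], (μ : Measure (ℂ × (Fin k → ℝ))) (frontier D) = 0 →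
        Tendsto (fun j => fav (SD j) (fun n => if (dir (zz n), fun i => En √(nm (zz n - a i) : ℝ)) ∈ D then (1:ℝ) else 0)) atTop
          (𝓝 ((μ : Measure (ℂ × (Fin k → ℝ))).real D))) ∧
      (∀ i, (μ : Measure (ℂ × (Fin k → ℝ))).map (fun x => (x.1, x.2 i)) = circ.prod (ν : Measure ℝ)) := by
  obtain ⟨μ', m1, m2⟩ := law (UV_TS a) SD_ne SD_Av (UV_Ap a)
  have hPm : AEMeasurable (PH : (Fin 2 ⊕ Fin k → ℝ) → ℂ × (Fin k → ℝ)) (μ' : Measure (Fin 2 ⊕ Fin k → ℝ)) :=
    PH_cont.measurable.aemeasurable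
  set μ : ProbabilityMeasure (ℂ × (Fin k → ℝ)) := μ'.map hPm with hμ
  have hμc : (μ : Measure (ℂ × (Fin k → ℝ))) = (μ' : Measure (Fin 2 ⊕ Fin k → ℝ)).map PH := by
    rw [hμ, ProbabilityMeasure.toMeasure_map]
  have hq : ∀ x : Fin 2 ⊕ Fin k → ℝ, ∑ i, ((PH x).2 i)^2 ≤ q x := by
    intro x
    unfold q PH
    rw [Fintype.sum_sum_type]
    have : 0 ≤ ∑ i : Fin 2, (x (Sum.inl i))^2 := sum_nonneg fun _ _ => sq_nonneg _
    linarith
  have hlaw : ∀ f : ℂ × (Fin k → ℝ) → ℝ, Continuous f → (∃ C, ∀ x, |f x| ≤ C * (1 + ∑ i, (x.2 i)^2)) →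
        Tendsto (fun j => fav (SD j) (fun n => f (dir (zz n), fun i => En √(nm (zz n - a i) : ℝ)))) atTop
          (𝓝 (∫ x, f x ∂(μ : Measure (ℂ × (Fin k → ℝ))))) := by
    intro f hf hC
    obtain ⟨C, hC⟩ := hC
    have hC0 : 0 ≤ C := by
      have h1 := (abs_nonneg _).trans (hC (0, 0))
      simp only [Pi.zero_apply, ne_eq, OfNat.ofNat_ne_zero, not_false_eq_true, zero_pow, sum_const_zero, add_zero, mul_one] at h1
      exact h1
    have h1 := m2 (fun x => f (PH x)) (hf.comp PH_cont) ⟨C, fun x => (hC _).trans (by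
      apply mul_le_mul_of_nonneg_left _ hC0
      linarith [hq x])⟩
    rw [hμc, integral_map hPm hf.aestronglyMeasurable]
    simp only [PH_EV] at h1
    exact h1
  refine ⟨μ, ?_, hlaw, ?_, ?_⟩
  · rw [hμc, integrable_map_measure (by fun_prop) hPm]
    apply m1.mono' (by
      apply Continuous.aestronglyMeasurable
      have := PH_cont (k := k)
      fun_prop)
    refine Eventually.of_forall (fun x => ?_)
    simp only [Function.comp]
    rw [Real.norm_eq_abs, abs_of_nonneg (sum_nonneg fun _ _ => sq_nonneg _)]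
    exact hq x
  · intro D _ hD
    classical
    have h1 : (μ' : Measure (Fin 2 ⊕ Fin k → ℝ)) (frontier (PH ⁻¹' D)) = 0 := by
      apply measure_mono_null (PH_cont.frontier_preimage_subset D)
      rw [hμc, Measure.map_apply PH_cont.measurable isClosed_frontier.measurableSet] at hD
      exact hD
    have h2 := law_set a (fun f hf hB => m2 f hf (by
      obtain ⟨B, hB⟩ := hB
      refine ⟨B, fun x => ?_⟩
      have h3 := hB x
      have h4 : 0 ≤ B := (abs_nonneg _).trans h3
      nlinarith [q_nonneg x])) (PH ⁻¹' D) h1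
    have h3 : (μ' : Measure (Fin 2 ⊕ Fin k → ℝ)).real (PH ⁻¹' D) = (μ : Measure (ℂ × (Fin k → ℝ))).real D := by
      have hn : NullMeasurableSet D (μ : Measure (ℂ × (Fin k → ℝ))) := nullMeasurableSet_of_null_frontier hD
      unfold Measure.real
      congr 1
      rw [hμc] at hn ⊢
      rw [Measure.map_apply₀ hPm hn]
    rw [h3] at h2
    refine h2.congr (fun j => ?_)
    congr 1; funext n
    have : (EV a (zz n) ∈ PH ⁻¹' D) ↔ (dir (zz n), fun i => En √(nm (zz n - a i) : ℝ)) ∈ D := by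
      rw [Set.mem_preimage, PH_EV]
    by_cases hh : (dir (zz n), fun i => En √(nm (zz n - a i) : ℝ)) ∈ D
    · rw [if_pos hh, if_pos (this.mpr hh)]
    · rw [if_neg hh, if_neg (fun h => hh (this.mp h))]
  · intro i
    have hm : Measurable (fun x : ℂ × (Fin k → ℝ) => (x.1, x.2 i)) := by fun_prop
    haveI : IsProbabilityMeasure ((μ : Measure (ℂ × (Fin k → ℝ))).map (fun x => (x.1, x.2 i))) :=
      Measure.isProbabilityMeasure_map hm.aemeasurable
    rw [← charFunDual_eq_prod_iff]
    intro L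
    -- the two parts of the functional
    set L1 : ℂ → ℝ := fun w => L (w, 0) with hL1
    set c : ℝ := L (0, 1) with hc
    have hL : ∀ (w : ℂ) (x : ℝ), L (w, x) = L1 w + c * x := by
      intro w x
      have e1 : ((w, x) : ℂ × ℝ) = (w, 0) + x • ((0 : ℂ), (1 : ℝ)) := by
        ext <;> simp
      rw [e1, map_add, map_smul, smul_eq_mul, hL1, hc]
      ring
    have hL1c : Continuous L1 := by
      rw [hL1]; fun_prop
    set g : C(ℂ, ℂ) := EX ⟨L1, hL1c⟩ with hg
    -- the left side as a limit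
    have hF1 : ∀ x y : ℝ, |Real.cos (c * x) - Real.cos (c * y)| ≤ |c| * |x - y| := by
      intro x y
      have := Real.abs_cos_sub_cos_le (c * x) (c * y)
      rwa [← mul_sub, abs_mul] at this
    have hF2 : ∀ x y : ℝ, |Real.sin (c * x) - Real.sin (c * y)| ≤ |c| * |x - y| := by
      intro x y
      have := Real.abs_sin_sub_sin_le (c * x) (c * y)
      rwa [← mul_sub, abs_mul] at this
    have t1 := ctr_law (a i) (fun x => Real.cos (c * x)) (fun x => Real.abs_cos_le_one _) (abs_nonneg c) hF1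
      (hν (fun x => Real.cos (c * x)) (by fun_prop) ⟨1, fun x => Real.abs_cos_le_one _⟩) g
    have t2 := ctr_law (a i) (fun x => Real.sin (c * x)) (fun x => Real.abs_sin_le_one _) (abs_nonneg c) hF2
      (hν (fun x => Real.sin (c * x)) (by fun_prop) ⟨1, fun x => Real.abs_sin_le_one _⟩) g
    have t3 := t1.add (t2.const_mul Complex.I)
    -- the left side from the law
    set F : ℂ × (Fin k → ℝ) → ℝ := fun x => L (x.1, x.2 i) with hF
    have hFc : Continuous F := by
      rw [hF]; fun_prop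
    have hb : ∀ y : ℝ, 1 ≤ 1 * (1 + y^2) := fun y => by nlinarith [sq_nonneg y]
    have hs : ∀ x : ℂ × (Fin k → ℝ), 0 ≤ ∑ i, (x.2 i)^2 := fun x => sum_nonneg fun _ _ => sq_nonneg _
    have s1 := hlaw (fun x => Real.cos (F x)) (by fun_prop) ⟨1, fun x => (Real.abs_cos_le_one _).trans (by linarith [hs x])⟩
    have s2 := hlaw (fun x => Real.sin (F x)) (by fun_prop) ⟨1, fun x => (Real.abs_sin_le_one _).trans (by linarith [hs x])⟩
    have s3 := ((Complex.continuous_ofReal.tendsto _).comp s1).add (((Complex.continuous_ofReal.tendsto _).comp s2).const_mul Complex.I)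
    have hfun : ∀ n, ((Real.cos (F (dir (zz n), fun i => En √(nm (zz n - a i) : ℝ))) : ℝ) : ℂ) +
        Complex.I * ((Real.sin (F (dir (zz n), fun i => En √(nm (zz n - a i) : ℝ))) : ℝ) : ℂ) =
        g (dir (zz n)) * ((Real.cos (c * En √(nm (zz n - a i) : ℝ)) : ℝ) : ℂ) +
        Complex.I * (g (dir (zz n)) * ((Real.sin (c * En √(nm (zz n - a i) : ℝ)) : ℝ) : ℂ)) := by
      intro n
      simp only [hF]
      rw [hL, hg]
      simp only [EX, ContinuousMap.coe_mk]
      rw [Complex.ofReal_cos, Complex.ofReal_sin, Complex.ofReal_cos, Complex.ofReal_sin]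
      have e1 : ∀ y : ℂ, Complex.cos y + Complex.I * Complex.sin y = Complex.exp (y * Complex.I) := by
        intro y; rw [Complex.exp_mul_I]; ring
      have e2 : ∀ (u y : ℂ), u * Complex.cos y + Complex.I * (u * Complex.sin y) = u * Complex.exp (y * Complex.I) := by
        intro u y; rw [Complex.exp_mul_I]; ring
      rw [e1, e2, ← Complex.exp_add]
      congr 1
      push_cast
      ring
    have heq : ∀ j, ((fav (SD j) (fun n => Real.cos (F (dir (zz n), fun i => En √(nm (zz n - a i) : ℝ)))) : ℝ) : ℂ) +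
        Complex.I * ((fav (SD j) (fun n => Real.sin (F (dir (zz n), fun i => En √(nm (zz n - a i) : ℝ)))) : ℝ) : ℂ) =
        cav (SD j) (fun n => g (dir (zz n)) * ((Real.cos (c * En √(nm (zz n - a i) : ℝ)) : ℝ) : ℂ)) +
        Complex.I * cav (SD j) (fun n => g (dir (zz n)) * ((Real.sin (c * En √(nm (zz n - a i) : ℝ)) : ℝ) : ℂ)) := by
      intro j
      rw [← cav_ofReal, ← cav_ofReal, ← smul_eq_mul, ← smul_eq_mul, ← cav_smul, ← cav_smul, ← cav_add, ← cav_add]
      congr 1
      funext n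
      simp only [Pi.add_apply, Pi.smul_apply, smul_eq_mul]
      exact hfun n
    have hlim := tendsto_nhds_unique (s3.congr (fun j => by simpa only [Function.comp] using heq j)) t3
    have hcs : ∀ {Ω : Type} [MeasurableSpace Ω] (P : Measure Ω) [IsFiniteMeasure P] (H : Ω → ℝ), Measurable H →
        ∫ x, Complex.exp ((H x : ℂ) * Complex.I) ∂P = ((∫ x, Real.cos (H x) ∂P : ℝ) : ℂ) + Complex.I * ((∫ x, Real.sin (H x) ∂P : ℝ) : ℂ) := by
      intro Ω _ P _ H hH
      rw [← integral_complex_ofReal, ← integral_complex_ofReal, ← integral_const_mul, ← integral_add]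
      · congr 1; funext x
        rw [Complex.exp_mul_I]
        push_cast
        ring
      · apply Integrable.ofReal
        apply Integrable.of_bound (C := 1) (Real.measurable_cos.comp hH).aestronglyMeasurable
        exact Eventually.of_forall fun x => by rw [Real.norm_eq_abs]; exact Real.abs_cos_le_one _
      · apply Integrable.const_mul
        apply Integrable.ofReal
        apply Integrable.of_bound (C := 1) (Real.measurable_sin.comp hH).aestronglyMeasurable
        exact Eventually.of_forall fun x => by rw [Real.norm_eq_abs]; exact Real.abs_sin_le_one _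
    have g1 : charFunDual ((μ : Measure (ℂ × (Fin k → ℝ))).map (fun x => (x.1, x.2 i))) L =
        ((∫ x, Real.cos (F x) ∂(μ : Measure (ℂ × (Fin k → ℝ))) : ℝ) : ℂ) + Complex.I * ((∫ x, Real.sin (F x) ∂(μ : Measure (ℂ × (Fin k → ℝ))) : ℝ) : ℂ) := by
      rw [charFunDual_apply, integral_map hm.aemeasurable (by
        apply Continuous.aestronglyMeasurable; fun_prop)]
      exact hcs _ F hFc.measurable
    have g2 : charFunDual circ (L.comp (.inl ℝ ℂ ℝ)) = ang g := by
      rw [charFunDual_apply, ← circ_int g.continuous]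
      rfl
    have g3 : charFunDual (ν : Measure ℝ) (L.comp (.inr ℝ ℂ ℝ)) =
        ((∫ x, Real.cos (c * x) ∂(ν : Measure ℝ) : ℝ) : ℂ) + Complex.I * ((∫ x, Real.sin (c * x) ∂(ν : Measure ℝ) : ℝ) : ℂ) := by
      rw [charFunDual_apply]
      have : ∀ x : ℝ, (L.comp (.inr ℝ ℂ ℝ)) x = c * x := by
        intro x
        have := hL 0 x
        simp only [hL1] at this
        have e1 : L ((0 : ℂ), (0 : ℝ)) = 0 := map_zero L
        rw [e1, zero_add] at this
        exact this
      simp only [this]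
      exact hcs _ (fun x => c * x) (by fun_prop)
    rw [g1, g2, g3, hlim]
    ring

end Pool.Agent.W2helper83.GZ
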