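import Pool.Agent.W2helper83.GZ.ES

/-! The mean-square approximation over the Gaussian integers. -/

open Filter Topology MeasureTheory
open Pool.Agent.H383
open Pool.Agent.H383.AP
open Pool.Agent.H383.Gen (Bd U Ap)
open Pool.Agent.H383.Gauss Pool.Agent.H383.Circ
open Pool.Agent.H425R3.JL
open Pool.Agent.H469R2.NK
open Pool.Agent.H452R2.Win Pool.Agent.H452R2.Om
open Pool.Agent.W24.CP
open Finset

namespace Pool.Agent.W2helper83.GZ

lemma quad_gen {κ : Type*} (P : Finset κ) (y : κ → ℝ) (T : Finset ℕ) (a θ : ℕ → ℝ) {B : ℝ}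
    (hB : ∀ m ∈ T, ∀ m' ∈ T, m ≠ m' → ‖∑ p ∈ P, e ((θ m - θ m') * y p)‖ ≤ B) (hB0 : 0 ≤ B) :
    ∑ p ∈ P, ‖∑ m ∈ T, ((a m : ℝ) : ℂ) * e (θ m * y p)‖^2 ≤ P.card * ∑ m ∈ T, (a m)^2 + (∑ m ∈ T, |a m|)^2 * B := by
  have e1 : ((∑ p ∈ P, ‖∑ m ∈ T, ((a m : ℝ) : ℂ) * e (θ m * y p)‖^2 : ℝ) : ℂ) =
      ∑ m ∈ T, ∑ m' ∈ T, ((a m * a m' : ℝ) : ℂ) * ∑ p ∈ P, e ((θ m - θ m') * y p) := by
    have h1 : ∀ p ∈ P, ((‖∑ m ∈ T, ((a m : ℝ) : ℂ) * e (θ m * y p)‖^2 : ℝ) : ℂ) =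
        ∑ m ∈ T, ∑ m' ∈ T, ((a m * a m' : ℝ) : ℂ) * e ((θ m - θ m') * y p) := by
      intro p _
      have : ((‖∑ m ∈ T, ((a m : ℝ) : ℂ) * e (θ m * y p)‖^2 : ℝ) : ℂ) =
          (∑ m ∈ T, ((a m : ℝ) : ℂ) * e (θ m * y p)) * (starRingEnd ℂ) (∑ m ∈ T, ((a m : ℝ) : ℂ) * e (θ m * y p)) := by
        rw [Complex.mul_conj, Complex.normSq_eq_norm_sq]
      rw [this, map_sum, sum_mul_sum]
      apply sum_congr rfl; intro m _
      apply sum_congr rfl; intro m' _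
      rw [map_mul, conj_e, Complex.conj_ofReal, sub_mul, sub_eq_add_neg, e_add]
      push_cast; ring
    push_cast
    push_cast at h1
    rw [sum_congr rfl h1, sum_comm]
    apply sum_congr rfl; intro m _
    rw [sum_comm]
    apply sum_congr rfl; intro m' _
    rw [mul_sum]
  have e2 : ∑ p ∈ P, ‖∑ m ∈ T, ((a m : ℝ) : ℂ) * e (θ m * y p)‖^2 =
      ‖((∑ p ∈ P, ‖∑ m ∈ T, ((a m : ℝ) : ℂ) * e (θ m * y p)‖^2 : ℝ) : ℂ)‖ := by
    rw [Complex.norm_real, Real.norm_eq_abs, abs_of_nonneg (sum_nonneg fun _ _ => by positivity)]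
  rw [e2, e1]
  have h3 : ∀ m ∈ T, ∀ m' ∈ T, ‖((a m * a m' : ℝ) : ℂ) * ∑ p ∈ P, e ((θ m - θ m') * y p)‖ ≤
      (if m = m' then (P.card:ℝ) * (a m)^2 else 0) + |a m| * |a m'| * B := by
    intro m hm m' hm'
    rw [norm_mul, Complex.norm_real, Real.norm_eq_abs, abs_mul]
    by_cases h : m = m'
    · subst h
      rw [if_pos rfl]
      have h4 : ‖∑ p ∈ P, e ((θ m - θ m) * y p)‖ ≤ P.card := by
        refine (norm_sum_le _ _).trans ?_
        simp only [norm_e, sum_const, nsmul_eq_mul, mul_one, le_refl]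
      have h5 : |a m| * |a m| = (a m)^2 := by rw [← sq, sq_abs]
      rw [h5]
      have h6 := mul_le_mul_of_nonneg_left h4 (sq_nonneg (a m))
      have h7 : 0 ≤ (a m)^2 * B := by positivity
      linarith
    · rw [if_neg h, zero_add]
      exact mul_le_mul_of_nonneg_left (hB m hm m' hm' h) (by positivity)
  calc _ ≤ ∑ m ∈ T, ∑ m' ∈ T, ((if m = m' then (P.card:ℝ) * (a m)^2 else 0) + |a m| * |a m'| * B) := by
        refine (norm_sum_le _ _).trans (sum_le_sum fun m hm => ?_)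
        exact (norm_sum_le _ _).trans (sum_le_sum fun m' hm' => h3 m hm m' hm')
    _ = P.card * ∑ m ∈ T, (a m)^2 + (∑ m ∈ T, |a m|)^2 * B := by
        have h4 : ∀ m ∈ T, ∑ m' ∈ T, ((if m = m' then (P.card:ℝ) * (a m)^2 else 0) + |a m| * |a m'| * B) =
            (P.card:ℝ) * (a m)^2 + |a m| * (∑ m' ∈ T, |a m'|) * B := by
          intro m hm
          rw [sum_add_distrib, sum_ite_eq, if_pos hm, ← sum_mul, ← mul_sum]
        rw [sum_congr rfl h4, sum_add_distrib, ← mul_sum, ← sum_mul, ← sum_mul]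
        ring


/-- abbreviation for the truncated series -/
noncomputable def UG (R : ℝ) (M : ℕ) : ℝ := U ag (3 * Real.pi/4) R M

lemma ag_sq_summable : Summable (fun m : ℕ => (ag m)^2) := by
  obtain ⟨Cb, hCb, hb⟩ := ag_Bdw.Bd
  have h1 : Summable (fun m : ℕ => Cb^2 * (m:ℝ) ^ (-(37/25):ℝ)) := by
    apply Summable.mul_left
    rw [Real.summable_nat_rpow]; norm_num
  apply Summable.of_nonneg_of_le (fun m => sq_nonneg _) _ h1
  intro m
  rcases Nat.eq_zero_or_pos m with rfl | hm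
  · rw [ag_zero, zero_pow (by norm_num)]; positivity
  · have h2 := hb m hm
    have hm0 : (0:ℝ) < m := by exact_mod_cast hm
    rw [← sq_abs]
    calc |ag m|^2 ≤ (Cb * (√(m:ℝ)) ^ (-(37/25):ℝ))^2 := pow_le_pow_left₀ (abs_nonneg _) h2 2
      _ = Cb^2 * ((√(m:ℝ)) ^ (-(37/25):ℝ))^2 := by ring
      _ = _ := by
          congr 1
          rw [Real.sqrt_eq_rpow, ← Real.rpow_mul hm0.le, ← Real.rpow_natCast, ← Real.rpow_mul hm0.le]
          norm_num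

/-- the mean square over the Gaussian integers -/
theorem disc_ms {η : ℝ} (hη : 0 < η) : ∃ M0 : ℕ, ∀ M : ℕ, M0 ≤ M → ∃ N0 : ℕ, ∀ N : ℕ, N0 ≤ N →
      ∑ z ∈ disc N, (En √(nm z : ℝ) - UG √(nm z : ℝ) M)^2 ≤ η * (disc N).card := by
  obtain ⟨ω, hω, hω2, C, hC, hlin⟩ := SM.ms_total ag_Bdw ag_zero wg_Wt En_SandW (c := 1) one_pos
  obtain ⟨Ca, hCa0, hCa⟩ := a_sqrt ag_Bdw.Bd
  obtain ⟨Ces, hCes, hes⟩ := disc_es
  have hsum := ag_sq_summable
  rw [summable_iff_vanishing_norm] at hsum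
  obtain ⟨s, hs⟩ := hsum (η/4) (by positivity)
  obtain ⟨K0, hK0⟩ : ∃ K0 : ℕ, ∀ m ∈ s, m ≤ K0 := ⟨s.sup id, fun m hm => Finset.le_sup (f := id) hm⟩
  refine ⟨K0 + 1, fun M hM => ?_⟩
  have hM1 : 1 ≤ M := by omega
  have htail : ∀ M' : ℕ, ∑ m ∈ Ioc (M^2) (M'^2), (ag m)^2 ≤ η/4 := by
    intro M'
    have h1 := hs (Ioc (M^2) (M'^2)) (by
      rw [disjoint_left]
      intro m hm hm2
      rw [mem_Ioc] at hm
      have := hK0 m hm2
      nlinarith)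
    rw [Real.norm_eq_abs] at h1
    exact (le_abs_self _).trans h1.le
  set δ : ℝ := ω / 1024 with hδ
  have hδ0 : 0 < δ := by positivity
  have hδ1 : δ ≤ 1/204800 := by rw [hδ]; linarith
  obtain ⟨Cf, hCf, hfib⟩ := fib_bound (κ := δ/2) (by positivity)
  set D : ℝ := 4 * C * Cf + 8 * Ca^2 * Ces with hD
  have hD0 : 0 < D := by positivity
  have hpi3 := Real.pi_gt_three
  have ev1 : ∀ᶠ N : ℕ in Filter.atTop, D / η ≤ (N:ℝ) ^ (δ/2) :=
    (((tendsto_rpow_atTop (by positivity : (0:ℝ) < δ/2)).comp tendsto_natCast_atTop_atTop).eventually_ge_atTop _)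
  have ev2 : ∀ᶠ N : ℕ in Filter.atTop, (2:ℝ) < ((disc N).card : ℝ) / N := card_disc.eventually_const_lt (by linarith)
  obtain ⟨N1, hN1⟩ := Filter.eventually_atTop.mp (ev1.and ev2)
  refine ⟨max N1 (max (M^1024) 9), fun N hN => ?_⟩
  have hNN1 : N1 ≤ N := le_trans (le_max_left _ _) hN
  have hNM : M^1024 ≤ N := le_trans (le_trans (le_max_left _ _) (le_max_right _ _)) hN
  have hN9 : 9 ≤ N := le_trans (le_trans (le_max_right _ _) (le_max_right _ _)) hN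
  obtain ⟨g1, g2⟩ := hN1 N hNN1
  have hNr : (9:ℝ) ≤ N := by exact_mod_cast hN9
  have hNone : (1:ℝ) ≤ N := by linarith
  have hNpos : (0:ℝ) < N := by linarith
  set u : ℝ := (N:ℝ) ^ (1/1024:ℝ) with hu
  have hu1 : 1 ≤ u := Real.one_le_rpow hNone (by norm_num)
  set M' : ℕ := ⌊u⌋₊ with hM'
  have hMr : (1:ℝ) ≤ M := by exact_mod_cast hM1
  have hMM : M ≤ M' := by
    rw [hM', Nat.le_floor_iff (by linarith), hu]
    calc (M:ℝ) = ((M:ℝ)^1024) ^ (1/1024:ℝ) := by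
          rw [← Real.rpow_natCast, ← Real.rpow_mul (by linarith)]; norm_num
      _ ≤ _ := Real.rpow_le_rpow (by positivity) (by exact_mod_cast hNM) (by norm_num)
  have hM'1 : 1 ≤ M' := by omega
  have hM'u : (M':ℝ) ≤ u := Nat.floor_le (by linarith)
  have hM'r : (1:ℝ) ≤ M' := by exact_mod_cast hM'1
  have huM' : u / 2 ≤ M' := by
    have h1 := Nat.lt_floor_add_one u
    rw [← hM'] at h1
    linarith
  have hM'40 : M'^40 ≤ N := by
    have : (M':ℝ)^40 ≤ N := by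
      calc (M':ℝ)^40 ≤ u^40 := pow_le_pow_left₀ (by linarith) hM'u 40
        _ = (N:ℝ) ^ (40/1024:ℝ) := by rw [hu, ← Real.rpow_natCast, ← Real.rpow_mul hNpos.le]; norm_num
        _ ≤ (N:ℝ) ^ (1:ℝ) := Real.rpow_le_rpow_of_exponent_le hNone (by norm_num)
        _ = N := Real.rpow_one _
    exact_mod_cast this
  -- first part
  have h1 : ∑ z ∈ disc N, (En √(nm z : ℝ) - UG √(nm z : ℝ) M')^2 ≤ 2 * C * Cf * (N:ℝ) ^ (1 - δ/2) := by
    have e1 := sum_disc_nm N (fun n : ℕ => (En √(n : ℝ) - UG √(n : ℝ) M')^2)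
    simp only [nsmul_eq_mul] at e1
    have e2 := hlin M' N hM'1 hM'40
    simp only [one_mul] at e2
    calc _ = ∑ n ∈ range N, ((fib (n + 1)).card : ℝ) * (En √((n + 1 : ℕ) : ℝ) - UG √((n + 1 : ℕ) : ℝ) M')^2 := e1
      _ ≤ ∑ n ∈ range N, (Cf * (N:ℝ) ^ (δ/2)) * (En √((n + 1 : ℕ) : ℝ) - UG √((n + 1 : ℕ) : ℝ) M')^2 := by
          apply sum_le_sum; intro n hn
          rw [mem_range] at hn
          apply mul_le_mul_of_nonneg_right _ (sq_nonneg _)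
          refine (hfib (n + 1) (by omega)).trans ?_
          apply mul_le_mul_of_nonneg_left _ hCf.le
          apply Real.rpow_le_rpow (Nat.cast_nonneg _) _ (by positivity)
          exact_mod_cast hn
      _ = (Cf * (N:ℝ) ^ (δ/2)) * ∑ n ∈ Icc 1 N, (En √(n : ℝ) - UG √(n : ℝ) M')^2 := by
          rw [← mul_sum]
          congr 1
          rw [range_eq_Ico, sum_Ico_add' (fun n : ℕ => (En √(n : ℝ) - UG √(n : ℝ) M')^2) 0 N 1]
          apply sum_congr _ (fun _ _ => rfl)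
          ext n; simp only [mem_Icc, mem_Ico]; omega
      _ ≤ (Cf * (N:ℝ) ^ (δ/2)) * (C * (M':ℝ) ^ (-ω) * N) := mul_le_mul_of_nonneg_left e2 (by positivity)
      _ ≤ (Cf * (N:ℝ) ^ (δ/2)) * (C * (2 * (N:ℝ) ^ (-δ)) * N) := by
          have h2ω : (2:ℝ) ^ ω ≤ 2 := by
            calc (2:ℝ) ^ ω ≤ (2:ℝ) ^ (1:ℝ) := Real.rpow_le_rpow_of_exponent_le (by norm_num) (by linarith)
              _ = 2 := by norm_num
          have w1 : (M':ℝ) ^ (-ω) ≤ 2 * (N:ℝ) ^ (-δ) := by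
            calc (M':ℝ) ^ (-ω) ≤ (u/2) ^ (-ω) := Real.rpow_le_rpow_of_nonpos (by linarith) huM' (by linarith)
              _ = u ^ (-ω) * 2 ^ ω := by
                  rw [Real.div_rpow (by linarith) (by norm_num), Real.rpow_neg (by norm_num : (0:ℝ) ≤ 2)]
                  field_simp
              _ ≤ u ^ (-ω) * 2 := by gcongr
              _ = 2 * (N:ℝ) ^ (-δ) := by
                  rw [hu, ← Real.rpow_mul hNpos.le, mul_comm]
                  congr 2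
                  rw [hδ]; ring
          gcongr
      _ = 2 * C * Cf * ((N:ℝ) ^ (δ/2) * (N:ℝ) ^ (-δ) * N) := by ring
      _ = 2 * C * Cf * (N:ℝ) ^ (1 - δ/2) := by
          congr 1
          nth_rewrite 3 [← Real.rpow_one (N:ℝ)]
          rw [← Real.rpow_add hNpos, ← Real.rpow_add hNpos]; congr 1; ring
  -- second part
  have hoff : ∀ m ∈ Ioc (M^2) (M'^2), ∀ m' ∈ Ioc (M^2) (M'^2), m ≠ m' →
      ‖∑ z ∈ disc N, e ((1 * √(m:ℝ) - 1 * √(m':ℝ)) * √(nm z:ℝ))‖ ≤ Ces * (4 * (N:ℝ) ^ (127/128:ℝ)) := by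
    intro m hm m' hm' hne
    rw [mem_Ioc] at hm hm'
    have hm0 : (0:ℝ) < m := by exact_mod_cast (by omega : 0 < m)
    have hm'0 : (0:ℝ) < m' := by exact_mod_cast (by omega : 0 < m')
    have q1 : √(m:ℝ) * √(m:ℝ) = m := Real.mul_self_sqrt hm0.le
    have q2 : √(m':ℝ) * √(m':ℝ) = m' := Real.mul_self_sqrt hm'0.le
    have s1 : √(m:ℝ) ≤ M' := by
      rw [Real.sqrt_le_left (by positivity)]; exact_mod_cast hm.2
    have s2 : √(m':ℝ) ≤ M' := by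
      rw [Real.sqrt_le_left (by positivity)]; exact_mod_cast hm'.2
    have p1 : 0 < √(m:ℝ) := Real.sqrt_pos.mpr hm0
    have p2 : 0 < √(m':ℝ) := Real.sqrt_pos.mpr hm'0
    set d := |√(m:ℝ) - √(m':ℝ)| with hd
    have hd1 : d ≤ M' := by rw [hd, abs_le]; constructor <;> linarith
    have hd2 : 1 / (2 * (M':ℝ)) ≤ d := by
      have h3 : (1:ℝ) ≤ |(m:ℝ) - m'| := by
        have : (1:ℤ) ≤ |(m:ℤ) - m'| := Int.one_le_abs (by omega)
        exact_mod_cast this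
      have h4 : |(m:ℝ) - m'| = d * (√(m:ℝ) + √(m':ℝ)) := by
        rw [hd, ← abs_of_pos (by positivity : 0 < √(m:ℝ) + √(m':ℝ)), ← abs_mul]
        congr 1
        nlinarith
      rw [div_le_iff₀ (by positivity)]
      have h5 : d * (√(m:ℝ) + √(m':ℝ)) ≤ d * (2 * M') := mul_le_mul_of_nonneg_left (by linarith) (abs_nonneg _)
      linarith
    have hd0 : 0 < d := lt_of_lt_of_le (by positivity) hd2
    rw [one_mul, one_mul]
    have hne0 : √(m:ℝ) - √(m':ℝ) ≠ 0 := by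
      intro h
      rw [h, abs_zero] at hd
      linarith
    have key := hes N (by omega) _ hne0
    rw [← hd] at key
    refine key.trans ?_
    rw [mul_assoc]
    apply mul_le_mul_of_nonneg_left _ hCes.le
    have h5 : (M':ℝ) ≤ (N:ℝ) ^ (1/64:ℝ) := hM'u.trans (Real.rpow_le_rpow_of_exponent_le hNone (by norm_num))
    have h6 : 1 / d ≤ 2 * M' := by
      rw [div_le_iff₀ hd0]
      rw [div_le_iff₀ (by positivity)] at hd2
      linarith
    have h7 : (N:ℝ) ^ (1/64:ℝ) * (N:ℝ) ^ (7/8:ℝ) ≤ (N:ℝ) ^ (127/128:ℝ) := by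
      rw [← Real.rpow_add hNpos]
      apply Real.rpow_le_rpow_of_exponent_le hNone; norm_num
    calc (d + 1/d) * (N:ℝ) ^ (7/8:ℝ) ≤ (4 * (N:ℝ) ^ (1/64:ℝ)) * (N:ℝ) ^ (7/8:ℝ) := by
          apply mul_le_mul_of_nonneg_right _ (by positivity)
          linarith
      _ = 4 * ((N:ℝ) ^ (1/64:ℝ) * (N:ℝ) ^ (7/8:ℝ)) := by ring
      _ ≤ _ := by linarith
  have h2 : ∑ z ∈ disc N, (UG √(nm z:ℝ) M' - UG √(nm z:ℝ) M)^2 ≤
      (disc N).card * (η/4) + 4 * Ca^2 * Ces * (N:ℝ) ^ (1 - δ/2) := by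
    calc _ ≤ ∑ z ∈ disc N, ‖∑ m ∈ Ioc (M^2) (M'^2), ((ag m : ℝ) : ℂ) * e ((1 * √(m:ℝ)) * √(nm z:ℝ))‖^2 := by
          apply sum_le_sum; intro z _
          have := SA.U_sub_le (af := ag) (φ := 3 * Real.pi/4) 1 (nm z) hMM
          rw [one_mul] at this
          exact this
      _ ≤ (disc N).card * ∑ m ∈ Ioc (M^2) (M'^2), (ag m)^2 + (∑ m ∈ Ioc (M^2) (M'^2), |ag m|)^2 * (Ces * (4 * (N:ℝ) ^ (127/128:ℝ))) :=
          quad_gen (disc N) (fun z => √(nm z:ℝ)) (Ioc (M^2) (M'^2)) ag (fun m => 1 * √(m:ℝ)) hoff (by positivity)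
      _ ≤ (disc N).card * (η/4) + (Ca * (M':ℝ)^2)^2 * (Ces * (4 * (N:ℝ) ^ (127/128:ℝ))) := by
          have t1 := htail M'
          have t2 : ∑ m ∈ Ioc (M^2) (M'^2), |ag m| ≤ Ca * (M':ℝ)^2 := by
            calc ∑ m ∈ Ioc (M^2) (M'^2), |ag m| ≤ ∑ m ∈ Ioc (M^2) (M'^2), Ca := by
                  apply sum_le_sum; intro m hm
                  rw [mem_Ioc] at hm
                  exact (hCa m (by omega)).2
              _ = ((M'^2 - M^2 : ℕ):ℝ) * Ca := by rw [sum_const, Nat.card_Ioc, nsmul_eq_mul]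
              _ ≤ ((M'^2 : ℕ):ℝ) * Ca := by
                  apply mul_le_mul_of_nonneg_right _ hCa0.le
                  exact_mod_cast Nat.sub_le _ _
              _ = _ := by push_cast; ring
          have t3 : 0 ≤ ∑ m ∈ Ioc (M^2) (M'^2), |ag m| := sum_nonneg fun _ _ => abs_nonneg _
          gcongr
      _ ≤ (disc N).card * (η/4) + 4 * Ca^2 * Ces * (N:ℝ) ^ (1 - δ/2) := by
          have t4 : (M':ℝ)^4 ≤ (N:ℝ) ^ (1/256:ℝ) := by
            calc (M':ℝ)^4 ≤ u^4 := pow_le_pow_left₀ (by linarith) hM'u 4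
              _ = _ := by rw [hu, ← Real.rpow_natCast, ← Real.rpow_mul hNpos.le]; norm_num
          have t5 : (N:ℝ) ^ (1/256:ℝ) * (N:ℝ) ^ (127/128:ℝ) ≤ (N:ℝ) ^ (1 - δ/2) := by
            rw [← Real.rpow_add hNpos]
            apply Real.rpow_le_rpow_of_exponent_le hNone
            linarith
          have t6 : (Ca * (M':ℝ)^2)^2 * (Ces * (4 * (N:ℝ) ^ (127/128:ℝ))) = 4 * Ca^2 * Ces * ((M':ℝ)^4 * (N:ℝ) ^ (127/128:ℝ)) := by ring
          rw [t6]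
          have t7 : (M':ℝ)^4 * (N:ℝ) ^ (127/128:ℝ) ≤ (N:ℝ) ^ (1 - δ/2) :=
            (mul_le_mul_of_nonneg_right t4 (by positivity)).trans t5
          have t8 : 4 * Ca^2 * Ces * ((M':ℝ)^4 * (N:ℝ) ^ (127/128:ℝ)) ≤ 4 * Ca^2 * Ces * (N:ℝ) ^ (1 - δ/2) :=
            mul_le_mul_of_nonneg_left t7 (by positivity)
          linarith
  -- conclusion
  have hDN : D * (N:ℝ) ^ (1 - δ/2) ≤ (η/2) * (disc N).card := by
    have e2 : (N:ℝ) = (N:ℝ) ^ (1 - δ/2) * (N:ℝ) ^ (δ/2) := by rw [← Real.rpow_add hNpos]; norm_num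
    have g3 : (2:ℝ) * N ≤ (disc N).card := by
      rw [lt_div_iff₀ hNpos] at g2; linarith
    rw [div_le_iff₀ hη] at g1
    calc D * (N:ℝ) ^ (1 - δ/2) ≤ ((N:ℝ) ^ (δ/2) * η) * (N:ℝ) ^ (1 - δ/2) := by gcongr
      _ = η * ((N:ℝ) ^ (1 - δ/2) * (N:ℝ) ^ (δ/2)) := by ring
      _ = η * N := by rw [← e2]
      _ = (η/2) * (2 * N) := by ring
      _ ≤ _ := by gcongr
  calc ∑ z ∈ disc N, (En √(nm z : ℝ) - UG √(nm z : ℝ) M)^2 ≤
        ∑ z ∈ disc N, (2 * (En √(nm z : ℝ) - UG √(nm z : ℝ) M')^2 +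
          2 * (UG √(nm z:ℝ) M' - UG √(nm z:ℝ) M)^2) := by
        apply sum_le_sum; intro z _
        set x := En √(nm z : ℝ) - UG √(nm z : ℝ) M'
        set y := UG √(nm z:ℝ) M' - UG √(nm z:ℝ) M
        have e1 : En √(nm z : ℝ) - UG √(nm z : ℝ) M = x + y := by ring
        rw [e1]
        nlinarith [sq_nonneg (x - y)]
    _ = 2 * ∑ z ∈ disc N, (En √(nm z : ℝ) - UG √(nm z : ℝ) M')^2 +
          2 * ∑ z ∈ disc N, (UG √(nm z:ℝ) M' - UG √(nm z:ℝ) M)^2 := by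
        rw [sum_add_distrib, mul_sum, mul_sum]
    _ ≤ 2 * (2 * C * Cf * (N:ℝ) ^ (1 - δ/2)) + 2 * ((disc N).card * (η/4) + 4 * Ca^2 * Ces * (N:ℝ) ^ (1 - δ/2)) := by gcongr
    _ = D * (N:ℝ) ^ (1 - δ/2) + (η/2) * (disc N).card := by rw [hD]; ring
    _ ≤ _ := by linarith

end Pool.Agent.W2helper83.GZ
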