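import Pool.Agent.W2helper83.GZ.Ctr

/-! The direction is independent of each single error term, and the latter has the universal law. -/

open Filter Topology MeasureTheory
open Pool.Agent.H383
open Pool.Agent.H383.AP
open Pool.Agent.H383.Gen (Bd U Ap)
open Pool.Agent.H383.Gauss Pool.Agent.H383.Circ
open Pool.Agent.H425R3.JL
open Pool.Agent.H469R2.NK
open Pool.Agent.H452R2.Win Pool.Agent.H452R2.Om
open Pool.Agent.W24.CP
open Pool.Agent.W24.CP.SU (SI SI_ne SI_Av SI_card)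
open Finset

namespace Pool.Agent.W2helper83.GZ

/-- averages of radial trigonometric polynomials times functions of the direction -/
lemma rad_TS {t : ℕ → ℂ} (ht : t ∈ SL.TS) (g : C(ℂ, ℂ)) : ∃ L : ℂ, Tendsto (fun j => cav (SI j) t) atTop (𝓝 L) ∧
    Tendsto (fun j => cav (SD j) (fun n => g (dir (zz n)) * t (nm (zz n)))) atTop (𝓝 (ang g * L)) := by
  unfold SL.TS at ht
  induction ht using Submodule.span_induction with
  | mem x hx =>
    obtain ⟨θ, rfl⟩ := hx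
    refine ⟨SL.mcS θ, SI_Av θ, ?_⟩
    have h := SD_Av (θ, g)
    have e1 : ang g * SL.mcS θ = mcG (θ, g) := by
      unfold SL.mcS mcG
      by_cases h0 : θ = 0
      · rw [if_pos h0, if_pos h0, mul_one]; rfl
      · rw [if_neg h0, if_neg h0, mul_zero]
    rw [e1]
    refine h.congr (fun j => ?_)
    congr 1; funext n
    unfold chG SL.chS
    rw [mul_comm]
  | zero =>
    refine ⟨0, ?_, ?_⟩
    · have : ∀ j, cav (SI j) 0 = 0 := fun j => by simp [cav]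
      simp only [this]; exact tendsto_const_nhds
    · simp only [Pi.zero_apply, mul_zero]
      have : ∀ j, cav (SD j) (fun _ => 0) = 0 := fun j => by simp [cav]
      simp only [this]; exact tendsto_const_nhds
  | add x y _ _ hx hy =>
    obtain ⟨L, h1, h2⟩ := hx
    obtain ⟨L', h1', h2'⟩ := hy
    refine ⟨L + L', ?_, ?_⟩
    · refine (h1.add h1').congr (fun j => ?_)
      rw [cav_add]
    · rw [mul_add]
      refine (h2.add h2').congr (fun j => ?_)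
      rw [← cav_add]
      congr 1; funext n
      simp only [Pi.add_apply]
      ring
  | smul c x _ hx =>
    obtain ⟨L, h1, h2⟩ := hx
    refine ⟨c * L, ?_, ?_⟩
    · refine (h1.const_mul c).congr (fun j => ?_)
      rw [cav_smul, smul_eq_mul]
    · have e1 : ang g * (c * L) = c * (ang g * L) := by ring
      rw [e1]
      refine (h2.const_mul c).congr (fun j => ?_)
      rw [← smul_eq_mul, ← cav_smul]
      congr 1; funext n
      simp only [Pi.smul_apply, smul_eq_mul]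
      ring

lemma UG_TS (M : ℕ) : (fun n : ℕ => ((UG √(n:ℝ) M : ℝ) : ℂ)) ∈ SL.TS := by
  have e1 : (fun n : ℕ => ((UG √(n:ℝ) M : ℝ) : ℂ)) = ∑ m ∈ Icc 1 (M^2), (((ag m : ℝ) : ℂ) / 2) •
      (Complex.exp (((-(3 * Real.pi/4) : ℝ) : ℂ) * Complex.I) • SL.chS √(m:ℝ) + Complex.exp (((3 * Real.pi/4 : ℝ) : ℂ) * Complex.I) • SL.chS (-√(m:ℝ))) := by
    funext n
    unfold UG U
    rw [Finset.sum_apply, Complex.ofReal_sum]
    apply sum_congr rfl
    intro m _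
    simp only [Pi.add_apply, Pi.smul_apply, smul_eq_mul, SL.chS]
    rw [Complex.ofReal_mul, Complex.ofReal_cos, Complex.cos]
    unfold e
    rw [← Complex.exp_add, ← Complex.exp_add]
    have e1 : ((2 * Real.pi * (√(n:ℝ) * √(m:ℝ)) - 3 * Real.pi/4 : ℝ) : ℂ) * Complex.I =
      ((-(3 * Real.pi/4) : ℝ) : ℂ) * Complex.I + ((2 * Real.pi * (√(m:ℝ) * √(n:ℝ)) : ℝ) : ℂ) * Complex.I := by push_cast; ring
    have e2 : -((2 * Real.pi * (√(n:ℝ) * √(m:ℝ)) - 3 * Real.pi/4 : ℝ) : ℂ) * Complex.I =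
      ((3 * Real.pi/4 : ℝ) : ℂ) * Complex.I + ((2 * Real.pi * (-√(m:ℝ) * √(n:ℝ)) : ℝ) : ℂ) * Complex.I := by push_cast; ring
    rw [e1, e2]
    ring
  rw [e1]
  exact SL.TS.sum_mem fun m _ => SL.TS.smul_mem _ (SL.TS.add_mem (SL.TS.smul_mem _ (SL.TS_chr _)) (SL.TS.smul_mem _ (SL.TS_chr _)))

/-- the mean square over the integers -/
lemma int_ms {η : ℝ} (hη : 0 < η) : ∃ M0 : ℕ, ∀ M : ℕ, M0 ≤ M → ∃ j0 : ℕ, ∀ j : ℕ, j0 ≤ j →
      fav (SI j) (fun n => (En √(n:ℝ) - UG √(n:ℝ) M)^2) ≤ η := by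
  obtain ⟨ω, hω, hω2, C, hC, h⟩ := SM.ms_total ag_Bdw ag_zero wg_Wt En_SandW (c := 1) one_pos
  have ev : ∀ᶠ M : ℕ in Filter.atTop, C / η ≤ (M:ℝ) ^ ω :=
    (((tendsto_rpow_atTop hω).comp tendsto_natCast_atTop_atTop).eventually_ge_atTop _)
  obtain ⟨M1, hM1⟩ := Filter.eventually_atTop.mp ev
  refine ⟨M1 + 1, fun M hM => ⟨M^40, fun j hj => ?_⟩⟩
  have h1 := h M (j + 1) (by omega) (by omega)
  simp only [one_mul] at h1
  unfold fav SI
  rw [Nat.card_Icc, Nat.add_sub_cancel, div_le_iff₀ (by positivity)]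
  refine h1.trans ?_
  apply mul_le_mul_of_nonneg_right _ (Nat.cast_nonneg _)
  have h2 := hM1 M (by omega)
  have hM0 : (0:ℝ) < M := by exact_mod_cast (by omega : 0 < M)
  rw [div_le_iff₀ hη] at h2
  rw [Real.rpow_neg hM0.le, ← div_eq_mul_inv, div_le_iff₀ (by positivity)]
  linarith

/-- the mean square over the Gaussian integers -/
lemma rad_ms {η : ℝ} (hη : 0 < η) : ∃ M0 : ℕ, ∀ M : ℕ, M0 ≤ M → ∃ j0 : ℕ, ∀ j : ℕ, j0 ≤ j →
      fav (SD j) (fun n => (En √(nm (zz n) : ℝ) - UG √(nm (zz n) : ℝ) M)^2) ≤ η := by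
  obtain ⟨M0, h⟩ := disc_ms hη
  refine ⟨M0, fun M hM => ?_⟩
  obtain ⟨N0, h1⟩ := h M hM
  refine ⟨N0, fun j hj => ?_⟩
  rw [fav_SD (fun z => (En √(nm z : ℝ) - UG √(nm z : ℝ) M)^2), div_le_iff₀ (card_pos j)]
  exact h1 (j + 1) (by omega)

lemma ctr_fav (a : ℤ × ℤ) {η : ℝ} (hη : 0 < η) : ∃ M0 : ℕ, ∀ M : ℕ, M0 ≤ M → ∃ j0 : ℕ, ∀ j : ℕ, j0 ≤ j →
      fav (SD j) (fun n => (En √(nm (zz n - a) : ℝ) - UC M a (zz n))^2) ≤ η := by
  obtain ⟨M0, h⟩ := ctr_ms a hη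
  refine ⟨M0, fun M hM => ?_⟩
  obtain ⟨N0, h1⟩ := h M hM
  refine ⟨N0, fun j hj => ?_⟩
  rw [fav_SD (fun z => (En √(nm (z - a) : ℝ) - UC M a z)^2), div_le_iff₀ (card_pos j)]
  exact h1 (j + 1) (by omega)

/-- Cauchy–Schwarz for averages -/
lemma fav_abs_le {S : Finset ℕ} (hS : S.Nonempty) (x : ℕ → ℝ) {δ : ℝ} (hδ : 0 < δ) (h : fav S (fun n => (x n)^2) ≤ δ^2) :
    fav S (fun n => |x n|) ≤ δ := by
  have h1 : ∀ n, |x n| ≤ (x n)^2 * (1/(2*δ)) + δ/2 := by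
    intro n
    have := SX.am (x n) 1 δ hδ
    rw [abs_one, mul_one] at this
    linarith
  refine (fav_mono h1).trans ?_
  rw [fav_add, fav_const hS]
  have e1 : fav S (fun n => (x n)^2 * (1/(2*δ))) = (1/(2*δ)) * fav S (fun n => (x n)^2) := by
    rw [← fav_mul]; congr 1; funext n; ring
  rw [e1]
  calc 1/(2*δ) * fav S (fun n => (x n)^2) + δ/2 ≤ 1/(2*δ) * δ^2 + δ/2 := by gcongr
    _ = δ := by field_simp; norm_num

/-- Weierstrass approximation of a Lipschitz function of the error term -/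
lemma lip_approx {F : ℝ → ℝ} {Lp : ℝ} (hLp : 0 ≤ Lp) (hF : ∀ x y, |F x - F y| ≤ Lp * |x - y|) {ε : ℝ} (hε : 0 < ε) :
    ∃ t : ℕ → ℂ, t ∈ SL.TS ∧ ∃ j0 : ℕ, ∀ j, j0 ≤ j →
      fav (SI j) (fun n => ‖((F (En √(n:ℝ)) : ℝ) : ℂ) - t n‖) ≤ ε ∧
      fav (SD j) (fun n => ‖((F (En √(nm (zz n) : ℝ)) : ℝ) : ℂ) - t (nm (zz n))‖) ≤ ε := by
  set δ : ℝ := ε / (2 * (Lp + 1)) with hδ
  have hδ0 : 0 < δ := by positivity
  have hδ1 : Lp * δ ≤ ε / 2 := by
    rw [hδ, mul_div_assoc', div_le_div_iff₀ (by positivity) (by norm_num)]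
    nlinarith
  obtain ⟨M1, hM1⟩ := int_ms (η := δ^2) (by positivity)
  obtain ⟨M2, hM2⟩ := rad_ms (η := δ^2) (by positivity)
  set M := max M1 M2 with hM
  obtain ⟨j1, hj1⟩ := hM1 M (le_max_left _ _)
  obtain ⟨j2, hj2⟩ := hM2 M (le_max_right _ _)
  have hFc : Continuous F := by
    apply LipschitzWith.continuous (K := ⟨Lp, hLp⟩)
    apply LipschitzWith.of_dist_le_mul
    intro x y
    rw [Real.dist_eq, Real.dist_eq]
    exact hF x y
  obtain ⟨t, ht, htn⟩ := SL.weier (ι := Fin 1) (u := fun n _ => UG √(n:ℝ) M) (fun _ => UG_TS M)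
    (f := fun x => F (x 0)) (by fun_prop) (η := ε/2) (by positivity)
  refine ⟨t, ht, max j1 j2, fun j hj => ?_⟩
  have k1 := fav_abs_le (SI_ne j) _ hδ0 (hj1 j ((le_max_left _ _).trans hj))
  have k2 := fav_abs_le (SD_ne j) _ hδ0 (hj2 j ((le_max_right _ _).trans hj))
  have key : ∀ n : ℕ, ‖((F (En √(n:ℝ)) : ℝ) : ℂ) - t n‖ ≤ Lp * |En √(n:ℝ) - UG √(n:ℝ) M| + ε/2 := by
    intro n
    have e1 : ((F (En √(n:ℝ)) : ℝ) : ℂ) - t n = ((F (En √(n:ℝ)) - F (UG √(n:ℝ) M) : ℝ) : ℂ) + (((F (UG √(n:ℝ) M) : ℝ) : ℂ) - t n) := by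
      push_cast; ring
    rw [e1]
    refine (norm_add_le _ _).trans (add_le_add ?_ (htn n))
    rw [Complex.norm_real, Real.norm_eq_abs]
    exact hF _ _
  constructor
  · refine (fav_mono key).trans ?_
    rw [fav_add, fav_mul, fav_const (SI_ne j)]
    have := mul_le_mul_of_nonneg_left k1 hLp
    linarith
  · refine (fav_mono (fun n => key (nm (zz n)))).trans ?_
    rw [fav_add, fav_mul, fav_const (SD_ne j)]
    have := mul_le_mul_of_nonneg_left k2 hLp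
    linarith

/-- the law of (direction, error) is a product -/
theorem rad_law {ν : Measure ℝ} (F : ℝ → ℝ) {Lp : ℝ} (hLp : 0 ≤ Lp) (hF : ∀ x y, |F x - F y| ≤ Lp * |x - y|)
    (hν : Tendsto (fun j => fav (SI j) (fun n => F (En √(n:ℝ)))) atTop (𝓝 (∫ x, F x ∂ν))) (g : C(ℂ, ℂ)) :
    Tendsto (fun j => cav (SD j) (fun n => g (dir (zz n)) * ((F (En √(nm (zz n) : ℝ)) : ℝ) : ℂ))) atTop
      (𝓝 (ang g * ((∫ x, F x ∂ν : ℝ) : ℂ))) := by
  obtain ⟨B, hB0, hB⟩ := cmap_bdd g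
  rw [Metric.tendsto_atTop]
  intro ε hε
  have hA : 0 ≤ ‖ang g‖ := norm_nonneg _
  obtain ⟨t, ht, j0, hj0⟩ := lip_approx hLp hF (ε := ε / (4 * (B + ‖ang g‖ + 1))) (by positivity)
  obtain ⟨L, hL1, hL2⟩ := rad_TS ht g
  set ε' := ε / (4 * (B + ‖ang g‖ + 1)) with hε'
  have hε'0 : 0 < ε' := by positivity
  -- comparison over the integers
  have c1 : ‖((∫ x, F x ∂ν : ℝ) : ℂ) - L‖ ≤ ε' := by
    have h1 : Tendsto (fun j => ‖((fav (SI j) (fun n => F (En √(n:ℝ))) : ℝ) : ℂ) - cav (SI j) t‖) atTop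
        (𝓝 ‖((∫ x, F x ∂ν : ℝ) : ℂ) - L‖) :=
      (((Complex.continuous_ofReal.tendsto _).comp hν).sub hL1).norm
    refine le_of_tendsto h1 ?_
    filter_upwards [eventually_ge_atTop j0] with j hj
    rw [← cav_ofReal]
    exact (norm_cav_sub_le _ _ _).trans (hj0 j hj).1
  rw [Metric.tendsto_atTop] at hL2
  obtain ⟨j1, hj1⟩ := hL2 (ε/4) (by positivity)
  refine ⟨max j0 j1, fun j hj => ?_⟩
  have a1 := (hj0 j ((le_max_left _ _).trans hj)).2
  have a2 := hj1 j ((le_max_right _ _).trans hj)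
  rw [dist_eq_norm] at a2 ⊢
  have a3 : ‖cav (SD j) (fun n => g (dir (zz n)) * ((F (En √(nm (zz n) : ℝ)) : ℝ) : ℂ)) -
      cav (SD j) (fun n => g (dir (zz n)) * t (nm (zz n)))‖ ≤ B * ε' := by
    refine (norm_cav_sub_le _ _ _).trans ?_
    have : ∀ n, ‖g (dir (zz n)) * ((F (En √(nm (zz n) : ℝ)) : ℝ) : ℂ) - g (dir (zz n)) * t (nm (zz n))‖ ≤
        B * ‖((F (En √(nm (zz n) : ℝ)) : ℝ) : ℂ) - t (nm (zz n))‖ := by
      intro n
      rw [← mul_sub, norm_mul]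
      exact mul_le_mul_of_nonneg_right (hB _ (norm_dir_le _)) (norm_nonneg _)
    refine (fav_mono this).trans ?_
    rw [fav_mul]
    exact mul_le_mul_of_nonneg_left a1 hB0
  have a4 : ‖ang g * L - ang g * ((∫ x, F x ∂ν : ℝ) : ℂ)‖ ≤ ‖ang g‖ * ε' := by
    rw [← mul_sub, norm_mul, norm_sub_rev]
    exact mul_le_mul_of_nonneg_left c1 hA
  have hsum : B * ε' + ‖ang g‖ * ε' ≤ ε/4 := by
    have : (B + ‖ang g‖ + 1) * ε' = ε/4 := by rw [hε']; field_simp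
    nlinarith
  calc _ = ‖(cav (SD j) (fun n => g (dir (zz n)) * ((F (En √(nm (zz n) : ℝ)) : ℝ) : ℂ)) -
      cav (SD j) (fun n => g (dir (zz n)) * t (nm (zz n)))) + (cav (SD j) (fun n => g (dir (zz n)) * t (nm (zz n))) - ang g * L) +
      (ang g * L - ang g * ((∫ x, F x ∂ν : ℝ) : ℂ))‖ := by congr 1; ring
    _ ≤ B * ε' + ε/4 + ‖ang g‖ * ε' := (norm_add_le _ _).trans (add_le_add ((norm_add_le _ _).trans (add_le_add a3 a2.le)) a4)
    _ < ε := by linarith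

/-- moving the centre does not change the law of (direction, error) -/
lemma ctr_shift (a : ℤ × ℤ) (F : ℝ → ℝ) {B : ℝ} (hB : ∀ x, |F x| ≤ B) (g : C(ℂ, ℂ)) :
    Tendsto (fun N : ℕ => (∑ z ∈ disc N, g (dir z) * ((F (En √(nm (z - a) : ℝ)) : ℝ) : ℂ) -
      ∑ z ∈ disc N, g (dir z) * ((F (En √(nm z : ℝ)) : ℝ) : ℂ)) / N) atTop (𝓝 0) := by
  obtain ⟨Bg, hBg0, hBg⟩ := cmap_bdd g
  have hB0 : 0 ≤ B := (abs_nonneg _).trans (hB 0)
  set G : ℤ × ℤ → ℂ := fun z => g (dir z) * ((F (En √(nm z : ℝ)) : ℝ) : ℂ) with hG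
  have hGB : ∀ z, ‖G z‖ ≤ Bg * B := by
    intro z
    rw [hG, norm_mul, Complex.norm_real, Real.norm_eq_abs]
    exact mul_le_mul (hBg _ (norm_dir_le z)) (hB _) (abs_nonneg _) hBg0
  have h1 := shift_lim (-a) hGB
  have h2 : Tendsto (fun N : ℕ => (∑ z ∈ disc N, ‖g (dir z) - g (dir (z - a))‖) / N) atTop (𝓝 0) := by
    apply rie0 (B := 2 * Bg)
    · intro z
      rw [abs_of_nonneg (norm_nonneg _)]
      refine (norm_sub_le _ _).trans ?_
      have k1 := hBg _ (norm_dir_le z)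
      have k2 := hBg _ (norm_dir_le (z - a))
      linarith
    · intro y hy
      have k1 := (g.continuous.tendsto _).comp (dir_lim hy 0)
      have k2 := (g.continuous.tendsto _).comp (dir_lim hy (-a))
      have k3 := (k1.sub k2).norm
      rw [sub_self, norm_zero] at k3
      refine k3.congr (fun N => ?_)
      simp only [Function.comp]
      rw [pt_sub]
  have h3 : Tendsto (fun N : ℕ => (∑ z ∈ disc N, (g (dir z) - g (dir (z - a))) * ((F (En √(nm (z - a) : ℝ)) : ℝ) : ℂ)) / N) atTop (𝓝 0) := by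
    have h4 := h2.const_mul B
    rw [mul_zero] at h4
    apply squeeze_zero_norm _ h4
    intro N
    rw [norm_div, Complex.norm_natCast, ← mul_div_assoc]
    apply div_le_div_of_nonneg_right _ (Nat.cast_nonneg _)
    refine (norm_sum_le _ _).trans ?_
    rw [mul_sum]
    apply sum_le_sum
    intro z _
    rw [norm_mul, Complex.norm_real, Real.norm_eq_abs, mul_comm]
    exact mul_le_mul_of_nonneg_right (hB _) (norm_nonneg _)
  have h5 := h3.add h1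
  rw [add_zero] at h5
  refine h5.congr (fun N => ?_)
  rw [← add_div]
  congr 1
  have e1 : ∀ z, G (z + -a) = g (dir (z - a)) * ((F (En √(nm (z - a) : ℝ)) : ℝ) : ℂ) := by
    intro z; rw [← sub_eq_add_neg]
  simp only [e1, sub_mul, sum_sub_distrib]
  ring

theorem ctr_law {ν : Measure ℝ} (a : ℤ × ℤ) (F : ℝ → ℝ) {B : ℝ} (hB : ∀ x, |F x| ≤ B) {Lp : ℝ} (hLp : 0 ≤ Lp)
    (hF : ∀ x y, |F x - F y| ≤ Lp * |x - y|)
    (hν : Tendsto (fun j => fav (SI j) (fun n => F (En √(n:ℝ)))) atTop (𝓝 (∫ x, F x ∂ν))) (g : C(ℂ, ℂ)) :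
    Tendsto (fun j => cav (SD j) (fun n => g (dir (zz n)) * ((F (En √(nm (zz n - a) : ℝ)) : ℝ) : ℂ))) atTop
      (𝓝 (ang g * ((∫ x, F x ∂ν : ℝ) : ℂ))) := by
  have h1 := rad_law F hLp hF hν g
  have h2 := ratio_lim (F := fun N => ∑ z ∈ disc N, g (dir z) * ((F (En √(nm (z - a) : ℝ)) : ℝ) : ℂ) -
      ∑ z ∈ disc N, g (dir z) * ((F (En √(nm z : ℝ)) : ℝ) : ℂ)) (L := 0) (by rw [mul_zero]; exact ctr_shift a F hB g)
  have h3 := h2.add h1
  rw [zero_add] at h3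
  refine h3.congr (fun j => ?_)
  rw [cav_SD (fun z => g (dir z) * ((F (En √(nm (z - a) : ℝ)) : ℝ) : ℂ)), cav_SD (fun z => g (dir z) * ((F (En √(nm z : ℝ)) : ℝ) : ℂ))]
  rw [← add_div]
  congr 1
  ring

end Pool.Agent.W2helper83.GZ
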