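import Pool.Agent.W2helper83.GZ.Dir

/-! Oscillating sums over the Gaussian integers. -/

open Filter Topology MeasureTheory
open Pool.Agent.H383.AP
open Pool.Agent.H425R3.JL
open Pool.Agent.H469R2.NK

namespace Pool.Agent.W2helper83.GZ

/-- translated sums -/
lemma shift_sum (D : Finset (ℤ × ℤ)) (c : ℤ × ℤ) {f : ℤ × ℤ → ℂ} {B : ℝ} (hf : ∀ z, ‖f z‖ ≤ B) :
    ‖∑ z ∈ D, f (z + c) - ∑ z ∈ D, f z‖ ≤
      B * ((D.filter (fun z => z + c ∉ D)).card + (D.filter (fun z => z + -c ∉ D)).card) := by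
  classical
  set D' := D.map (Equiv.addRight c).toEmbedding with hD'
  have h1 : ∑ z ∈ D, f (z + c) = ∑ z ∈ D', f z := by
    rw [hD', Finset.sum_map]; rfl
  rw [h1, ← Finset.sum_sdiff_sub_sum_sdiff]
  have c1 : (D' \ D).card = (D.filter (fun z => z + c ∉ D)).card := by
    have : D' \ D = (D.filter (fun z => z + c ∉ D)).map (Equiv.addRight c).toEmbedding := by
      ext w
      simp only [hD', Finset.mem_sdiff, Finset.mem_map, Finset.mem_filter, Equiv.toEmbedding_apply, Equiv.coe_addRight]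
      constructor
      · rintro ⟨⟨z, hz, rfl⟩, h2⟩; exact ⟨z, ⟨hz, h2⟩, rfl⟩
      · rintro ⟨z, ⟨hz, h2⟩, rfl⟩; exact ⟨⟨z, hz, rfl⟩, h2⟩
    rw [this, Finset.card_map]
  have c2 : (D \ D').card = (D.filter (fun z => z + -c ∉ D)).card := by
    have : D \ D' = D.filter (fun z => z + -c ∉ D) := by
      ext w
      simp only [hD', Finset.mem_sdiff, Finset.mem_map, Finset.mem_filter, Equiv.toEmbedding_apply, Equiv.coe_addRight]
      constructor
      · rintro ⟨h2, h3⟩
        refine ⟨h2, fun h4 => h3 ⟨w + -c, h4, by simp⟩⟩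
      · rintro ⟨h2, h3⟩
        refine ⟨h2, ?_⟩
        rintro ⟨z, hz, rfl⟩
        exact h3 (by simpa using hz)
    rw [this]
  have b : ∀ S : Finset (ℤ × ℤ), ‖∑ z ∈ S, f z‖ ≤ S.card * B := by
    intro S
    refine (norm_sum_le _ _).trans ?_
    calc ∑ z ∈ S, ‖f z‖ ≤ ∑ z ∈ S, B := Finset.sum_le_sum (fun z _ => hf z)
      _ = _ := by rw [Finset.sum_const, nsmul_eq_mul]
  calc ‖∑ z ∈ D' \ D, f z - ∑ z ∈ D \ D', f z‖ ≤ ‖∑ z ∈ D' \ D, f z‖ + ‖∑ z ∈ D \ D', f z‖ := norm_sub_le _ _
    _ ≤ (D' \ D).card * B + (D \ D').card * B := add_le_add (b _) (b _)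
    _ = _ := by rw [c1, c2]; ring

lemma shift_lim (c : ℤ × ℤ) {f : ℤ × ℤ → ℂ} {B : ℝ} (hf : ∀ z, ‖f z‖ ≤ B) :
    Tendsto (fun N : ℕ => (∑ z ∈ disc N, f (z + c) - ∑ z ∈ disc N, f z) / N) atTop (𝓝 0) := by
  have hB0 : 0 ≤ B := (norm_nonneg _).trans (hf 0)
  have h := ((shift_small c).add (shift_small (-c))).const_mul B
  simp only [add_zero, mul_zero] at h
  apply squeeze_zero_norm _ h
  intro N
  rw [norm_div, Complex.norm_natCast, ← add_div, ← mul_div_assoc]
  exact div_le_div_of_nonneg_right (shift_sum _ c hf) (Nat.cast_nonneg _)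

/-- the average of a geometric progression -/
noncomputable def DH (β : ℝ) (H : ℕ) : ℂ := (∑ h ∈ Finset.range H, e (β * h)) / H

lemma e_pow (β : ℝ) (h : ℕ) : e (β * h) = e β ^ h := by
  induction h with
  | zero => simp [e]
  | succ n ih => rw [pow_succ, ← ih, ← e_add]; congr 1; push_cast; ring

lemma norm_DH_le (β : ℝ) (H : ℕ) : ‖DH β H‖ ≤ 1 := by
  unfold DH
  rw [norm_div, Complex.norm_natCast]
  rcases Nat.eq_zero_or_pos H with rfl | hH
  · simp
  rw [div_le_one (by exact_mod_cast hH)]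
  refine (norm_sum_le _ _).trans ?_
  simp [norm_e]

lemma DH_lim {β : ℝ} (hβ : e β ≠ 1) : Tendsto (fun H : ℕ => DH β H) atTop (𝓝 0) := by
  have hne : e β - 1 ≠ 0 := sub_ne_zero.mpr hβ
  have h0 : Tendsto (fun H : ℕ => (2 / ‖e β - 1‖) / (H:ℝ)) atTop (𝓝 0) :=
    tendsto_const_nhds.div_atTop tendsto_natCast_atTop_atTop
  apply squeeze_zero_norm _ h0
  intro H
  unfold DH
  rw [norm_div, Complex.norm_natCast]
  apply div_le_div_of_nonneg_right _ (Nat.cast_nonneg _)
  have h1 : ∑ h ∈ Finset.range H, e (β * h) = (e β ^ H - 1) / (e β - 1) := by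
    rw [← geom_sum_eq hβ]
    exact Finset.sum_congr rfl (fun h _ => e_pow β h)
  rw [h1, norm_div]
  apply div_le_div_of_nonneg_right _ (norm_nonneg _)
  calc ‖e β ^ H - 1‖ ≤ ‖e β ^ H‖ + ‖(1:ℂ)‖ := norm_sub_le _ _
    _ = 2 := by rw [norm_pow, norm_e]; norm_num

lemma e_eq_one {β : ℝ} (h : e β = 1) : ∃ k : ℤ, β = k := by
  unfold e at h
  rw [Complex.exp_eq_one_iff] at h
  obtain ⟨k, hk⟩ := h
  refine ⟨k, ?_⟩
  have h2 := congrArg Complex.im hk
  simp at h2
  have hpi := Real.pi_pos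
  nlinarith [h2]

/-- for almost all directions there is no resonance -/
lemma ae_nores {θ : ℝ} (hθ : θ ≠ 0) : ∀ᵐ y : ℝ × ℝ, e (θ * (dr y).re) ≠ 1 := by
  have key : ∀ k : ℤ, ∀ᵐ y : ℝ × ℝ, θ * y.1 ≠ k * √(y.1 ^ 2 + y.2 ^ 2) := by
    intro k
    rw [ae_iff]
    simp only [not_not]
    have hm : MeasurableSet {a : ℝ × ℝ | θ * a.1 = k * √(a.1 ^ 2 + a.2 ^ 2)} := by
      apply measurableSet_eq_fun <;> fun_prop
    rw [Measure.volume_eq_prod, Measure.measure_prod_null hm]
    have hx : ∀ᵐ x : ℝ, x ≠ 0 := by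
      rw [ae_iff]
      simp
    filter_upwards [hx] with x hx0
    by_cases hk : k = 0
    · subst hk
      have : Prod.mk x ⁻¹' {a : ℝ × ℝ | θ * a.1 = ((0:ℤ):ℝ) * √(a.1 ^ 2 + a.2 ^ 2)} = ∅ := by
        ext t
        simp only [Set.mem_preimage, Set.mem_ofPred_eq, Int.cast_zero, zero_mul, Set.mem_empty_iff_false, iff_false]
        exact mul_ne_zero hθ hx0
      rw [this]; simp
    · apply Set.Finite.measure_zero
      set s : ℝ := (θ * x / k) ^ 2 - x ^ 2 with hs
      apply Set.Finite.subset (Set.toFinite {√s, -√s})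
      intro t ht
      simp only [Set.mem_preimage, Set.mem_ofPred_eq] at ht
      have hk' : (k:ℝ) ≠ 0 := by exact_mod_cast hk
      have h3 : t^2 = s := by
        have h4 : √(x ^ 2 + t ^ 2) = θ * x / k := by
          field_simp
          linarith
        rw [hs, ← h4, Real.sq_sqrt (by positivity)]
        ring
      rw [Set.mem_insert_iff, Set.mem_singleton_iff, ← h3, Real.sqrt_sq_eq_abs]
      rcases abs_choice t with h | h
      · left; exact h.symm
      · right; rw [h]; ring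
  have hall := ae_all_iff.mpr key
  filter_upwards [hall, ae_good] with y h1 h2 h3
  obtain ⟨k, hk⟩ := e_eq_one h3
  apply h1 k
  have hp := Real.sqrt_pos.mpr (sq_pos_of h2.1)
  have h4 : (dr y).re = y.1 / √(y.1 ^ 2 + y.2 ^ 2) := by
    unfold dr
    rw [Complex.div_ofReal_re]; simp
  rw [h4] at hk
  rw [← hk]
  field_simp

/-- the basic oscillating sums -/
theorem osc {θ : ℝ} (hθ : θ ≠ 0) (g : C(ℂ, ℂ)) :
    Tendsto (fun N : ℕ => (∑ z ∈ disc N, e (θ * √(nm z : ℝ)) * g (dir z)) / N) atTop (𝓝 0) := by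
  obtain ⟨B, hB0, hB⟩ := cmap_bdd g
  set f : ℤ × ℤ → ℂ := fun z => e (θ * √(nm z : ℝ)) * g (dir z) with hf
  have hfB : ∀ z, ‖f z‖ ≤ B := by
    intro z
    simp only [hf]
    rw [norm_mul, norm_e, one_mul]
    exact hB _ (norm_dir_le z)
  -- the averaged sums
  set FH : ℕ → ℤ × ℤ → ℂ := fun H z => (∑ h ∈ Finset.range H, f (z + ((h:ℤ), 0))) / H with hFH
  have hFB : ∀ H z, ‖FH H z‖ ≤ B := by
    intro H z
    simp only [hFH]
    rw [norm_div, Complex.norm_natCast]
    rcases Nat.eq_zero_or_pos H with rfl | hH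
    · simpa using hB0
    rw [div_le_iff₀ (by exact_mod_cast hH)]
    refine (norm_sum_le _ _).trans ?_
    calc ∑ h ∈ Finset.range H, ‖f (z + ((h:ℤ), 0))‖ ≤ ∑ h ∈ Finset.range H, B := Finset.sum_le_sum (fun h _ => hfB _)
      _ = B * H := by rw [Finset.sum_const, Finset.card_range, nsmul_eq_mul, mul_comm]
  set J : ℕ → ℝ := fun H => ∫ y : ℝ × ℝ, (if y.1 ^ 2 + y.2 ^ 2 < 1 then ‖DH (θ * (dr y).re) H * g (dr y)‖ else 0) with hJ
  have hlim : ∀ H, Tendsto (fun N : ℕ => (∑ z ∈ disc N, ‖FH H z‖) / N) atTop (𝓝 (J H)) := by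
    intro H
    have h := riemann' (Φ := fun _ z => ((‖FH H z‖ : ℝ) : ℂ)) (B := B) (fun _ z => by
      rw [Complex.norm_real, norm_norm]; exact hFB H z)
      (Ψ := fun y => ((‖DH (θ * (dr y).re) H * g (dr y)‖ : ℝ) : ℂ)) (by
      filter_upwards [ae_good] with y hy
      apply (Complex.continuous_ofReal.tendsto _).comp
      -- divide by a unimodular factor
      have hx : ∀ N : ℕ, ‖FH H (pt N y 0)‖ = ‖(∑ h ∈ Finset.range H,
          e (θ * (√((nm (pt N y ((h:ℤ), 0)) : ℕ) : ℝ) - √((nm (pt N y 0) : ℕ) : ℝ))) * g (dir (pt N y ((h:ℤ), 0)))) / H‖ := by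
        intro N
        have h1 : FH H (pt N y 0) = e (θ * √((nm (pt N y 0) : ℕ) : ℝ)) * ((∑ h ∈ Finset.range H,
          e (θ * (√((nm (pt N y ((h:ℤ), 0)) : ℕ) : ℝ) - √((nm (pt N y 0) : ℕ) : ℝ))) * g (dir (pt N y ((h:ℤ), 0)))) / H) := by
          simp only [hFH, hf]
          rw [← mul_div_assoc, Finset.mul_sum]
          congr 1
          apply Finset.sum_congr rfl
          intro h _
          have e2 : pt N y 0 + ((h:ℤ), 0) = pt N y ((h:ℤ), 0) := by unfold pt; simp
          rw [e2, ← mul_assoc, ← e_add]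
          congr 2
          ring
        rw [h1, norm_mul, norm_e, one_mul]
      simp only [hx]
      apply Tendsto.norm
      have h2 : DH (θ * (dr y).re) H * g (dr y) = (∑ h ∈ Finset.range H, e (θ * (((h:ℤ):ℝ) * (dr y).re + ((0:ℤ):ℝ) * (dr y).im)) * g (dr y)) / H := by
        unfold DH
        rw [div_mul_eq_mul_div, Finset.sum_mul]
        congr 1
        apply Finset.sum_congr rfl
        intro h _
        congr 2
        push_cast
        ring
      rw [h2]
      apply Tendsto.div_const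
      apply tendsto_finsetSum
      intro h _
      apply Tendsto.mul
      · have hc : Continuous (fun t : ℝ => e (θ * t)) := by
          unfold e
          fun_prop
        exact (hc.tendsto _).comp (rad_lim hy.1 ((h:ℤ), 0))
      · exact (g.continuous.tendsto _).comp (dir_lim hy.1 _))
    have e3 : (∫ y : ℝ × ℝ, (if y.1 ^ 2 + y.2 ^ 2 < 1 then ((‖DH (θ * (dr y).re) H * g (dr y)‖ : ℝ) : ℂ) else 0)) = ((J H : ℝ) : ℂ) := by
      simp only [hJ]
      rw [← integral_complex_ofReal]
      congr 1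
      funext y
      split_ifs <;> simp
    rw [e3] at h
    have h2 := (Complex.continuous_re.tendsto _).comp h
    simp only [Complex.ofReal_re] at h2
    refine h2.congr (fun N => ?_)
    simp only [Function.comp]
    rw [← Complex.ofReal_sum, ← Complex.ofReal_natCast, ← Complex.ofReal_div, Complex.ofReal_re]
  have hJ0 : Tendsto J atTop (𝓝 0) := by
    have h1 : Tendsto J atTop (𝓝 (∫ y : ℝ × ℝ, (0:ℝ))) := by
      apply tendsto_integral_filter_of_dominated_convergence
        (fun y => (Set.Icc (-2:ℝ) 2 ×ˢ Set.Icc (-2:ℝ) 2).indicator (fun _ => B) y)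
      · refine Eventually.of_forall (fun H => ?_)
        have hdr : Measurable dr := by
          unfold dr
          fun_prop
        have h1 : Measurable (fun y : ℝ × ℝ => ‖DH (θ * (dr y).re) H * g (dr y)‖) := by
          apply Measurable.norm
          apply Measurable.mul
          · unfold DH
            apply Measurable.div_const
            apply Finset.measurable_sum
            intro h _
            have hc : Continuous (fun t : ℝ => e (θ * t * h)) := by
              unfold e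
              fun_prop
            exact hc.measurable.comp (Complex.measurable_re.comp hdr)
          · exact g.continuous.measurable.comp hdr
        apply Measurable.aestronglyMeasurable
        apply Measurable.ite _ h1 measurable_const
        apply measurableSet_lt <;> fun_prop
      · refine Eventually.of_forall (fun H => Eventually.of_forall (fun y => ?_))
        rw [Set.indicator_apply]
        by_cases hy : y.1 ^ 2 + y.2 ^ 2 < 1
        · rw [if_pos hy, if_pos, norm_norm, norm_mul]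
          · calc ‖DH (θ * (dr y).re) H‖ * ‖g (dr y)‖ ≤ 1 * B :=
                mul_le_mul (norm_DH_le _ _) (hB _ (dr_norm_le y)) (norm_nonneg _) zero_le_one
              _ = B := one_mul _
          · refine Set.mem_prod.mpr ⟨⟨?_, ?_⟩, ?_, ?_⟩ <;> nlinarith [sq_nonneg y.1, sq_nonneg y.2]
        · rw [if_neg hy, norm_zero]
          split_ifs <;> linarith
      · rw [integrable_indicator_iff (measurableSet_Icc.prod measurableSet_Icc)]
        apply const_on
        rw [Measure.volume_eq_prod, Measure.prod_prod, Real.volume_Icc]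
        exact ENNReal.mul_ne_top ENNReal.ofReal_ne_top ENNReal.ofReal_ne_top
      · filter_upwards [ae_nores hθ] with y hy
        have h1 := (DH_lim hy).mul_const (g (dr y))
        rw [zero_mul] at h1
        have h2 := h1.norm
        rw [norm_zero] at h2
        split_ifs
        · exact h2
        · exact tendsto_const_nhds
    rwa [integral_zero] at h1
  -- conclusion
  rw [Metric.tendsto_atTop]
  intro ε hε
  obtain ⟨H, hH1, hH⟩ : ∃ H : ℕ, 1 ≤ H ∧ J H < ε / 3 := by
    have := (hJ0.eventually (gt_mem_nhds (show (0:ℝ) < ε / 3 by positivity))).and (eventually_ge_atTop 1)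
    obtain ⟨H, h1, h2⟩ := this.exists
    exact ⟨H, h2, h1⟩
  have hH0 : (H:ℂ) ≠ 0 := by exact_mod_cast (by omega : H ≠ 0)
  have h1 : Tendsto (fun N : ℕ => (∑ h ∈ Finset.range H, (∑ z ∈ disc N, f (z + ((h:ℤ), 0)) - ∑ z ∈ disc N, f z) / N) / H) atTop (𝓝 0) := by
    have := (tendsto_finsetSum (Finset.range H) (fun h _ => shift_lim ((h:ℤ), 0) hfB)).div_const (H:ℂ)
    simpa using this
  rw [Metric.tendsto_atTop] at h1
  obtain ⟨N1, h1⟩ := h1 (ε/3) (by positivity)
  have h2 := (hlim H).eventually (gt_mem_nhds (show J H < ε / 3 from hH))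
  rw [eventually_atTop] at h2
  obtain ⟨N2, h2⟩ := h2
  refine ⟨max N1 N2, fun N hN => ?_⟩
  have a1 := h1 N (le_trans (le_max_left _ _) hN)
  have a2 := h2 N (le_trans (le_max_right _ _) hN)
  rw [dist_zero_right] at a1 ⊢
  have e4 : (∑ z ∈ disc N, f z) / N = (∑ z ∈ disc N, FH H z) / N -
      (∑ h ∈ Finset.range H, (∑ z ∈ disc N, f (z + ((h:ℤ), 0)) - ∑ z ∈ disc N, f z) / N) / H := by
    have e5 : ∑ z ∈ disc N, FH H z = (∑ h ∈ Finset.range H, ∑ z ∈ disc N, f (z + ((h:ℤ), 0))) / H := by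
      simp only [hFH]
      rw [← Finset.sum_div, Finset.sum_comm]
    rw [e5, ← Finset.sum_div, Finset.sum_sub_distrib, Finset.sum_const, Finset.card_range, nsmul_eq_mul]
    field_simp
    ring
  rw [e4]
  have a3 : ‖(∑ z ∈ disc N, FH H z) / N‖ ≤ (∑ z ∈ disc N, ‖FH H z‖) / N := by
    rw [norm_div, Complex.norm_natCast]
    exact div_le_div_of_nonneg_right (norm_sum_le _ _) (Nat.cast_nonneg _)
  calc _ ≤ ‖(∑ z ∈ disc N, FH H z) / N‖ + ‖(∑ h ∈ Finset.range H, (∑ z ∈ disc N, f (z + ((h:ℤ), 0)) - ∑ z ∈ disc N, f z) / N) / H‖ :=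
        norm_sub_le _ _
    _ < ε := by linarith

end Pool.Agent.W2helper83.GZ
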